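import Mathlib

set_option autoImplicit false

namespace Pool.Agent.Y373.OS

variable {K : Type*} [Field K]

def al (w p : K) : K := ((1 - w) * p + (2 + w)) / 3
def be (w p : K) : K := ((2 + w) * p + (1 - w)) / 3

def cu (w y : K) : List K → (List Bool → K) → Bool → List Bool → K
  | [], F, false, [] => F []
  | [], _, true, [] => 0
  | [], _, _, _ :: _ => 0
  | _ :: _, _, _, [] => 0
  | x :: xs, F, false, false :: S =>
      al w (x * y) * cu w y xs (fun L => F (false :: L)) false S
        + (x * y) * cu w y xs (fun L => F (true :: L)) true S
  | x :: xs, F, true, true :: S =>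
      al w (x * y) * cu w y xs (fun L => F (true :: L)) true S
        + cu w y xs (fun L => F (false :: L)) false S
  | x :: xs, F, true, false :: S =>
      be w (x * y) * cu w y xs (fun L => F (false :: L)) true S
  | x :: xs, F, false, true :: S =>
      be w (x * y) * cu w y xs (fun L => F (true :: L)) false S

def RR (w x y : K) (f : Bool → Bool → K) : Bool → Bool → K
  | false, false => (x - w * y) * f false false
  | true, true => (x - w * y) * f true true
  | false, true => (1 - w) * y * f false true + (-w ^ 2) * (x - y) * f true false
  | true, false => (1 - w) * x * f true false + (-w ^ 2) * (x - y) * f false true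

theorem cu_add (w y : K) (xs : List K) (F G : List Bool → K) (b : Bool) (S : List Bool) :
    cu w y xs (fun L => F L + G L) b S = cu w y xs F b S + cu w y xs G b S := by
  induction xs generalizing F G b S with
  | nil => cases b <;> cases S <;> simp [cu]
  | cons x xs ih =>
    cases S with
    | nil => simp [cu]
    | cons s S => cases b <;> cases s <;> simp only [cu, ih] <;> ring

theorem cu_smul (w y : K) (xs : List K) (c : K) (F : List Bool → K) (b : Bool) (S : List Bool) :
    cu w y xs (fun L => c * F L) b S = c * cu w y xs F b S := by
  induction xs generalizing F b S with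
  | nil => cases b <;> cases S <;> simp [cu]
  | cons x xs ih =>
    cases S with
    | nil => simp [cu]
    | cons s S => cases b <;> cases s <;> simp only [cu, ih] <;> ring

theorem cu_congr (w y : K) (xs : List K) (F G : List Bool → K)
    (h : ∀ L : List Bool, L.length = xs.length → F L = G L) (b : Bool) (S : List Bool) :
    cu w y xs F b S = cu w y xs G b S := by
  induction xs generalizing F G b S with
  | nil => cases b <;> cases S <;> simp [cu, h [] rfl]
  | cons x xs ih =>
    cases S with
    | nil => simp [cu]
    | cons s S =>
      have i0 := ih (fun L => F (false :: L)) (fun L => G (false :: L))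
        (fun L hL => h _ (by simpa using hL))
      have i1 := ih (fun L => F (true :: L)) (fun L => G (true :: L))
        (fun L hL => h _ (by simpa using hL))
      cases b <;> cases s <;> simp only [cu, i0, i1]

theorem cu_RR (w x y z : K) (B : List K) (F G : Bool → Bool → List Bool → K)
    (h : ∀ L a b, RR w x y (fun a b => F a b L) a b = (x - w * y) * G a b L) (t : Bool)
    (S : List Bool) (a b : Bool) :
    RR w x y (fun a b => cu w z B (F a b) t S) a b = (x - w * y) * cu w z B (G a b) t S := by
  have h' := fun L => h L a b
  have e1 : ∀ (c : K) (F : List Bool → K), c * cu w z B F t S = cu w z B (fun L => c * F L) t S :=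
    fun c F => (cu_smul w z B c F t S).symm
  have e2 : ∀ (F G : List Bool → K), cu w z B F t S + cu w z B G t S
      = cu w z B (fun L => F L + G L) t S := fun F G => (cu_add w z B F G t S).symm
  cases a <;> cases b <;> simp only [RR] at h' ⊢ <;> simp only [e1, e2] <;>
    exact congrArg (fun F => cu w z B F t S) (funext h')

theorem ybe_row (w : K) (hw : w ^ 2 + w + 1 = 0) (h3 : (3 : K) ≠ 0) (x y z : K) (B : List K)
    (F G : List Bool → K)
    (h : ∀ L a b, RR w x y (fun a b => F (b :: a :: L)) a b = (x - w * y) * G (b :: a :: L))
    (r : Bool) (S : List Bool) (a b : Bool) :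
    RR w x y (fun a b => cu w z (y :: x :: B) F r (b :: a :: S)) a b
      = (x - w * y) * cu w z (x :: y :: B) G r (b :: a :: S) := by
  have H := cu_RR w x y z B (fun a b L => F (b :: a :: L)) (fun a b L => G (b :: a :: L)) h
  have H1 := H false S false false
  have H2 := H false S false true
  have H3 := H false S true false
  have H4 := H false S true true
  have H5 := H true S false false
  have H6 := H true S false true
  have H7 := H true S true false
  have H8 := H true S true true
  simp only [RR] at H1 H2 H3 H4 H5 H6 H7 H8
  clear H
  have hw2 : w ^ 2 = -w - 1 := by linear_combination hw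
  have hw3 : w ^ 3 = 1 := by linear_combination (w - 1) * hw
  have hw4 : w ^ 4 = w := by linear_combination (w ^ 2 - w) * hw
  cases r <;> cases a <;> cases b <;> simp only [RR, cu]
  · linear_combination (norm := skip) ((al w (x * z)) * (al w (y * z))) * H1 + ((al w (x * z)) * ((y * z))) * H7 + (((x * z)) * (be w (y * z))) * H6
    simp only [al, be]
    field_simp
    try ring_nf
    try simp only [hw2, hw3, hw4]
    try ring
  · linear_combination (norm := skip) ((be w (x * z)) * (al w (y * z))) * H2 + ((be w (x * z)) * ((y * z))) * H8
    simp only [al, be]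
    field_simp
    try ring_nf
    try simp only [hw2, hw3, hw4]
    try ring
  · linear_combination (norm := skip) ((al w (x * z)) * (be w (y * z))) * H3 + (((x * z)) * (al w (y * z))) * H8 + (((x * z)) * (1)) * H2
    simp only [al, be]
    field_simp
    try ring_nf
    try simp only [hw2, hw3, hw4]
    try ring
  · linear_combination (norm := skip) ((be w (x * z)) * (be w (y * z))) * H4
    simp only [al, be]
    field_simp
    try ring_nf
    try simp only [hw2, hw3, hw4]
    try ring
  · linear_combination (norm := skip) ((be w (x * z)) * (be w (y * z))) * H5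
    simp only [al, be]
    field_simp
    try ring_nf
    try simp only [hw2, hw3, hw4]
    try ring
  · linear_combination (norm := skip) ((al w (x * z)) * (be w (y * z))) * H6 + ((1) * (al w (y * z))) * H1 + ((1) * ((y * z))) * H7
    simp only [al, be]
    field_simp
    try ring_nf
    try simp only [hw2, hw3, hw4]
    try ring
  · linear_combination (norm := skip) ((be w (x * z)) * (al w (y * z))) * H7 + ((be w (x * z)) * (1)) * H1
    simp only [al, be]
    field_simp
    try ring_nf
    try simp only [hw2, hw3, hw4]
    try ring
  · linear_combination (norm := skip) ((al w (x * z)) * (al w (y * z))) * H8 + ((al w (x * z)) * (1)) * H2 + ((1) * (be w (y * z))) * H3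
    simp only [al, be]
    field_simp
    try ring_nf
    try simp only [hw2, hw3, hw4]
    try ring

theorem ybe_col (w : K) (hw : w ^ 2 + w + 1 = 0) (h3 : (3 : K) ≠ 0) (x y : K) (B : List K)
    (F : List Bool → K) (S : List Bool) (s t : Bool) :
    RR w x y (fun s t => cu w y B (fun L => cu w x B F s L) t S) s t
      = (x - w * y) * cu w x B (fun L => cu w y B F s L) t S := by
  induction B generalizing F S s t with
  | nil =>
    cases S with
    | nil => cases s <;> cases t <;> simp [RR, cu]
    | cons r S => cases s <;> cases t <;> simp [RR, cu]
  | cons z B ih =>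
    cases S with
    | nil => cases s <;> cases t <;> simp [RR, cu]
    | cons r S =>
    have hw2 : w ^ 2 = -w - 1 := by linear_combination hw
    have hw3 : w ^ 3 = 1 := by linear_combination (w - 1) * hw
    have hw4 : w ^ 4 = w := by linear_combination (w ^ 2 - w) * hw
    have H000 := ih (fun L => F (false :: L)) S false false
    have H001 := ih (fun L => F (false :: L)) S false true
    have H010 := ih (fun L => F (false :: L)) S true false
    have H011 := ih (fun L => F (false :: L)) S true true
    have H100 := ih (fun L => F (true :: L)) S false false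
    have H101 := ih (fun L => F (true :: L)) S false true
    have H110 := ih (fun L => F (true :: L)) S true false
    have H111 := ih (fun L => F (true :: L)) S true true
    simp only [RR] at H000 H001 H010 H011 H100 H101 H110 H111
    clear ih
    cases t <;> cases r <;> cases s <;> simp only [RR, cu, cu_add, cu_smul]
    · linear_combination (norm := skip) ((al w (z * y)) * (al w (z * x))) * H000 + (((z * y)) * (al w (z * x))) * H110 + ((be w (z * y)) * ((z * x))) * H101
      simp only [al, be]
      field_simp
      try ring_nf
      try simp only [hw2, hw3, hw4]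
      try ring
    · linear_combination (norm := skip) ((be w (z * y)) * (al w (z * x))) * H010 + ((al w (z * y)) * ((z * x))) * H111 + ((1) * ((z * x))) * H001
      simp only [al, be]
      field_simp
      try ring_nf
      try simp only [hw2, hw3, hw4]
      try ring
    · linear_combination (norm := skip) ((be w (z * y)) * (be w (z * x))) * H100
      simp only [al, be]
      field_simp
      try ring_nf
      try simp only [hw2, hw3, hw4]
      try ring
    · linear_combination (norm := skip) ((al w (z * y)) * (be w (z * x))) * H110 + ((1) * (be w (z * x))) * H000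
      simp only [al, be]
      field_simp
      try ring_nf
      try simp only [hw2, hw3, hw4]
      try ring
    · linear_combination (norm := skip) ((al w (z * y)) * (be w (z * x))) * H001 + (((z * y)) * (be w (z * x))) * H111
      simp only [al, be]
      field_simp
      try ring_nf
      try simp only [hw2, hw3, hw4]
      try ring
    · linear_combination (norm := skip) ((be w (z * y)) * (be w (z * x))) * H011
      simp only [al, be]
      field_simp
      try ring_nf
      try simp only [hw2, hw3, hw4]
      try ring
    · linear_combination (norm := skip) ((be w (z * y)) * (al w (z * x))) * H101 + ((al w (z * y)) * (1)) * H000 + (((z * y)) * (1)) * H110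
      simp only [al, be]
      field_simp
      try ring_nf
      try simp only [hw2, hw3, hw4]
      try ring
    · linear_combination (norm := skip) ((al w (z * y)) * (al w (z * x))) * H111 + ((1) * (al w (z * x))) * H001 + ((be w (z * y)) * (1)) * H010
      simp only [al, be]
      field_simp
      try ring_nf
      try simp only [hw2, hw3, hw4]
      try ring

theorem RR_lin (w x y c d : K) (f g : Bool → Bool → K) (a b : Bool) :
    RR w x y (fun a b => c * f a b + d * g a b) a b
      = c * RR w x y f a b + d * RR w x y g a b := by
  cases a <;> cases b <;> simp only [RR] <;> ring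

theorem RR_smul (w x y c : K) (f : Bool → Bool → K) (a b : Bool) :
    RR w x y (fun a b => c * f a b) a b = c * RR w x y f a b := by
  cases a <;> cases b <;> simp only [RR] <;> ring

theorem RR_add (w x y : K) (f g : Bool → Bool → K) (a b : Bool) :
    RR w x y (fun a b => f a b + g a b) a b = RR w x y f a b + RR w x y g a b := by
  cases a <;> cases b <;> simp only [RR] <;> ring

theorem cu_exch (w : K) (hw : w ^ 2 + w + 1 = 0) (h3 : (3 : K) ≠ 0) (x y z : K) (B : List K)
    (A : List K) (F G : List Bool → K)
    (h : ∀ SA : List Bool, SA.length = A.length → ∀ L a b,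
      RR w x y (fun a b => F (SA ++ b :: a :: L)) a b = (x - w * y) * G (SA ++ b :: a :: L))
    (r : Bool) (SA : List Bool) (hl : SA.length = A.length) (S : List Bool) (a b : Bool) :
    RR w x y (fun a b => cu w z (A ++ y :: x :: B) F r (SA ++ b :: a :: S)) a b
      = (x - w * y) * cu w z (A ++ x :: y :: B) G r (SA ++ b :: a :: S) := by
  induction A generalizing F G r SA with
  | nil =>
    have : SA = [] := List.length_eq_zero_iff.1 (by simpa using hl)
    subst this
    simp only [List.nil_append]
    exact ybe_row w hw h3 x y z B F G (fun L a b => by simpa using h [] rfl L a b) r S a b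
  | cons q A ih =>
    cases SA with
    | nil => simp at hl
    | cons s SA =>
      have hl' : SA.length = A.length := by simpa using hl
      have i0 := fun r => ih (fun L => F (false :: L)) (fun L => G (false :: L))
        (fun SA' h' L a b => by simpa using h (false :: SA') (by simpa using h') L a b) r SA hl'
      have i1 := fun r => ih (fun L => F (true :: L)) (fun L => G (true :: L))
        (fun SA' h' L a b => by simpa using h (true :: SA') (by simpa using h') L a b) r SA hl'
      simp only [List.cons_append]
      cases r <;> cases s <;> simp only [cu, RR_add, RR_smul, i0, i1] <;> ring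

/-- boundary weights: diagonal entry `1` (outgoing state `true`) and `-1` -/
def bw (w x : K) (r : Bool) : K := if r then -w / (1 + w ^ 2 * x) else -w * x / (1 + w ^ 2 * x)

def Psi0 (w : K) : List K → List Bool → K
  | [], [] => 1
  | [], _ :: _ => 0
  | _ :: _, [] => 0
  | y :: xs, r :: S => cu w y xs (Psi0 w xs) r S

def Psi1 (w : K) : List K → List Bool → K
  | [], _ => 0
  | _ :: _, [] => 0
  | y :: xs, r :: S => cu w y xs (Psi1 w xs) r S + bw w y r * cu w y xs (Psi0 w xs) (!r) S

theorem refl0 (w : K) (hw : w ^ 2 + w + 1 = 0) (h3 : (3 : K) ≠ 0) (x y : K) (B : List K)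
    (S : List Bool) (a b : Bool) :
    RR w x y (fun a b => Psi0 w (y :: x :: B) (b :: a :: S)) a b
      = (x - w * y) * Psi0 w (x :: y :: B) (b :: a :: S) := by
  have hw2 : w ^ 2 = -w - 1 := by linear_combination hw
  have hw3 : w ^ 3 = 1 := by linear_combination (w - 1) * hw
  have hw4 : w ^ 4 = w := by linear_combination (w ^ 2 - w) * hw
  have H := ybe_col w hw h3 x y B (Psi0 w B) S
  have H00 := H false false
  have H01 := H false true
  have H10 := H true false
  have H11 := H true true
  simp only [RR] at H00 H01 H10 H11
  clear H
  cases a <;> cases b <;> simp only [RR, Psi0, cu]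
  · linear_combination (norm := skip) (al w (y * x)) * H00 + ((y * x)) * H11
    simp only [al, be]
    field_simp
    try ring_nf
    try simp only [hw2, hw3, hw4]
    try ring
  · linear_combination (norm := skip) (be w (y * x)) * H01
    simp only [al, be]
    field_simp
    try ring_nf
    try simp only [hw2, hw3, hw4]
    try ring
  · linear_combination (norm := skip) (be w (y * x)) * H10
    simp only [al, be]
    field_simp
    try ring_nf
    try simp only [hw2, hw3, hw4]
    try ring
  · linear_combination (norm := skip) (al w (y * x)) * H11 + (1) * H00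
    simp only [al, be]
    field_simp
    try ring_nf
    try simp only [hw2, hw3, hw4]
    try ring

theorem refl1 (w : K) (hw : w ^ 2 + w + 1 = 0) (h3 : (3 : K) ≠ 0) (x y : K)
    (hx : 1 + w ^ 2 * x ≠ 0) (hy : 1 + w ^ 2 * y ≠ 0) (B : List K)
    (S : List Bool) (a b : Bool) :
    RR w x y (fun a b => Psi1 w (y :: x :: B) (b :: a :: S)) a b
      = (x - w * y) * Psi1 w (x :: y :: B) (b :: a :: S) := by
  have hw2 : w ^ 2 = -w - 1 := by linear_combination hw
  have hw3 : w ^ 3 = 1 := by linear_combination (w - 1) * hw
  have hw4 : w ^ 4 = w := by linear_combination (w ^ 2 - w) * hw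
  have hw5 : w ^ 5 = -w - 1 := by linear_combination (w ^ 3 - w ^ 2 + 1) * hw
  have hw6 : w ^ 6 = 1 := by linear_combination (w ^ 3 + 1) * (w - 1) * hw
  have hw7 : w ^ 7 = w := by linear_combination w * (w ^ 3 + 1) * (w - 1) * hw
  have hw8 : w ^ 8 = -w - 1 := by linear_combination w ^ 2 * (w ^ 3 + 1) * (w - 1) * hw + hw
  have hx' : 1 + x * w ^ 2 ≠ 0 := by rwa [mul_comm x]
  have hy' : 1 + y * w ^ 2 ≠ 0 := by rwa [mul_comm y]
  have H := ybe_col w hw h3 x y B (Psi1 w B) S
  have H00 := H false false
  have H01 := H false true
  have H10 := H true false
  have H11 := H true true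
  have G := ybe_col w hw h3 x y B (Psi0 w B) S
  have G00 := G false false
  have G01 := G false true
  have G10 := G true false
  have G11 := G true true
  simp only [RR] at H00 H01 H10 H11 G00 G01 G10 G11
  clear H G
  cases a <;> cases b <;> simp only [RR, Psi1, Psi0, cu, Bool.not_false, Bool.not_true, cu_add, cu_smul]
  · linear_combination (norm := skip) (al w (y * x)) * H00 + ((y * x)) * H11 + (al w (y * x)) * bw w y false * G10 + ((y * x)) * bw w y true * G01 + bw w x false * (be w (y * x)) * G01
    simp only [bw, Bool.false_eq_true, ↓reduceIte]
    simp only [al, be]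
    field_simp
    try ring_nf
    try simp only [hw2, hw3, hw4, hw5, hw6, hw7, hw8]
    try ring
  · linear_combination (norm := skip) (be w (y * x)) * H01 + (be w (y * x)) * bw w y false * G11 + bw w x true * (al w (y * x)) * G00 + bw w x true * ((y * x)) * G11
    simp only [bw, Bool.false_eq_true, ↓reduceIte]
    simp only [al, be]
    field_simp
    try ring_nf
    try simp only [hw2, hw3, hw4, hw5, hw6, hw7, hw8]
    try ring
  · linear_combination (norm := skip) (be w (y * x)) * H10 + (be w (y * x)) * bw w y true * G00 + bw w x false * (al w (y * x)) * G11 + bw w x false * (1) * G00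
    simp only [bw, Bool.false_eq_true, ↓reduceIte]
    simp only [al, be]
    field_simp
    try ring_nf
    try simp only [hw2, hw3, hw4, hw5, hw6, hw7, hw8]
    try ring
  · linear_combination (norm := skip) (al w (y * x)) * H11 + (1) * H00 + (al w (y * x)) * bw w y true * G01 + (1) * bw w y false * G10 + bw w x true * (be w (y * x)) * G10
    simp only [bw, Bool.false_eq_true, ↓reduceIte]
    simp only [al, be]
    field_simp
    try ring_nf
    try simp only [hw2, hw3, hw4, hw5, hw6, hw7, hw8]
    try ring


theorem exch0 (w : K) (hw : w ^ 2 + w + 1 = 0) (h3 : (3 : K) ≠ 0) (x y : K) (B : List K)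
    (A : List K) : ∀ SA : List Bool, SA.length = A.length → ∀ (S : List Bool) (a b : Bool),
    RR w x y (fun a b => Psi0 w (A ++ y :: x :: B) (SA ++ b :: a :: S)) a b
      = (x - w * y) * Psi0 w (A ++ x :: y :: B) (SA ++ b :: a :: S) := by
  induction A with
  | nil =>
    intro SA hl S a b
    have : SA = [] := List.length_eq_zero_iff.1 (by simpa using hl)
    subst this
    simpa using refl0 w hw h3 x y B S a b
  | cons z A ih =>
    intro SA hl S a b
    cases SA with
    | nil => simp at hl
    | cons s SA =>
      simp only [List.cons_append, Psi0]
      exact cu_exch w hw h3 x y z B A _ _ ih s SA (by simpa using hl) S a b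

theorem exch1 (w : K) (hw : w ^ 2 + w + 1 = 0) (h3 : (3 : K) ≠ 0) (x y : K)
    (hx : 1 + w ^ 2 * x ≠ 0) (hy : 1 + w ^ 2 * y ≠ 0) (B : List K)
    (A : List K) : ∀ SA : List Bool, SA.length = A.length → ∀ (S : List Bool) (a b : Bool),
    RR w x y (fun a b => Psi1 w (A ++ y :: x :: B) (SA ++ b :: a :: S)) a b
      = (x - w * y) * Psi1 w (A ++ x :: y :: B) (SA ++ b :: a :: S) := by
  induction A with
  | nil =>
    intro SA hl S a b
    have : SA = [] := List.length_eq_zero_iff.1 (by simpa using hl)
    subst this
    simpa using refl1 w hw h3 x y hx hy B S a b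
  | cons z A ih =>
    intro SA hl S a b
    cases SA with
    | nil => simp at hl
    | cons s SA =>
      simp only [List.cons_append, Psi1, RR_add, RR_smul]
      rw [cu_exch w hw h3 x y z B A _ _ ih s SA (by simpa using hl) S a b,
        cu_exch w hw h3 x y z B A _ _ (exch0 w hw h3 x y B A) (!s) SA (by simpa using hl) S a b]
      ring

/-- partition function without nonzero diagonal entries -/
def Z0 (w : K) (xs : List K) : K := Psi0 w xs (List.replicate xs.length true)

/-- partition function with exactly one nonzero diagonal entry -/
def Z1 (w : K) (xs : List K) : K := Psi1 w xs (List.replicate xs.length true)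

theorem Z0_swap (w : K) (hw : w ^ 2 + w + 1 = 0) (h3 : (3 : K) ≠ 0) (x y : K)
    (h : x - w * y ≠ 0) (A B : List K) :
    Z0 w (A ++ y :: x :: B) = Z0 w (A ++ x :: y :: B) := by
  have := exch0 w hw h3 x y B A (List.replicate A.length true) (by simp)
    (List.replicate B.length true) true true
  simp only [RR] at this
  have h2 := mul_left_cancel₀ h this
  have e : ∀ u v : K, (List.replicate (A ++ u :: v :: B).length true)
      = List.replicate A.length true ++ true :: true :: List.replicate B.length true := by
    intro u v
    simp [List.replicate_add, List.replicate_succ]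
  rw [Z0, Z0, e, e, h2]

theorem Z1_swap (w : K) (hw : w ^ 2 + w + 1 = 0) (h3 : (3 : K) ≠ 0) (x y : K)
    (h : x - w * y ≠ 0) (hx : 1 + w ^ 2 * x ≠ 0) (hy : 1 + w ^ 2 * y ≠ 0) (A B : List K) :
    Z1 w (A ++ y :: x :: B) = Z1 w (A ++ x :: y :: B) := by
  have := exch1 w hw h3 x y hx hy B A (List.replicate A.length true) (by simp)
    (List.replicate B.length true) true true
  simp only [RR] at this
  have h2 := mul_left_cancel₀ h this
  have e : ∀ u v : K, (List.replicate (A ++ u :: v :: B).length true)
      = List.replicate A.length true ++ true :: true :: List.replicate B.length true := by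
    intro u v
    simp [List.replicate_add, List.replicate_succ]
  rw [Z1, Z1, e, e, h2]

theorem Z0_perm (w : K) (hw : w ^ 2 + w + 1 = 0) (h3 : (3 : K) ≠ 0) (P : K → Prop)
    (hP : ∀ x y, P x → P y → x - w * y ≠ 0) {l l' : List K} (h : l.Perm l') :
    (∀ x ∈ l, P x) → ∀ A, Z0 w (A ++ l) = Z0 w (A ++ l') := by
  induction h with
  | nil => intro _ A; rfl
  | cons x h ih =>
    intro hl A
    have := ih (fun z hz => hl z (List.mem_cons_of_mem _ hz)) (A ++ [x])
    simpa using this
  | swap x y l =>
    intro hl A
    exact Z0_swap w hw h3 x y (hP _ _ (hl x (by simp)) (hl y (by simp))) A l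
  | trans h1 h2 ih1 ih2 =>
    intro hl A
    rw [ih1 hl A, ih2 (fun z hz => hl z (h1.mem_iff.2 hz)) A]

theorem Z1_perm (w : K) (hw : w ^ 2 + w + 1 = 0) (h3 : (3 : K) ≠ 0) (P : K → Prop)
    (hP : ∀ x y, P x → P y → x - w * y ≠ 0) (hP' : ∀ x, P x → 1 + w ^ 2 * x ≠ 0)
    {l l' : List K} (h : l.Perm l') :
    (∀ x ∈ l, P x) → ∀ A, Z1 w (A ++ l) = Z1 w (A ++ l') := by
  induction h with
  | nil => intro _ A; rfl
  | cons x h ih =>
    intro hl A
    have := ih (fun z hz => hl z (List.mem_cons_of_mem _ hz)) (A ++ [x])
    simpa using this
  | swap x y l =>
    intro hl A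
    exact Z1_swap w hw h3 x y (hP _ _ (hl x (by simp)) (hl y (by simp)))
      (hP' _ (hl x (by simp))) (hP' _ (hl y (by simp))) A l
  | trans h1 h2 ih1 ih2 =>
    intro hl A
    rw [ih1 hl A, ih2 (fun z hz => hl z (h1.mem_iff.2 hz)) A]

end Pool.Agent.Y373.OS
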