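import Mathlib
import Pool.Agent.Y373.OS.Model

set_option autoImplicit false

namespace Pool.Agent.Y373.OS

open Finset

def iv (b : Bool) : ℤ := if b then 1 else 0

theorem iv_inj {a b : Bool} (h : iv a = iv b) : a = b := by
  cases a <;> cases b <;> simp [iv] at h ⊢

def val : List Bool → ℕ → ℤ
  | [], _ => 0
  | s :: S, i => if i = S.length then iv s else val S i

theorem val_ge (S : List Bool) (i : ℕ) (h : S.length ≤ i) : val S i = 0 := by
  induction S with
  | nil => rfl
  | cons s S ih =>
    simp only [List.length_cons] at h
    rw [val, if_neg (by omega), ih (by omega)]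

theorem val_lt (s : Bool) (S : List Bool) (i : ℕ) (h : i < S.length) : val (s :: S) i = val S i := by
  rw [val, if_neg (by omega)]

theorem val_len (s : Bool) (S : List Bool) : val (s :: S) S.length = iv s := by
  rw [val, if_pos rfl]

theorem val_01 (S : List Bool) (i : ℕ) : val S i = 0 ∨ val S i = 1 := by
  induction S with
  | nil => left; rfl
  | cons s S ih =>
    rw [val]
    split_ifs
    · cases s <;> simp [iv]
    · exact ih

theorem val_ext (S : List Bool) : ∀ L : List Bool, S.length = L.length →
    (∀ i < S.length, val S i = val L i) → S = L := by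
  induction S with
  | nil =>
    intro L hl _
    exact (List.length_eq_zero_iff.1 (by simpa using hl.symm)).symm
  | cons s S ih =>
    intro L hl h
    cases L with
    | nil => simp at hl
    | cons l L =>
      have hl' : S.length = L.length := by simpa using hl
      have h1 : s = l := by
        have := h S.length (by simp)
        rw [val_len, hl', val_len] at this
        exact iv_inj this
      have h2 : S = L := by
        apply ih L hl'
        intro i hi
        have := h i (by simp; omega)
        rwa [val_lt _ _ _ hi, val_lt _ _ _ (by omega)] at this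
      rw [h1, h2]

def lst (f : ℕ → ℤ) : ℕ → List Bool
  | 0 => []
  | n + 1 => decide (f n = 1) :: lst f n

theorem lst_length (f : ℕ → ℤ) (n : ℕ) : (lst f n).length = n := by
  induction n with
  | zero => rfl
  | succ n ih => rw [lst, List.length_cons, ih]

theorem val_lst (f : ℕ → ℤ) (n : ℕ) (h : ∀ i < n, f i = 0 ∨ f i = 1) :
    ∀ i < n, val (lst f n) i = f i := by
  induction n with
  | zero => intro i hi; omega
  | succ n ih =>
    intro i hi
    rw [lst]
    rcases Nat.lt_or_ge i n with h1 | h1
    · rw [val_lt _ _ _ (by rw [lst_length]; exact h1)]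
      exact ih (fun j hj => h j (by omega)) i h1
    · have : i = n := by omega
      subst this
      have e := val_len (decide (f i = 1)) (lst f i)
      rw [lst_length] at e
      rw [e]
      rcases h i (by omega) with h2 | h2 <;> simp [iv, h2]

def LL : ℕ → Finset (List Bool)
  | 0 => {[]}
  | n + 1 => (LL n).image (List.cons false) ∪ (LL n).image (List.cons true)

theorem mem_LL (n : ℕ) : ∀ L : List Bool, L ∈ LL n ↔ L.length = n := by
  induction n with
  | zero => intro L; simp [LL, List.length_eq_zero_iff]
  | succ n ih =>
    intro L
    rw [LL, mem_union, mem_image, mem_image]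
    constructor
    · rintro (⟨L', h, rfl⟩ | ⟨L', h, rfl⟩) <;> simp [(ih L').1 h]
    · intro h
      cases L with
      | nil => simp at h
      | cons l L =>
        have : L ∈ LL n := (ih L).2 (by simpa using h)
        cases l
        · exact Or.inl ⟨L, this, rfl⟩
        · exact Or.inr ⟨L, this, rfl⟩

theorem sum_LL_succ {M : Type*} [AddCommMonoid M] (n : ℕ) (f : List Bool → M) :
    ∑ L ∈ LL (n + 1), f L = ∑ L ∈ LL n, f (false :: L) + ∑ L ∈ LL n, f (true :: L) := by
  rw [LL, sum_union, sum_image, sum_image]
  · intro a _ b _ h; simpa using h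
  · intro a _ b _ h; simpa using h
  · rw [disjoint_left]
    intro L h1 h2
    obtain ⟨a, _, rfl⟩ := mem_image.1 h1
    obtain ⟨b, _, h⟩ := mem_image.1 h2
    simp at h

/-- the differences of the two state vectors form an admissible row with total `t` -/
def Vd (S L : List Bool) (t : Bool) : Prop :=
  (∀ k, (∑ j ∈ range k, (val S j - val L j)) = 0 ∨ (∑ j ∈ range k, (val S j - val L j)) = 1) ∧
    (∑ j ∈ range S.length, (val S j - val L j)) = iv t

theorem Vd_nil (t : Bool) : Vd [] [] t ↔ t = false := by
  simp only [Vd, val, sub_self, sum_const_zero, List.length_nil, range_zero, sum_empty]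
  cases t <;> simp [iv]

theorem Vd_cons (s l : Bool) (S L : List Bool) (h : S.length = L.length) (b : Bool) :
    Vd (s :: S) (l :: L) b ↔ ∃ b', Vd S L b' ∧ iv b = iv b' + iv s - iv l := by
  have e1 : ∀ k ≤ S.length, ∑ j ∈ range k, (val (s :: S) j - val (l :: L) j)
      = ∑ j ∈ range k, (val S j - val L j) := by
    intro k hk
    refine sum_congr rfl fun j hj => ?_
    rw [mem_range] at hj
    rw [val_lt _ _ _ (by omega), val_lt _ _ _ (by omega)]
  have e2 : ∀ k, S.length ≤ k → ∑ j ∈ range k, (val S j - val L j)
      = ∑ j ∈ range S.length, (val S j - val L j) := by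
    intro k hk
    rw [← Finset.sum_range_add_sum_Ico _ hk]
    have : ∑ j ∈ Ico S.length k, (val S j - val L j) = 0 := by
      refine sum_eq_zero fun j hj => ?_
      rw [mem_Ico] at hj
      rw [val_ge _ _ hj.1, val_ge _ _ (by omega), sub_zero]
    rw [this, add_zero]
  have e3 : ∀ k, S.length + 1 ≤ k → ∑ j ∈ range k, (val (s :: S) j - val (l :: L) j)
      = ∑ j ∈ range S.length, (val S j - val L j) + (iv s - iv l) := by
    intro k hk
    rw [← Finset.sum_range_add_sum_Ico _ hk, sum_range_succ, e1 _ le_rfl]
    have : ∑ j ∈ Ico (S.length + 1) k, (val (s :: S) j - val (l :: L) j) = 0 := by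
      refine sum_eq_zero fun j hj => ?_
      rw [mem_Ico] at hj
      rw [val_ge _ _ (by simp; omega), val_ge _ _ (by simp; omega), sub_zero]
    have h2 := val_len l L
    rw [← h] at h2
    rw [this, add_zero, val_len, h2]
  constructor
  · rintro ⟨h1, h2⟩
    rw [List.length_cons, e3 _ le_rfl] at h2
    have h3 := h1 S.length
    rw [e1 _ le_rfl] at h3
    refine ⟨decide ((∑ j ∈ range S.length, (val S j - val L j)) = 1), ⟨?_, ?_⟩, ?_⟩
    · intro k
      rcases Nat.lt_or_ge k S.length with hk | hk
      · rw [← e1 k hk.le]; exact h1 k
      · rw [e2 k hk]; exact h3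
    · rcases h3 with h3 | h3 <;> simp [iv, h3]
    · rcases h3 with h3 | h3 <;> rw [h3] at h2 ⊢ <;> simp [iv] at h2 ⊢ <;> linarith
  · rintro ⟨b', ⟨h1, h2⟩, h3⟩
    refine ⟨?_, ?_⟩
    · intro k
      rcases Nat.lt_or_ge S.length k with hk | hk
      · rw [e3 k hk, h2, ← add_sub_assoc, ← h3]
        cases b <;> simp [iv]
      · rw [e1 k hk]; exact h1 k
    · rw [List.length_cons, e3 _ le_rfl, h2, h3]; ring

theorem al_one (w : ℂ) : al w 1 = 1 := by simp only [al]; ring
theorem be_one (w : ℂ) : be w 1 = 1 := by simp only [be]; ring

open Classical in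
theorem cu_one (w : ℂ) (n : ℕ) : ∀ (F : List Bool → ℂ) (b : Bool) (S : List Bool), S.length = n →
    cu w 1 (List.replicate n 1) F b S = ∑ L ∈ LL n, if Vd S L b then F L else 0 := by
  induction n with
  | zero =>
    intro F b S h
    have : S = [] := List.length_eq_zero_iff.1 h
    subst this
    rw [LL, sum_singleton]
    cases b <;> simp [cu, Vd_nil]
  | succ n ih =>
    intro F b S h
    cases S with
    | nil => simp at h
    | cons s S =>
      have h' : S.length = n := by simpa using h
      rw [List.replicate_succ, sum_LL_succ]
      have key : ∀ (l b' : Bool) (L : List Bool), L ∈ LL n → (∀ c, iv b = iv c + iv s - iv l ↔ c = b') →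
          (Vd (s :: S) (l :: L) b ↔ Vd S L b') := by
        intro l b' L hL hc
        rw [Vd_cons s l S L (by rw [h', (mem_LL n L).1 hL])]
        constructor
        · rintro ⟨c, h1, h2⟩
          rwa [(hc c).1 h2] at h1
        · intro h1
          exact ⟨b', h1, (hc b').2 rfl⟩
      have keyF : ∀ (l : Bool) (L : List Bool), L ∈ LL n → (∀ c, ¬ (iv b = iv c + iv s - iv l)) →
          (¬ Vd (s :: S) (l :: L) b) := by
        intro l L hL hc
        rw [Vd_cons s l S L (by rw [h', (mem_LL n L).1 hL])]
        rintro ⟨c, h1, h2⟩
        exact hc c h2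
      cases b <;> cases s <;> simp only [cu, one_mul, mul_one, al_one, be_one]
      · rw [ih _ _ _ h', ih _ _ _ h']
        congr 1
        · refine sum_congr rfl fun L hL => ?_
          rw [if_congr (key false false L hL (by intro c; cases c <;> simp [iv])) rfl rfl]
        · refine sum_congr rfl fun L hL => ?_
          rw [if_congr (key true true L hL (by intro c; cases c <;> simp [iv])) rfl rfl]
      · rw [ih _ _ _ h', sum_eq_zero (s := LL n) (f := fun L => if Vd (true :: S) (false :: L) false then F (false :: L) else 0), zero_add]
        · refine sum_congr rfl fun L hL => ?_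
          rw [if_congr (key true false L hL (by intro c; cases c <;> simp [iv])) rfl rfl]
        · intro L hL
          rw [if_neg (keyF false L hL (by intro c; cases c <;> simp [iv]))]
      · rw [ih _ _ _ h', sum_eq_zero (s := LL n) (f := fun L => if Vd (false :: S) (true :: L) true then F (true :: L) else 0), add_zero]
        · refine sum_congr rfl fun L hL => ?_
          rw [if_congr (key false true L hL (by intro c; cases c <;> simp [iv])) rfl rfl]
        · intro L hL
          rw [if_neg (keyF true L hL (by intro c; cases c <;> simp [iv]))]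
      · rw [ih _ _ _ h', ih _ _ _ h', add_comm]
        congr 1
        · refine sum_congr rfl fun L hL => ?_
          rw [if_congr (key false false L hL (by intro c; cases c <;> simp [iv])) rfl rfl]
        · refine sum_congr rfl fun L hL => ?_
          rw [if_congr (key true true L hL (by intro c; cases c <;> simp [iv])) rfl rfl]

end Pool.Agent.Y373.OS
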