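import Mathlib
import Pool.Agent.Y373.OS.Count1

set_option autoImplicit false

namespace Pool.Agent.Y373.OS

open Finset

/-- open symmetric matrices of size `N` with row sums given by `S`, `δ` nonzero diagonal entries -/
def QQ (N δ : ℕ) (S : List Bool) (A : ℕ → ℕ → ℤ) : Prop :=
  (∀ i j, (N ≤ i ∨ N ≤ j) → A i j = 0) ∧ (∀ i j, A i j = A j i) ∧
  (∀ i k, (∑ j ∈ range k, A i j) = 0 ∨ (∑ j ∈ range k, A i j) = 1) ∧
  (∀ i < N, (∑ j ∈ range N, A i j) = val S i) ∧
  ((range N).filter (fun i => A i i ≠ 0)).card = δ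

def restr (N : ℕ) (A : ℕ → ℕ → ℤ) (i j : ℕ) : ℤ := if i < N ∧ j < N then A i j else 0

def ext (N : ℕ) (S L : List Bool) (D : ℤ) (A : ℕ → ℕ → ℤ) (i j : ℕ) : ℤ :=
  A i j + (if i = N then val S j - val L j else 0) + (if j = N then val S i - val L i else 0)
    + (if i = N ∧ j = N then D else 0)

theorem sum_restr (N k i : ℕ) (A : ℕ → ℕ → ℤ) (hi : i < N) :
    ∑ j ∈ range k, restr N A i j = ∑ j ∈ range (min k N), A i j := by
  rcases Nat.le_total k N with h | h
  · rw [min_eq_left h]
    refine sum_congr rfl fun j hj => ?_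
    rw [mem_range] at hj
    rw [restr, if_pos ⟨hi, by omega⟩]
  · rw [min_eq_right h, ← Finset.sum_range_add_sum_Ico _ h]
    have : ∑ j ∈ Ico N k, restr N A i j = 0 := by
      refine sum_eq_zero fun j hj => ?_
      rw [mem_Ico] at hj
      rw [restr, if_neg (by omega)]
    rw [this, add_zero]
    refine sum_congr rfl fun j hj => ?_
    rw [mem_range] at hj
    rw [restr, if_pos ⟨hi, hj⟩]

theorem filter_succ (N : ℕ) (A : ℕ → ℕ → ℤ) :
    ((range (N + 1)).filter (fun i => A i i ≠ 0)).card
      = ((range N).filter (fun i => A i i ≠ 0)).card + if A N N ≠ 0 then 1 else 0 := by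
  rw [range_add_one, filter_insert]
  split_ifs with h
  · rw [card_insert_of_notMem (by simp)]
  · rfl

theorem fwd (N δ : ℕ) (r t : Bool) (S : List Bool) (hS : S.length = N) (A : ℕ → ℕ → ℤ)
    (h : QQ (N + 1) (δ + if r = t then 0 else 1) (r :: S) A) (hD : A N N = iv r - iv t) :
    Vd S (lst (fun i => ∑ j ∈ range N, A i j) N) t ∧
      QQ N δ (lst (fun i => ∑ j ∈ range N, A i j) N) (restr N A) := by
  obtain ⟨h1, h2, h3, h4, h5⟩ := h
  have hv := val_lst (fun i => ∑ j ∈ range N, A i j) N (fun i _ => h3 i N)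
  set L := lst (fun i => ∑ j ∈ range N, A i j) N with hL
  have hLl : L.length = N := lst_length _ _
  have ha : ∀ j < N, val S j - val L j = A N j := by
    intro j hj
    have e := h4 j (by omega)
    rw [sum_range_succ, val_lt _ _ _ (by omega)] at e
    rw [hv j hj, ← e, h2 N j]; ring
  have hs : ∀ k ≤ N, ∑ j ∈ range k, (val S j - val L j) = ∑ j ∈ range k, A N j := by
    intro k hk
    exact sum_congr rfl fun j hj => ha j (by rw [mem_range] at hj; omega)
  refine ⟨⟨?_, ?_⟩, ?_, ?_, ?_, ?_, ?_⟩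
  · intro k
    rcases Nat.le_total k N with hk | hk
    · rw [hs k hk]; exact h3 N k
    · rw [← Finset.sum_range_add_sum_Ico _ hk, hs N le_rfl]
      have : ∑ j ∈ Ico N k, (val S j - val L j) = 0 := by
        refine sum_eq_zero fun j hj => ?_
        rw [mem_Ico] at hj
        rw [val_ge _ _ (by omega), val_ge _ _ (by omega), sub_zero]
      rw [this, add_zero]
      exact h3 N N
  · rw [hS, hs N le_rfl]
    have e := h4 N (by omega)
    rw [sum_range_succ, hD] at e
    have h6 := val_len r S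
    rw [hS] at h6
    rw [h6] at e
    linarith
  · intro i j hij
    rw [restr, if_neg (by omega)]
  · intro i j
    rw [restr, restr, h2 i j]
    simp only [and_comm]
  · intro i k
    rcases Nat.lt_or_ge i N with hi | hi
    · rw [sum_restr N k i A hi]; exact h3 i _
    · left
      exact sum_eq_zero fun j _ => by rw [restr, if_neg (by omega)]
  · intro i hi
    rw [sum_restr N N i A hi, min_self, hv i hi]
  · have e : ((range N).filter (fun i => restr N A i i ≠ 0)) = ((range N).filter (fun i => A i i ≠ 0)) := by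
      refine filter_congr fun i hi => ?_
      rw [mem_range] at hi
      rw [restr, if_pos ⟨hi, hi⟩]
    rw [e]
    rw [filter_succ, hD] at h5
    cases r <;> cases t <;> simp [iv] at h5 ⊢ <;> omega

theorem bwd (N δ : ℕ) (r t : Bool) (S L : List Bool) (hS : S.length = N) (hL : L.length = N)
    (A : ℕ → ℕ → ℤ) (hV : Vd S L t) (h : QQ N δ L A) :
    QQ (N + 1) (δ + if r = t then 0 else 1) (r :: S) (ext N S L (iv r - iv t) A) ∧
      ext N S L (iv r - iv t) A N N = iv r - iv t := by
  obtain ⟨h1, h2, h3, h4, h5⟩ := h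
  obtain ⟨v1, v2⟩ := hV
  have hN : ext N S L (iv r - iv t) A N N = iv r - iv t := by
    rw [ext, h1 N N (Or.inl le_rfl), val_ge S N (by omega), val_ge L N (by omega)]
    simp
  have hrow : ∀ i < N, ∀ k ≤ N, ∑ j ∈ range k, ext N S L (iv r - iv t) A i j = ∑ j ∈ range k, A i j := by
    intro i hi k hk
    refine sum_congr rfl fun j hj => ?_
    rw [mem_range] at hj
    rw [ext, if_neg (by omega), if_neg (by omega), if_neg (by omega)]; ring
  have hent : ∀ i j, (N + 1 ≤ i ∨ N + 1 ≤ j) → ext N S L (iv r - iv t) A i j = 0 := by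
    intro i j hij
    rw [ext, h1 i j (by omega)]
    rcases hij with hi | hj
    · rw [if_neg (by omega), if_neg (by omega : ¬ (i = N ∧ j = N)), val_ge S i (by omega), val_ge L i (by omega)]
      simp
    · rw [if_neg (by omega : ¬ (j = N)), if_neg (by omega : ¬ (i = N ∧ j = N)), val_ge S j (by omega), val_ge L j (by omega)]
      simp
  have hlast : ∀ i < N, ext N S L (iv r - iv t) A i N = val S i - val L i := by
    intro i hi
    rw [ext, h1 i N (Or.inr le_rfl), if_neg (by omega), if_pos rfl, if_neg (by omega)]; ring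
  have hbot : ∀ j < N, ext N S L (iv r - iv t) A N j = val S j - val L j := by
    intro j hj
    rw [ext, h1 N j (Or.inl le_rfl), if_pos rfl, if_neg (by omega), if_neg (by omega)]; ring
  have htail : ∀ i k, N + 1 ≤ k → ∑ j ∈ range k, ext N S L (iv r - iv t) A i j
      = ∑ j ∈ range (N + 1), ext N S L (iv r - iv t) A i j := by
    intro i k hk
    rw [← Finset.sum_range_add_sum_Ico _ hk]
    have : ∑ j ∈ Ico (N + 1) k, ext N S L (iv r - iv t) A i j = 0 := by
      refine sum_eq_zero fun j hj => ?_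
      rw [mem_Ico] at hj
      exact hent i j (Or.inr hj.1)
    rw [this, add_zero]
  have hfull : ∀ i < N, ∑ j ∈ range (N + 1), ext N S L (iv r - iv t) A i j = val S i := by
    intro i hi
    rw [sum_range_succ, hrow i hi N le_rfl, h4 i hi, hlast i hi]; ring
  have hbsum : ∀ k ≤ N, ∑ j ∈ range k, ext N S L (iv r - iv t) A N j = ∑ j ∈ range k, (val S j - val L j) := by
    intro k hk
    refine sum_congr rfl fun j hj => ?_
    rw [mem_range] at hj
    exact hbot j (by omega)
  have hbfull : ∑ j ∈ range (N + 1), ext N S L (iv r - iv t) A N j = iv r := by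
    rw [sum_range_succ, hbsum N le_rfl, hN]
    rw [hS] at v2
    rw [v2]; ring
  refine ⟨⟨hent, ?_, ?_, ?_, ?_⟩, hN⟩
  · intro i j
    rw [ext, ext, h2 i j]
    simp only [and_comm]
    ring
  · intro i k
    rcases Nat.lt_trichotomy i N with hi | hi | hi
    · rcases Nat.lt_or_ge N k with hk | hk
      · rw [htail i k hk, hfull i hi]; exact val_01 S i
      · rw [hrow i hi k hk]; exact h3 i k
    · subst hi
      rcases Nat.lt_or_ge i k with hk | hk
      · rw [htail i k hk, hbfull]; cases r <;> simp [iv]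
      · rw [hbsum k hk]; exact v1 k
    · left
      exact sum_eq_zero fun j _ => hent i j (Or.inl hi)
  · intro i hi
    rcases Nat.lt_or_ge i N with h' | h'
    · rw [hfull i h', val_lt _ _ _ (by omega)]
    · have : i = N := by omega
      subst this
      have h6 := val_len r S
      rw [hS] at h6
      rw [hbfull, h6]
  · rw [filter_succ, hN]
    have e : ((range N).filter (fun i => ext N S L (iv r - iv t) A i i ≠ 0)) = ((range N).filter (fun i => A i i ≠ 0)) := by
      refine filter_congr fun i hi => ?_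
      rw [mem_range] at hi
      rw [ext, if_neg (by omega), if_neg (by omega)]; simp
    rw [e, h5]
    cases r <;> cases t <;> simp [iv]

theorem restr_ext (N δ : ℕ) (r t : Bool) (S L : List Bool) (A : ℕ → ℕ → ℤ) (h : QQ N δ L A) :
    restr N (ext N S L (iv r - iv t) A) = A := by
  funext i j
  rw [restr]
  split_ifs with hij
  · rw [ext, if_neg (by omega), if_neg (by omega), if_neg (by omega)]; ring
  · rw [h.1 i j (by omega)]

theorem lst_ext (N δ : ℕ) (r t : Bool) (S L : List Bool) (hL : L.length = N)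
    (A : ℕ → ℕ → ℤ) (h : QQ N δ L A) :
    lst (fun i => ∑ j ∈ range N, ext N S L (iv r - iv t) A i j) N = L := by
  have hrow : ∀ i < N, ∑ j ∈ range N, ext N S L (iv r - iv t) A i j = ∑ j ∈ range N, A i j := by
    intro i hi
    refine sum_congr rfl fun j hj => ?_
    rw [mem_range] at hj
    rw [ext, if_neg (by omega), if_neg (by omega), if_neg (by omega)]; ring
  refine val_ext _ _ (by rw [lst_length, hL]) ?_
  intro i hi
  rw [lst_length] at hi
  rw [val_lst _ N _ i hi]
  · rw [hrow i hi, h.2.2.2.1 i hi]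
  · intro i hi
    rw [hrow i hi]; exact h.2.2.1 i N

theorem ext_restr (N δ : ℕ) (r t : Bool) (S : List Bool) (hS : S.length = N) (A : ℕ → ℕ → ℤ)
    (h : QQ (N + 1) δ (r :: S) A) (hD : A N N = iv r - iv t) :
    ext N S (lst (fun i => ∑ j ∈ range N, A i j) N) (iv r - iv t) (restr N A) = A := by
  obtain ⟨h1, h2, h3, h4, h5⟩ := h
  have hv := val_lst (fun i => ∑ j ∈ range N, A i j) N (fun i _ => h3 i N)
  set L := lst (fun i => ∑ j ∈ range N, A i j) N with hL
  have hLl : L.length = N := lst_length _ _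
  have ha : ∀ j < N, val S j - val L j = A N j := by
    intro j hj
    have e := h4 j (by omega)
    rw [sum_range_succ, val_lt _ _ _ (by omega)] at e
    rw [hv j hj, ← e, h2 N j]; ring
  funext i j
  rw [ext, restr]
  rcases Nat.lt_trichotomy i N with hi | hi | hi
  · rcases Nat.lt_trichotomy j N with hj | hj | hj
    · rw [if_pos ⟨hi, hj⟩, if_neg (by omega), if_neg (by omega), if_neg (by omega)]; ring
    · subst hj
      rw [if_neg (by omega), if_neg (by omega), if_pos rfl, if_neg (by omega), ha i hi, h2 i j]; ring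
    · rw [if_neg (by omega), if_neg (by omega), if_neg (by omega), if_neg (by omega),
        h1 i j (by omega)]; ring
  · subst hi
    rcases Nat.lt_trichotomy j i with hj | hj | hj
    · rw [if_neg (by omega), if_pos rfl, if_neg (by omega), if_neg (by omega), ha j hj]; ring
    · subst hj
      rw [if_neg (by omega), if_pos rfl, if_pos ⟨rfl, rfl⟩, val_ge S j (by omega),
        val_ge L j (by omega), hD]; ring
    · rw [if_neg (by omega), if_pos rfl, if_neg (by omega), if_neg (by omega),
        h1 i j (by omega), val_ge S j (by omega), val_ge L j (by omega)]; ring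
  · rw [if_neg (by omega), if_neg (by omega), if_neg (by omega : ¬ (i = N ∧ j = N)),
      h1 i j (by omega), val_ge S i (by omega), val_ge L i (by omega)]; simp

/-- the bijection -/
def eqv (N δ : ℕ) (r t : Bool) (S : List Bool) (hS : S.length = N) :
    {A : ℕ → ℕ → ℤ // QQ (N + 1) (δ + if r = t then 0 else 1) (r :: S) A ∧ A N N = iv r - iv t} ≃
      {p : List Bool × (ℕ → ℕ → ℤ) // p.1 ∈ LL N ∧ (Vd S p.1 t ∧ QQ N δ p.1 p.2)} where
  toFun A := ⟨(lst (fun i => ∑ j ∈ range N, A.1 i j) N, restr N A.1),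
    (mem_LL _ _).2 (lst_length _ _), fwd N δ r t S hS A.1 A.2.1 A.2.2⟩
  invFun p := ⟨ext N S p.1.1 (iv r - iv t) p.1.2, bwd N δ r t S p.1.1 hS ((mem_LL _ _).1 p.2.1)
    p.1.2 p.2.2.1 p.2.2.2⟩
  left_inv A := by
    apply Subtype.ext
    exact ext_restr N _ r t S hS A.1 A.2.1 A.2.2
  right_inv p := by
    apply Subtype.ext
    apply Prod.ext
    · exact lst_ext N δ r t S p.1.1 ((mem_LL _ _).1 p.2.1) p.1.2 p.2.2.2
    · exact restr_ext N δ r t S p.1.1 p.1.2 p.2.2.2

def sigEqv {α β : Type*} (s : Finset α) (R : α → β → Prop) :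
    {p : α × β // p.1 ∈ s ∧ R p.1 p.2} ≃ Σ a : s, {b : β // R a b} where
  toFun p := ⟨⟨p.1.1, p.2.1⟩, ⟨p.1.2, p.2.2⟩⟩
  invFun q := ⟨(q.1.1, q.2.1), q.1.2, q.2.2⟩
  left_inv _ := rfl
  right_inv _ := rfl

theorem card_pairs {α β : Type*} (s : Finset α) (R : α → β → Prop)
    (hf : ∀ a ∈ s, Finite {b : β // R a b}) :
    Finite {p : α × β // p.1 ∈ s ∧ R p.1 p.2} ∧
    Nat.card {p : α × β // p.1 ∈ s ∧ R p.1 p.2} = ∑ a ∈ s, Nat.card {b : β // R a b} := by
  have : ∀ a : s, Finite {b : β // R a b} := fun a => hf a.1 a.2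
  constructor
  · exact Finite.of_equiv _ (sigEqv s R).symm
  · rw [Nat.card_congr (sigEqv s R), Nat.card_sigma]
    exact Finset.sum_coe_sort s (fun a => Nat.card {b : β // R a b})

open Classical in
theorem card_step (N δ : ℕ) (r t : Bool) (S : List Bool) (hS : S.length = N)
    (hf : ∀ L : List Bool, L.length = N → Finite {A : ℕ → ℕ → ℤ // QQ N δ L A}) :
    Finite {A : ℕ → ℕ → ℤ // QQ (N + 1) (δ + if r = t then 0 else 1) (r :: S) A ∧
      A N N = iv r - iv t} ∧
    Nat.card {A : ℕ → ℕ → ℤ // QQ (N + 1) (δ + if r = t then 0 else 1) (r :: S) A ∧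
      A N N = iv r - iv t} = ∑ L ∈ LL N, if Vd S L t then Nat.card {A : ℕ → ℕ → ℤ // QQ N δ L A} else 0 := by
  have h1 : ∀ L ∈ LL N, Finite {A : ℕ → ℕ → ℤ // Vd S L t ∧ QQ N δ L A} := by
    intro L hL
    have := hf L ((mem_LL _ _).1 hL)
    exact Finite.of_injective (fun A : {A : ℕ → ℕ → ℤ // Vd S L t ∧ QQ N δ L A} =>
      (⟨A.1, A.2.2⟩ : {A : ℕ → ℕ → ℤ // QQ N δ L A}))
      (fun a b h => by
        have h' := congrArg Subtype.val h
        exact Subtype.ext h')
  have h2 := card_pairs (LL N) (fun (L : List Bool) (A : ℕ → ℕ → ℤ) => Vd S L t ∧ QQ N δ L A) h1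
  have := h2.1
  constructor
  · exact Finite.of_equiv _ (eqv N δ r t S hS).symm
  · rw [Nat.card_congr (eqv N δ r t S hS), h2.2]
    refine sum_congr rfl fun L hL => ?_
    split_ifs with hV
    · refine Nat.card_congr (Equiv.subtypeEquivRight fun A => ?_)
      simp [hV]
    · have : IsEmpty {A : ℕ → ℕ → ℤ // Vd S L t ∧ QQ N δ L A} := ⟨fun A => hV A.2.1⟩
      exact Nat.card_of_isEmpty

end Pool.Agent.Y373.OS
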