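import Mathlib
import Pool.Agent.Y373.OS.Count2

set_option autoImplicit false

namespace Pool.Agent.Y373.OS

open Finset

theorem QQ_corner (N δ : ℕ) (r : Bool) (S : List Bool) (hS : S.length = N) (A : ℕ → ℕ → ℤ)
    (h : QQ (N + 1) δ (r :: S) A) :
    A N N = iv r - iv r ∨ (A N N = iv r - iv (!r) ∧ 1 ≤ δ) := by
  obtain ⟨h1, h2, h3, h4, h5⟩ := h
  have e := h4 N (by omega)
  have h6 := val_len r S
  rw [hS] at h6
  rw [sum_range_succ, h6] at e
  rw [filter_succ] at h5
  by_cases h0 : A N N = 0
  · left; rw [h0]; ring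
  · right
    rw [if_pos h0] at h5
    refine ⟨?_, by omega⟩
    rcases h3 N N with h7 | h7 <;> rw [h7] at e <;> cases r <;> simp [iv] at e ⊢ <;> omega

theorem fin_QQ (N : ℕ) : ∀ (δ : ℕ) (S : List Bool), S.length = N →
    Finite {A : ℕ → ℕ → ℤ // QQ N δ S A} := by
  induction N with
  | zero =>
    intro δ S hS
    have : Subsingleton {A : ℕ → ℕ → ℤ // QQ 0 δ S A} := by
      constructor
      intro a b
      apply Subtype.ext
      funext i j
      rw [a.2.1 i j (Or.inl (Nat.zero_le _)), b.2.1 i j (Or.inl (Nat.zero_le _))]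
    exact Finite.of_subsingleton
  | succ N ih =>
    intro δ S hS
    cases S with
    | nil => simp at hS
    | cons r S =>
      have hS' : S.length = N := by simpa using hS
      have f1 := (card_step N δ r r S hS' (ih δ)).1
      have f2 := (card_step N (δ - 1) r (!r) S hS' (ih (δ - 1))).1
      have g1 : Set.Finite {A : ℕ → ℕ → ℤ | QQ (N + 1) (δ + if r = r then 0 else 1) (r :: S) A ∧
        A N N = iv r - iv r} := Set.finite_coe_iff.1 f1
      have g2 : Set.Finite {A : ℕ → ℕ → ℤ | QQ (N + 1) (δ - 1 + if r = (!r) then 0 else 1) (r :: S) A ∧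
        A N N = iv r - iv (!r)} := Set.finite_coe_iff.1 f2
      have g3 : Set.Finite {A : ℕ → ℕ → ℤ | QQ (N + 1) δ (r :: S) A} := by
        refine (g1.union g2).subset ?_
        intro A hA
        have hA' : QQ (N + 1) δ (r :: S) A := hA
        rcases QQ_corner N δ r S hS' A hA' with h | ⟨h, hd⟩
        · left
          exact ⟨by simpa using hA', h⟩
        · right
          refine ⟨?_, h⟩
          have : δ - 1 + (if r = (!r) then 0 else 1) = δ := by
            cases r <;> simp <;> omega
          rw [this]; exact hA'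
      exact Set.finite_coe_iff.2 g3

open Classical in
theorem card_succ_zero (N : ℕ) (r : Bool) (S : List Bool) (hS : S.length = N) :
    Nat.card {A : ℕ → ℕ → ℤ // QQ (N + 1) 0 (r :: S) A}
      = ∑ L ∈ LL N, if Vd S L r then Nat.card {A : ℕ → ℕ → ℤ // QQ N 0 L A} else 0 := by
  rw [← (card_step N 0 r r S hS (fin_QQ N 0)).2]
  refine Nat.card_congr (Equiv.subtypeEquivRight fun A => ?_)
  constructor
  · intro h
    rcases QQ_corner N 0 r S hS A h with h1 | ⟨h1, h2⟩
    · exact ⟨by simpa using h, h1⟩
    · omega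
  · rintro ⟨h, _⟩
    simpa using h

open Classical in
theorem card_succ_one (N : ℕ) (r : Bool) (S : List Bool) (hS : S.length = N) :
    Nat.card {A : ℕ → ℕ → ℤ // QQ (N + 1) 1 (r :: S) A}
      = (∑ L ∈ LL N, if Vd S L r then Nat.card {A : ℕ → ℕ → ℤ // QQ N 1 L A} else 0) +
        ∑ L ∈ LL N, if Vd S L (!r) then Nat.card {A : ℕ → ℕ → ℤ // QQ N 0 L A} else 0 := by
  have c1 := card_step N 1 r r S hS (fin_QQ N 1)
  have c2 := card_step N 0 r (!r) S hS (fin_QQ N 0)
  rw [← c1.2, ← c2.2]
  have i1 := c1.1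
  have i2 := c2.1
  rw [← Nat.card_sum]
  have hd : Disjoint (fun A : ℕ → ℕ → ℤ => QQ (N + 1) (1 + if r = r then 0 else 1) (r :: S) A ∧
      A N N = iv r - iv r) (fun A : ℕ → ℕ → ℤ => QQ (N + 1) (0 + if r = (!r) then 0 else 1) (r :: S) A ∧
      A N N = iv r - iv (!r)) := by
    rw [Pi.disjoint_iff]
    intro A
    rw [Prop.disjoint_iff]
    by_contra h
    simp only [not_or, not_not] at h
    have h1 := h.1.2
    have h2 := h.2.2
    rw [h1] at h2
    cases r <;> simp [iv] at h2
  rw [← Nat.card_congr (subtypeOrEquiv _ _ hd)]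
  refine Nat.card_congr (Equiv.subtypeEquivRight fun A => ?_)
  have e1 : 1 + (if r = r then 0 else 1) = 1 := by simp
  have e2 : 0 + (if r = (!r) then 0 else 1) = 1 := by cases r <;> simp
  rw [e1, e2]
  constructor
  · intro h
    rcases QQ_corner N 1 r S hS A h with h1 | ⟨h1, h2⟩
    · exact Or.inl ⟨h, h1⟩
    · exact Or.inr ⟨h, h1⟩
  · rintro (⟨h, _⟩ | ⟨h, _⟩) <;> exact h

theorem Psi0_card (w : ℂ) (N : ℕ) : ∀ S : List Bool, S.length = N →
    Psi0 w (List.replicate N 1) S = (Nat.card {A : ℕ → ℕ → ℤ // QQ N 0 S A} : ℂ) := by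
  induction N with
  | zero =>
    intro S hS
    have : S = [] := List.length_eq_zero_iff.1 hS
    subst this
    have hu : Nat.card {A : ℕ → ℕ → ℤ // QQ 0 0 [] A} = 1 := by
      rw [Nat.card_eq_one_iff_unique]
      constructor
      · constructor
        intro a b
        apply Subtype.ext
        funext i j
        rw [a.2.1 i j (Or.inl (Nat.zero_le _)), b.2.1 i j (Or.inl (Nat.zero_le _))]
      · exact ⟨⟨fun _ _ => 0, by simp [QQ]⟩⟩
    rw [hu]
    simp [Psi0]
  | succ N ih =>
    intro S hS
    cases S with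
    | nil => simp at hS
    | cons r S =>
      have hS' : S.length = N := by simpa using hS
      rw [List.replicate_succ, Psi0, cu_one w N _ r S hS', card_succ_zero N r S hS']
      push_cast
      refine sum_congr rfl fun L hL => ?_
      split_ifs
      · rw [ih L ((mem_LL _ _).1 hL)]
      · rfl

theorem bw_one (w : ℂ) (hw : w ^ 2 + w + 1 = 0) (r : Bool) : bw w 1 r = 1 := by
  have h : 1 + w ^ 2 * 1 = -w := by linear_combination hw
  have hw0 : w ≠ 0 := by rintro rfl; simp at hw
  cases r <;> simp only [bw, h, Bool.false_eq_true, if_true, if_false] <;> field_simp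

theorem Psi1_card (w : ℂ) (hw : w ^ 2 + w + 1 = 0) (N : ℕ) : ∀ S : List Bool, S.length = N →
    Psi1 w (List.replicate N 1) S = (Nat.card {A : ℕ → ℕ → ℤ // QQ N 1 S A} : ℂ) := by
  induction N with
  | zero =>
    intro S hS
    have : S = [] := List.length_eq_zero_iff.1 hS
    subst this
    have : IsEmpty {A : ℕ → ℕ → ℤ // QQ 0 1 [] A} := by
      constructor
      rintro ⟨A, h⟩
      have := h.2.2.2.2
      simp at this
    rw [Nat.card_of_isEmpty]
    simp [Psi1]
  | succ N ih =>
    intro S hS
    cases S with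
    | nil => simp at hS
    | cons r S =>
      have hS' : S.length = N := by simpa using hS
      rw [List.replicate_succ, Psi1, cu_one w N _ r S hS', cu_one w N _ (!r) S hS',
        card_succ_one N r S hS', bw_one w hw, one_mul]
      push_cast
      congr 1
      · refine sum_congr rfl fun L hL => ?_
        split_ifs
        · rw [ih L ((mem_LL _ _).1 hL)]
        · rfl
      · refine sum_congr rfl fun L hL => ?_
        split_ifs
        · rw [Psi0_card w N L ((mem_LL _ _).1 hL)]
        · rfl

theorem Z1_card (w : ℂ) (hw : w ^ 2 + w + 1 = 0) (N : ℕ) :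
    Z1 w (List.replicate N 1)
      = (Nat.card {A : ℕ → ℕ → ℤ // QQ N 1 (List.replicate N true) A} : ℂ) := by
  rw [Z1, List.length_replicate]
  exact Psi1_card w hw N _ (List.length_replicate ..)

end Pool.Agent.Y373.OS
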