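import Mathlib
import Pool.Agent.Y373.OS.Count3

set_option autoImplicit false

namespace Pool.Agent.Y373.OS

open Finset

theorem val_replicate (N : ℕ) : ∀ i < N, val (List.replicate N true) i = 1 := by
  induction N with
  | zero => intro i hi; omega
  | succ N ih =>
    intro i hi
    rw [List.replicate_succ]
    rcases Nat.lt_or_ge i N with h | h
    · rw [val_lt _ _ _ (by simpa using h)]; exact ih i h
    · have : i = N := by omega
      subst this
      have := val_len true (List.replicate i true)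
      rw [List.length_replicate] at this
      rw [this]; rfl

theorem sum_Iic_fin (N : ℕ) (f : ℕ → ℤ) (k : Fin N) :
    ∑ j ∈ Iic k, f (j : ℕ) = ∑ j ∈ range ((k : ℕ) + 1), f j := by
  have h : (Iic k).map Fin.valEmbedding = range ((k : ℕ) + 1) := by
    rw [Fin.map_valEmbedding_Iic]
    ext j; simp [Nat.lt_succ_iff]
  rw [← h, sum_map]
  rfl

theorem parity (N : ℕ) (B : ℕ → ℕ → ℤ) (hs : ∀ i j, B i j = B j i) (hd : ∀ i < N, B i i = 0)
    (hr : ∀ i < N, ∑ j ∈ range N, B i j = 1) : Even N := by
  have h1 : ∑ p ∈ range N ×ˢ range N, ((B p.1 p.2 : ℤ) : ZMod 2) = 0 := by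
    refine Finset.sum_involution (fun p _ => (p.2, p.1)) ?_ ?_ ?_ ?_
    · intro p _
      rw [hs p.2 p.1]
      exact CharTwo.add_self_eq_zero _
    · intro p hp h0 he
      apply h0
      have e : p.2 = p.1 := congrArg Prod.fst he
      rw [e, hd p.1 (mem_range.1 (mem_product.1 hp).1)]
      simp
    · intro p hp
      rw [mem_product] at hp ⊢
      exact ⟨hp.2, hp.1⟩
    · intro p _
      rfl
  rw [sum_product] at h1
  have h2 : ∑ i ∈ range N, ∑ j ∈ range N, ((B i j : ℤ) : ZMod 2) = (N : ZMod 2) := by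
    have : ∀ i ∈ range N, ∑ j ∈ range N, ((B i j : ℤ) : ZMod 2) = 1 := by
      intro i hi
      rw [← Int.cast_sum, hr i (mem_range.1 hi)]; simp
    rw [sum_congr rfl this]; simp
  rw [h2] at h1
  exact (ZMod.natCast_eq_zero_iff_even).1 h1

/-- the defining conditions of the frozen statement -/
def Fz (N : ℕ) (A : Matrix (Fin N) (Fin N) ℤ) : Prop :=
  (∀ i j, A i j = -1 ∨ A i j = 0 ∨ A i j = 1) ∧
  (∀ i k, (∑ j ∈ Finset.Iic k, A i j) = 0 ∨ (∑ j ∈ Finset.Iic k, A i j) = 1) ∧
  (∀ i, (∑ j, A i j) = 1) ∧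
  (∀ j k, (∑ i ∈ Finset.Iic k, A i j) = 0 ∨ (∑ i ∈ Finset.Iic k, A i j) = 1) ∧
  (∀ j, (∑ i, A i j) = 1) ∧
  (∀ i j, A i j = A j i) ∧
  (∃ d : Fin N, ∀ i, i ≠ d → A i i = 0)

theorem Fz_iff (N : ℕ) (hN : ¬ Even N) (B : ℕ → ℕ → ℤ) (h0 : ∀ i j, (N ≤ i ∨ N ≤ j) → B i j = 0) :
    Fz N (fun i j => B i j) ↔ QQ N 1 (List.replicate N true) B := by
  constructor
  · rintro ⟨h1, h2, h3, h4, h5, h6, d, h7⟩
    have hs : ∀ i j, B i j = B j i := by
      intro i j
      by_cases h : i < N ∧ j < N
      · exact h6 ⟨i, h.1⟩ ⟨j, h.2⟩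
      · rw [h0 i j (by omega), h0 j i (by omega)]
    have hr : ∀ i < N, ∑ j ∈ range N, B i j = 1 := by
      intro i hi
      have := h3 ⟨i, hi⟩
      simp only at this
      rw [Fin.sum_univ_eq_sum_range (fun j => B i j) N] at this
      exact this
    refine ⟨h0, hs, ?_, ?_, ?_⟩
    · intro i k
      rcases Nat.lt_or_ge i N with hi | hi
      · rcases Nat.eq_zero_or_pos k with hk | hk
        · left; rw [hk]; simp
        · rcases Nat.lt_or_ge N k with hkN | hkN
          · right
            rw [← Finset.sum_range_add_sum_Ico _ hkN.le, hr i hi]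
            have : ∑ j ∈ Ico N k, B i j = 0 := by
              refine sum_eq_zero fun j hj => ?_
              rw [mem_Ico] at hj
              exact h0 i j (Or.inr hj.1)
            rw [this, add_zero]
          · have := h2 ⟨i, hi⟩ ⟨k - 1, by omega⟩
            simp only at this
            rw [sum_Iic_fin N (fun j => B i j) ⟨k - 1, by omega⟩] at this
            simp only at this
            rwa [Nat.sub_add_cancel hk] at this
      · left
        exact sum_eq_zero fun j _ => h0 i j (Or.inl hi)
    · intro i hi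
      rw [hr i hi, val_replicate N i hi]
    · have hle : ((range N).filter (fun i => B i i ≠ 0)) ⊆ {(d : ℕ)} := by
        intro i hi
        rw [mem_filter, mem_range] at hi
        rw [mem_singleton]
        by_contra hne
        apply hi.2
        have := h7 ⟨i, hi.1⟩ (by
          intro h
          apply hne
          rw [← h])
        exact this
      have hc := card_le_card hle
      rw [card_singleton] at hc
      have hne : ((range N).filter (fun i => B i i ≠ 0)).card ≠ 0 := by
        intro hz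
        rw [card_eq_zero, filter_eq_empty_iff] at hz
        apply hN
        refine parity N B hs ?_ hr
        intro i hi
        have := hz (mem_range.2 hi)
        simpa using this
      omega
  · rintro ⟨_, h2, h3, h4, h5⟩
    have hr : ∀ i < N, ∑ j ∈ range N, B i j = 1 := by
      intro i hi
      rw [h4 i hi, val_replicate N i hi]
    have hrow : ∀ i k : Fin N, (∑ j ∈ Finset.Iic k, B i j) = 0 ∨ (∑ j ∈ Finset.Iic k, B i j) = 1 := by
      intro i k
      rw [sum_Iic_fin N (fun j => B i j) k]
      exact h3 i _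
    have hsum : ∀ i : Fin N, (∑ j : Fin N, B i j) = 1 := by
      intro i
      rw [Fin.sum_univ_eq_sum_range (fun j => B i j) N]
      exact hr i i.2
    refine ⟨?_, hrow, hsum, ?_, ?_, ?_, ?_⟩
    · intro i j
      have a1 := h3 i j
      have a2 := h3 i ((j : ℕ) + 1)
      rw [sum_range_succ] at a2
      simp only
      omega
    · intro j k
      have := hrow j k
      simp only [h2 j] at this
      exact this
    · intro j
      have := hsum j
      simp only [h2 j] at this
      exact this
    · intro i j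
      exact h2 i j
    · obtain ⟨d, hd⟩ := card_eq_one.1 h5
      have hdm : d ∈ ((range N).filter (fun i => B i i ≠ 0)) := by rw [hd]; simp
      rw [mem_filter, mem_range] at hdm
      refine ⟨⟨d, hdm.1⟩, ?_⟩
      intro i hi
      by_contra hne
      have : (i : ℕ) ∈ ((range N).filter (fun i => B i i ≠ 0)) := by
        rw [mem_filter, mem_range]; exact ⟨i.2, hne⟩
      rw [hd, mem_singleton] at this
      exact hi (Fin.ext this)

def exN (N : ℕ) (A : Matrix (Fin N) (Fin N) ℤ) (i j : ℕ) : ℤ :=
  if h : i < N ∧ j < N then A ⟨i, h.1⟩ ⟨j, h.2⟩ else 0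

theorem exN_out (N : ℕ) (A : Matrix (Fin N) (Fin N) ℤ) (i j : ℕ) (h : N ≤ i ∨ N ≤ j) :
    exN N A i j = 0 := by
  rw [exN, dif_neg (by omega)]

theorem exN_in (N : ℕ) (A : Matrix (Fin N) (Fin N) ℤ) :
    (fun i j : Fin N => exN N A i j) = A := by
  funext i j
  rw [exN, dif_pos ⟨i.2, j.2⟩]

def fzEqv (N : ℕ) (hN : ¬ Even N) :
    {A : Matrix (Fin N) (Fin N) ℤ // Fz N A} ≃ {B : ℕ → ℕ → ℤ // QQ N 1 (List.replicate N true) B} where
  toFun A := ⟨exN N A.1, (Fz_iff N hN _ (exN_out N A.1)).1 (by
    have := exN_in N A.1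
    rw [this]; exact A.2)⟩
  invFun B := ⟨fun i j => B.1 i j, (Fz_iff N hN _ B.2.1).2 B.2⟩
  left_inv A := by
    apply Subtype.ext
    exact exN_in N A.1
  right_inv B := by
    apply Subtype.ext
    funext i j
    simp only [exN]
    split_ifs with h
    · rfl
    · rw [B.2.1 i j (by omega)]

theorem count_eq (w : ℂ) (hw : w ^ 2 + w + 1 = 0) (N : ℕ) (hN : ¬ Even N) :
    Z1 w (List.replicate N 1) = (Nat.card {A : Matrix (Fin N) (Fin N) ℤ // Fz N A} : ℂ) := by
  rw [Z1_card w hw N, Nat.card_congr (fzEqv N hN)]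

end Pool.Agent.Y373.OS
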