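import Mathlib

set_option autoImplicit false

namespace Pool.Agent.Y373.OS

open Finset

/-- `∏_{j ≤ n} (x - j)` -/
def PP0 (n : ℕ) (x : ℚ) : ℚ := ∏ j ∈ range (n + 1), (x - j)

def UU (n : ℕ) (d : ℚ) : ℚ :=
  ∑ s ∈ range (n + 1), (n.choose s : ℚ) * (2 * s - n - d) / PP0 n (s - d)

theorem PP0_ne (n : ℕ) (x : ℚ) (hx : ∀ k : ℤ, x ≠ k) : PP0 n x ≠ 0 := by
  rw [PP0, prod_ne_zero_iff]
  intro j _
  rw [sub_ne_zero]
  exact_mod_cast hx j

theorem sub_ni (s : ℤ) (d : ℚ) (hd : ∀ k : ℤ, d ≠ k) : ∀ k : ℤ, (s : ℚ) - d ≠ k := by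
  intro k h
  apply hd (s - k)
  push_cast
  linarith

theorem PP0_succ (n : ℕ) (x : ℚ) : PP0 (n + 1) x = x * PP0 n (x - 1) := by
  rw [PP0, prod_range_succ', PP0]
  push_cast
  rw [sub_zero, mul_comm]
  congr 1
  refine prod_congr rfl fun j _ => ?_
  ring

theorem PP0_shift (n : ℕ) (x : ℚ) : PP0 n (x + 1) * (x - n) = (x + 1) * PP0 n x := by
  rw [PP0, PP0, prod_range_succ', prod_range_succ]
  push_cast
  have : ∏ k ∈ range n, (x + 1 - ((k : ℚ) + 1)) = ∏ k ∈ range n, (x - k) :=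
    prod_congr rfl fun j _ => by ring
  rw [this]
  ring

theorem UU_rec (n : ℕ) (d : ℚ) (hd : ∀ k : ℤ, d ≠ k) :
    (n - d) * UU (n + 1) d = 2 * UU n (d + 1) := by
  -- `Q s = PP0 n (s - d - 1)`
  set Q : ℕ → ℚ := fun s => PP0 n (s - d - 1) with hQ
  have hQ0 : ∀ s, Q s ≠ 0 := by
    intro s
    refine PP0_ne n _ ?_
    intro k h
    apply hd (s - 1 - k)
    push_cast
    linarith
  set G : ℕ → ℚ := fun s => if s = 0 then 0 else (n + 2 + d - 2 * s) * (n.choose (s - 1)) / Q s
    with hG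
  have hterm : ∀ s ∈ range (n + 2), (n - d) * (((n + 1).choose s : ℚ) * (2 * s - (n + 1 : ℕ) - d) /
      PP0 (n + 1) (s - d)) - 2 * ((n.choose s : ℚ) * (2 * s - n - (d + 1)) / PP0 n (s - (d + 1)))
      = G (s + 1) - G s := by
    intro s _
    have e1 : PP0 n (s - (d + 1)) = Q s := by rw [hQ]; congr 1; ring
    have e2 : PP0 (n + 1) ((s : ℚ) - d) = (s - d) * Q s := by rw [PP0_succ]
    have e3 : Q (s + 1) * (s - d - 1 - n) = (s - d) * Q s := by
      have := PP0_shift n ((s : ℚ) - d - 1)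
      rw [hQ]
      simp only
      rw [show (((s + 1 : ℕ) : ℚ) - d - 1) = (s : ℚ) - d - 1 + 1 by push_cast; ring, this]
      ring
    have hsd : (s : ℚ) - d ≠ 0 := by
      have := sub_ni (s : ℤ) d hd 0
      simpa using this
    have hsn : (s : ℚ) - d - 1 - n ≠ 0 := by
      have := sub_ni (s : ℤ) d hd (n + 1)
      intro h
      apply this
      push_cast
      linarith
    have e4 : Q (s + 1) = (s - d) * Q s / (s - d - 1 - n) := by
      rw [eq_div_iff hsn, e3]
    rw [e1, e2]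
    have hq := hQ0 s
    simp only [hG, Nat.succ_ne_zero, if_false, Nat.add_sub_cancel]
    rw [e4]
    rcases Nat.eq_zero_or_pos s with h0 | h0
    · subst h0
      simp only [if_true, Nat.choose_zero_right]
      push_cast
      simp only [Nat.cast_zero] at hsd hsn ⊢
      generalize Q 0 = q at *
      field_simp
      ring
    · obtain ⟨k, rfl⟩ : ∃ k, s = k + 1 := ⟨s - 1, by omega⟩
      simp only [Nat.succ_ne_zero, if_false, Nat.add_sub_cancel]
      rw [Nat.choose_succ_succ]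
      have hrel : ((n.choose (k + 1) : ℕ) : ℚ) * (k + 1) = (n - k) * (n.choose k : ℕ) := by
        by_cases hk : k ≤ n
        · have := Nat.choose_succ_right_eq n k
          have h2 : ((n.choose (k + 1) * (k + 1) : ℕ) : ℚ) = ((n.choose k * (n - k) : ℕ) : ℚ) := by
            rw [this]
          rw [Nat.cast_mul, Nat.cast_mul, Nat.cast_sub hk] at h2
          push_cast at h2
          linarith
        · rw [Nat.choose_eq_zero_of_lt (by omega), Nat.choose_eq_zero_of_lt (by omega)]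
          simp
      generalize Q (k + 1) = q at *
      push_cast at *
      generalize ((n.choose (k + 1) : ℕ) : ℚ) = a at *
      generalize ((n.choose k : ℕ) : ℚ) = b at *
      field_simp
      linear_combination (n + d - 2 * (k + 1)) * hrel
  have h1 : UU n (d + 1) = ∑ s ∈ range (n + 2), (n.choose s : ℚ) * (2 * s - n - (d + 1)) /
      PP0 n (s - (d + 1)) := by
    rw [UU, sum_range_succ _ (n + 1), Nat.choose_eq_zero_of_lt (Nat.lt_succ_self n)]
    simp
  have h2 : (n - d) * UU (n + 1) d - 2 * UU n (d + 1) = 0 := by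
    rw [h1, UU, mul_sum, mul_sum, ← sum_sub_distrib, sum_congr rfl hterm, sum_range_sub, hG]
    simp only [Nat.succ_ne_zero, if_false, if_true]
    rw [Nat.choose_eq_zero_of_lt (by omega)]
    simp
  linarith

theorem UU_closed (n : ℕ) : ∀ d : ℚ, (∀ k : ℤ, d ≠ k) →
    UU n d * ∏ i ∈ range n, (2 * (i : ℚ) + 1 - n - d) = 2 ^ n := by
  induction n with
  | zero =>
    intro d hd
    have h0 : d ≠ 0 := by simpa using hd 0
    simp [UU, PP0, h0]
  | succ n ih =>
    intro d hd
    have hd1 : ∀ k : ℤ, d + 1 ≠ k := by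
      intro k h
      apply hd (k - 1)
      push_cast
      linarith
    have hr := UU_rec n d hd
    have h := ih (d + 1) hd1
    rw [prod_range_succ]
    have e : ∏ i ∈ range n, (2 * (i : ℚ) + 1 - (n + 1 : ℕ) - d)
        = ∏ i ∈ range n, (2 * (i : ℚ) + 1 - n - (d + 1)) :=
      prod_congr rfl fun i _ => by push_cast; ring
    rw [e]
    push_cast
    rw [pow_succ, ← h]
    linear_combination (∏ i ∈ range n, (2 * (i : ℚ) + 1 - n - (d + 1))) * hr

theorem prod_erase_diff (s : ℕ) (k : ℕ) :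
    ∏ t ∈ (range (s + k + 1)).erase s, ((s : ℚ) - t) = (-1) ^ k * (s.factorial * k.factorial) := by
  induction k with
  | zero =>
    have : (range (s + 0 + 1)).erase s = range s := by
      ext t; simp only [mem_erase, mem_range]; omega
    rw [this, ← prod_range_reflect]
    have : ∀ j ∈ range s, ((s : ℚ) - ((s - 1 - j : ℕ) : ℚ)) = ((j + 1 : ℕ) : ℚ) := by
      intro j hj
      rw [mem_range] at hj
      rw [Nat.cast_sub (by omega), Nat.cast_sub (by omega)]
      push_cast; ring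
    rw [prod_congr rfl this, ← Nat.cast_prod, prod_range_add_one_eq_factorial]
    simp
  | succ k ih =>
    have : (range (s + (k + 1) + 1)).erase s = insert (s + k + 1) ((range (s + k + 1)).erase s) := by
      ext t; simp only [mem_erase, mem_range, mem_insert]; omega
    rw [this, prod_insert (by simp), ih, Nat.factorial_succ]
    push_cast
    ring

/-- the sum over nodes -/
def cQ (m : ℕ) (s : ℕ) : ℚ := 3 * s - 3 * m - 2

theorem third_ni : ∀ k : ℤ, (1 / 3 : ℚ) ≠ k := by
  intro k h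
  have h2 : (1 : ℚ) = ((3 * k : ℤ) : ℚ) := by push_cast; linarith
  have h3 : (1 : ℤ) = 3 * k := by exact_mod_cast h2
  omega

theorem node_prod (m s : ℕ) (hs : s ≤ 2 * m + 1) :
    (∏ t ∈ (range (2 * m + 2)).erase s, (cQ m s ^ 2 - cQ m t ^ 2)) * (2 * s - (2 * m + 1 : ℕ) - 1 / 3)
      = 9 ^ (2 * m + 1) * ((-1) ^ (2 * m + 1 - s) * (s.factorial * (2 * m + 1 - s).factorial)) *
        PP0 (2 * m + 1) (s - 1 / 3) := by
  have h1 : ∏ t ∈ (range (2 * m + 2)).erase s, (cQ m s ^ 2 - cQ m t ^ 2)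
      = 9 ^ (2 * m + 1) * (∏ t ∈ (range (2 * m + 2)).erase s, ((s : ℚ) - t)) *
        ∏ t ∈ (range (2 * m + 2)).erase s, ((s : ℚ) + t - (2 * m + 1 : ℕ) - 1 / 3) := by
    have hc : ((range (2 * m + 2)).erase s).card = 2 * m + 1 := by
      rw [card_erase_of_mem (mem_range.2 (by omega)), card_range]; omega
    have h9 : (9 : ℚ) ^ (2 * m + 1) = ∏ _t ∈ (range (2 * m + 2)).erase s, 9 := by
      rw [prod_const, hc]
    rw [h9, ← prod_mul_distrib, ← prod_mul_distrib]
    refine prod_congr rfl fun t _ => ?_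
    simp only [cQ]; push_cast; ring
  obtain ⟨k, hk⟩ : ∃ k, 2 * m + 1 = s + k := ⟨2 * m + 1 - s, by omega⟩
  have h2 : ∏ t ∈ (range (2 * m + 2)).erase s, ((s : ℚ) - t)
      = (-1) ^ (2 * m + 1 - s) * (s.factorial * (2 * m + 1 - s).factorial) := by
    have := prod_erase_diff s k
    rw [show 2 * m + 2 = s + k + 1 by omega, show 2 * m + 1 - s = k by omega]
    exact this
  have h3 : (∏ t ∈ (range (2 * m + 2)).erase s, ((s : ℚ) + t - (2 * m + 1 : ℕ) - 1 / 3)) *
      (2 * s - (2 * m + 1 : ℕ) - 1 / 3) = PP0 (2 * m + 1) (s - 1 / 3) := by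
    have e : (2 * (s : ℚ) - (2 * m + 1 : ℕ) - 1 / 3) = ((s : ℚ) + s - (2 * m + 1 : ℕ) - 1 / 3) := by
      ring
    rw [e, prod_erase_mul (range (2 * m + 2)) (fun t : ℕ => ((s : ℚ) + t - (2 * m + 1 : ℕ) - 1 / 3))
      (mem_range.2 (by omega)), PP0, ← prod_range_reflect]
    refine prod_congr rfl fun j hj => ?_
    rw [mem_range] at hj
    rw [Nat.cast_sub (by omega), Nat.cast_sub (by omega)]
    push_cast; ring
  rw [h1, h2, mul_assoc, h3]

end Pool.Agent.Y373.OS
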