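import Mathlib
import Pool.Agent.Y373.OS.Eval1

set_option autoImplicit false

namespace Pool.Agent.Y373.OS

open Finset

def Sm (m : ℕ) : ℚ := ∑ s ∈ range (2 * m + 2),
  (-1) ^ s / ∏ t ∈ (range (2 * m + 2)).erase s, (cQ m s ^ 2 - cQ m t ^ 2)

theorem third_ne (z : ℤ) : (z : ℚ) - 1 / 3 ≠ 0 := by
  intro h
  apply third_ni z
  linarith

theorem Sm_eq_UU (m : ℕ) :
    Sm m = -(UU (2 * m + 1) (1 / 3)) / (9 ^ (2 * m + 1) * (2 * m + 1).factorial) := by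
  rw [Sm, UU, ← sum_neg_distrib, sum_div]
  refine sum_congr rfl fun s hs => ?_
  rw [mem_range] at hs
  have hs' : s ≤ 2 * m + 1 := by omega
  have hn := node_prod m s hs'
  have hP : PP0 (2 * m + 1) ((s : ℚ) - 1 / 3) ≠ 0 := by
    refine PP0_ne _ _ ?_
    have := sub_ni (s : ℤ) (1 / 3) third_ni
    simpa using this
  have hz : (2 * (s : ℚ) - (2 * m + 1 : ℕ) - 1 / 3) ≠ 0 := by
    have := third_ne (2 * s - (2 * m + 1 : ℕ))
    push_cast at this ⊢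
    exact this
  have hsg : (-1 : ℚ) ^ s * (-1) ^ (2 * m + 1 - s) = -1 := by
    rw [← pow_add, show s + (2 * m + 1 - s) = 2 * m + 1 by omega, pow_succ, pow_mul]
    simp
  have hsg2 : (-1 : ℚ) ^ (2 * m + 1 - s) * (-1) ^ (2 * m + 1 - s) = 1 := by
    rw [← mul_pow]; simp
  have hch : (((2 * m + 1).choose s : ℕ) : ℚ) * (s.factorial * (2 * m + 1 - s).factorial)
      = (2 * m + 1).factorial := by
    have := Nat.choose_mul_factorial_mul_factorial hs'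
    rw [← this]; push_cast; ring
  set P := ∏ t ∈ (range (2 * m + 2)).erase s, (cQ m s ^ 2 - cQ m t ^ 2) with hPd
  have f1 : (s.factorial : ℚ) ≠ 0 := by exact_mod_cast s.factorial_ne_zero
  have f2 : ((2 * m + 1 - s).factorial : ℚ) ≠ 0 := by exact_mod_cast (2 * m + 1 - s).factorial_ne_zero
  have f3 : ((2 * m + 1).factorial : ℚ) ≠ 0 := by exact_mod_cast (2 * m + 1).factorial_ne_zero
  have hP0 : P ≠ 0 := by
    intro h
    rw [h, zero_mul] at hn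
    have : (9 : ℚ) ^ (2 * m + 1) * ((-1) ^ (2 * m + 1 - s) * (s.factorial * (2 * m + 1 - s).factorial)) *
        PP0 (2 * m + 1) (s - 1 / 3) ≠ 0 := by
      refine mul_ne_zero (mul_ne_zero (by positivity) (mul_ne_zero ?_ (mul_ne_zero f1 f2))) hP
      exact pow_ne_zero _ (by norm_num)
    exact this hn.symm
  have e9 : (9 : ℚ) ^ (2 * m + 1) ≠ 0 := by positivity
  rw [div_eq_div_iff hP0 (mul_ne_zero e9 f3)]
  rw [eq_comm, ← mul_left_inj' hz, mul_assoc, hn]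
  have h4 : -(((2 * m + 1).choose s : ℚ) * (2 * s - (2 * m + 1 : ℕ) - 1 / 3) /
      PP0 (2 * m + 1) (s - 1 / 3)) * (9 ^ (2 * m + 1) * ((-1) ^ (2 * m + 1 - s) *
      (s.factorial * (2 * m + 1 - s).factorial)) * PP0 (2 * m + 1) (s - 1 / 3))
      = -((((2 * m + 1).choose s : ℕ) : ℚ) * (s.factorial * (2 * m + 1 - s).factorial)) *
        (-1) ^ (2 * m + 1 - s) * 9 ^ (2 * m + 1) * (2 * s - (2 * m + 1 : ℕ) - 1 / 3) := by
    clear hn
    generalize PP0 (2 * m + 1) ((s : ℚ) - 1 / 3) = P0 at hP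
    field_simp
  rw [h4, hch]
  linear_combination (((2 * m + 1).factorial : ℚ) * 9 ^ (2 * m + 1) *
    (2 * s - (2 * m + 1 : ℕ) - 1 / 3)) * ((-1) ^ s * hsg2 - (-1 : ℚ) ^ (2 * m + 1 - s) * hsg)

theorem prod_odd (m : ℕ) : ∏ i ∈ range (2 * m + 1), (2 * (i : ℚ) + 1 - (2 * m + 1 : ℕ) - 1 / 3)
    = -(1 / 3) * ((-1) ^ m * (∏ j ∈ range m, (36 * ((j : ℚ) + 1) ^ 2 - 1)) / 9 ^ m) := by
  induction m with
  | zero => simp
  | succ m ih =>
    rw [show 2 * (m + 1) + 1 = (2 * m + 1) + 1 + 1 by ring, prod_range_succ, prod_range_succ',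
      prod_range_succ _ m]
    have e : ∏ k ∈ range (2 * m + 1), (2 * ((k + 1 : ℕ) : ℚ) + 1 - (2 * m + 1 + 1 + 1 : ℕ) - 1 / 3)
        = ∏ i ∈ range (2 * m + 1), (2 * (i : ℚ) + 1 - (2 * m + 1 : ℕ) - 1 / 3) :=
      prod_congr rfl fun i _ => by push_cast; ring
    rw [e, ih]
    push_cast
    field_simp
    ring

theorem Sm_closed (m : ℕ) : Sm m * (9 ^ (m + 1) * (2 * m + 1).factorial *
    ∏ j ∈ range m, (36 * ((j : ℚ) + 1) ^ 2 - 1)) = (-1) ^ m * 3 * 2 ^ (2 * m + 1) := by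
  have h := UU_closed (2 * m + 1) (1 / 3) third_ni
  rw [prod_odd] at h
  have f3 : ((2 * m + 1).factorial : ℚ) ≠ 0 := by exact_mod_cast (2 * m + 1).factorial_ne_zero
  rw [Sm_eq_UU]
  have h9 : (9 : ℚ) ^ (2 * m + 1) = 9 ^ (m + 1) * 9 ^ m := by rw [← pow_add]; congr 1; ring
  have hs : ((-1 : ℚ) ^ m) * (-1) ^ m = 1 := by rw [← mul_pow]; simp
  rw [← h, h9]
  set D := ∏ j ∈ range m, (36 * ((j : ℚ) + 1) ^ 2 - 1)
  field_simp
  linear_combination (UU (2 * m + 1) (1 / 3) * D) * hs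

end Pool.Agent.Y373.OS
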