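import Mathlib
import Pool.Agent.Y373.OS.Eval2

set_option autoImplicit false

namespace Pool.Agent.Y373.OS

open Finset

def VC (c : ℕ → ℚ) (k : ℕ) : ℚ := ∏ j ∈ range k, ∏ i ∈ range j, (c j ^ 2 - c i ^ 2)

theorem VC_last (c : ℕ → ℚ) (k : ℕ) :
    VC c (k + 1) = VC c k * ∏ i ∈ range k, (c k ^ 2 - c i ^ 2) := by
  rw [VC, prod_range_succ, VC]

theorem VC_first (c : ℕ → ℚ) (k : ℕ) :
    VC c (k + 1) = VC (fun i => c (i + 1)) k * ∏ j ∈ range k, (c (j + 1) ^ 2 - c 0 ^ 2) := by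
  rw [VC, prod_range_succ', VC, ← prod_mul_distrib]
  rw [range_zero, prod_empty, mul_one]
  refine prod_congr rfl fun j _ => ?_
  rw [prod_range_succ']

theorem cQ_shift (m i : ℕ) : cQ (m + 1) (i + 1) = cQ m i := by
  simp only [cQ]; push_cast; ring

theorem asc_prod (a k : ℕ) : (∏ i ∈ range k, ((a : ℚ) + 1 + i)) * a.factorial = (a + k).factorial := by
  induction k with
  | zero => simp
  | succ k ih =>
    rw [prod_range_succ, ← add_assoc, Nat.factorial_succ]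
    push_cast
    rw [← ih]; ring

theorem desc_prod (k : ℕ) : ∏ i ∈ range k, ((k : ℚ) - i) = k.factorial := by
  rw [← prod_range_reflect]
  have : ∀ j ∈ range k, ((k : ℚ) - ((k - 1 - j : ℕ) : ℚ)) = ((j + 1 : ℕ) : ℚ) := by
    intro j hj
    rw [mem_range] at hj
    rw [Nat.cast_sub (by omega), Nat.cast_sub (by omega)]
    push_cast; ring
  rw [prod_congr rfl this, ← Nat.cast_prod, prod_range_add_one_eq_factorial]

theorem VK_step (k : ℕ) : (∏ i ∈ range k, (((k : ℚ) + 1) ^ 2 - ((i : ℚ) + 1) ^ 2)) * ((k : ℚ) + 1)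
    = ((2 * k + 1).factorial : ℚ) := by
  have h1 : ∏ i ∈ range k, (((k : ℚ) + 1) ^ 2 - ((i : ℚ) + 1) ^ 2)
      = (∏ i ∈ range k, ((k : ℚ) - i)) * ∏ i ∈ range k, (((k + 1 : ℕ) : ℚ) + 1 + i) := by
    rw [← prod_mul_distrib]
    refine prod_congr rfl fun i _ => ?_
    push_cast; ring
  have h2 := asc_prod (k + 1) k
  rw [h1, desc_prod]
  have h3 : ((k + 1).factorial : ℚ) = (k + 1) * k.factorial := by
    rw [Nat.factorial_succ]; push_cast; ring
  rw [h3] at h2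
  rw [show 2 * k + 1 = k + 1 + k by ring, ← h2]
  ring

theorem triple (k : ℕ) : ∏ j ∈ range k, ((3 * (j : ℚ) + 2) * (3 * j + 3) * (3 * j + 4))
    = (3 * k + 1).factorial := by
  induction k with
  | zero => simp
  | succ k ih =>
    rw [prod_range_succ, ih, show 3 * (k + 1) + 1 = 3 * k + 1 + 1 + 1 + 1 by ring,
      Nat.factorial_succ (3 * k + 1 + 1 + 1), Nat.factorial_succ (3 * k + 1 + 1),
      Nat.factorial_succ (3 * k + 1)]
    push_cast; ring

theorem T12 (m : ℕ) : (∏ j ∈ range (2 * m + 2), (cQ m j ^ 2 - (3 * (m : ℚ) + 5) ^ 2)) *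
    ∏ j ∈ range (2 * m + 2), ((3 * (m : ℚ) + 4) ^ 2 - cQ m j ^ 2)
    = ((6 * m + 7).factorial : ℚ) * (3 ^ (2 * m + 2) * (2 * m + 2).factorial) := by
  have h1 : ∏ j ∈ range (2 * m + 2), (cQ m j ^ 2 - (3 * (m : ℚ) + 5) ^ 2)
      = (∏ j ∈ range (2 * m + 2), ((3 * (j : ℚ) + 4))) * ∏ j ∈ range (2 * m + 2), (3 * (j : ℚ) + 3) := by
    have a1 : ∏ j ∈ range (2 * m + 2), (cQ m j ^ 2 - (3 * (m : ℚ) + 5) ^ 2)
        = (∏ j ∈ range (2 * m + 2), ((3 * (j : ℚ) + 3))) * ∏ j ∈ range (2 * m + 2), (-(6 * (m : ℚ) + 7 - 3 * j)) := by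
      rw [← prod_mul_distrib]
      refine prod_congr rfl fun j _ => ?_
      simp only [cQ]; ring
    have a2 : ∏ j ∈ range (2 * m + 2), (-(6 * (m : ℚ) + 7 - 3 * j)) = ∏ j ∈ range (2 * m + 2), (3 * (j : ℚ) + 4) := by
      rw [prod_neg, card_range, ← prod_range_reflect, show 2 * m + 2 = 2 * (m + 1) by ring, pow_mul]
      simp only [even_two, Even.neg_pow, one_pow, one_mul]
      refine prod_congr rfl fun j hj => ?_
      rw [mem_range] at hj
      rw [Nat.cast_sub (by omega), Nat.cast_sub (by omega)]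
      push_cast; ring
    rw [a1, a2]; ring
  have h2 : ∏ j ∈ range (2 * m + 2), ((3 * (m : ℚ) + 4) ^ 2 - cQ m j ^ 2)
      = (∏ j ∈ range (2 * m + 2), ((3 * (j : ℚ) + 2))) * ∏ j ∈ range (2 * m + 2), (3 * (j : ℚ) + 3) := by
    have a1 : ∏ j ∈ range (2 * m + 2), ((3 * (m : ℚ) + 4) ^ 2 - cQ m j ^ 2)
        = (∏ j ∈ range (2 * m + 2), ((3 * (j : ℚ) + 2))) * ∏ j ∈ range (2 * m + 2), (6 * (m : ℚ) + 6 - 3 * j) := by
      rw [← prod_mul_distrib]
      refine prod_congr rfl fun j _ => ?_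
      simp only [cQ]; ring
    have a2 : ∏ j ∈ range (2 * m + 2), (6 * (m : ℚ) + 6 - 3 * j) = ∏ j ∈ range (2 * m + 2), (3 * (j : ℚ) + 3) := by
      rw [← prod_range_reflect]
      refine prod_congr rfl fun j hj => ?_
      rw [mem_range] at hj
      rw [Nat.cast_sub (by omega), Nat.cast_sub (by omega)]
      push_cast; ring
    rw [a1, a2]
  have h3 := triple (2 * m + 2)
  rw [prod_mul_distrib, prod_mul_distrib] at h3
  have h4 : ∏ j ∈ range (2 * m + 2), (3 * (j : ℚ) + 3) = 3 ^ (2 * m + 2) * (2 * m + 2).factorial := by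
    have : ∀ j ∈ range (2 * m + 2), (3 * (j : ℚ) + 3) = 3 * ((j + 1 : ℕ) : ℚ) := by
      intro j _; push_cast; ring
    rw [prod_congr rfl this, prod_mul_distrib, prod_const, card_range, ← Nat.cast_prod,
      prod_range_add_one_eq_factorial]
  rw [h1, h2, show 6 * m + 7 = 3 * (2 * m + 2) + 1 by ring, ← h3, h4]
  ring

theorem VC_step (m : ℕ) : VC (cQ (m + 1)) (2 * (m + 1) + 2) = VC (cQ m) (2 * m + 2) *
    ((6 * m + 7).factorial * (3 ^ (2 * m + 2) * (2 * m + 2).factorial)) * (-(6 * m + 9)) := by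
  rw [show 2 * (m + 1) + 2 = (2 * m + 2) + 1 + 1 by ring, VC_last, VC_first,
    prod_range_succ' (fun i => cQ (m + 1) (2 * m + 2 + 1) ^ 2 - cQ (m + 1) i ^ 2)]
  have e1 : (fun i => cQ (m + 1) (i + 1)) = cQ m := funext fun i => cQ_shift m i
  have e2 : cQ (m + 1) 0 = -(3 * m + 5) := by simp only [cQ]; push_cast; ring
  have e3 : cQ (m + 1) (2 * m + 2 + 1) = 3 * m + 4 := by simp only [cQ]; push_cast; ring
  have e4 : ∏ j ∈ range (2 * m + 2), (cQ (m + 1) (j + 1) ^ 2 - cQ (m + 1) 0 ^ 2)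
      = ∏ j ∈ range (2 * m + 2), (cQ m j ^ 2 - (3 * (m : ℚ) + 5) ^ 2) := by
    refine prod_congr rfl fun j _ => ?_
    rw [cQ_shift, e2]; ring
  have e5 : ∏ k ∈ range (2 * m + 2), (cQ (m + 1) (2 * m + 2 + 1) ^ 2 - cQ (m + 1) (k + 1) ^ 2)
      = ∏ j ∈ range (2 * m + 2), ((3 * (m : ℚ) + 4) ^ 2 - cQ m j ^ 2) := by
    refine prod_congr rfl fun j _ => ?_
    rw [e3, cQ_shift]
  rw [e1, e4, e5, e3, e2, ← T12]
  ring

theorem PC_step (m : ℕ) : ∏ s ∈ range (2 * (m + 1) + 2), cQ (m + 1) s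
    = (∏ s ∈ range (2 * m + 2), cQ m s) * (-(3 * m + 5) * (3 * m + 4)) := by
  rw [show 2 * (m + 1) + 2 = (2 * m + 2) + 1 + 1 by ring, prod_range_succ, prod_range_succ']
  have e2 : cQ (m + 1) 0 = -(3 * m + 5) := by simp only [cQ]; push_cast; ring
  have e3 : cQ (m + 1) (2 * m + 2 + 1) = 3 * m + 4 := by simp only [cQ]; push_cast; ring
  rw [e3, e2]
  simp only [cQ_shift]
  ring

theorem quad_pos (j : ℕ) : (36 * ((j : ℚ) + 1) ^ 2 - 1) ≠ 0 := by
  have : (0 : ℚ) ≤ j := by positivity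
  nlinarith

theorem Sm_step (m : ℕ) : Sm (m + 1) * (9 * (2 * m + 2) * (2 * m + 3) * (36 * ((m : ℚ) + 1) ^ 2 - 1))
    = -4 * Sm m := by
  have h1 := Sm_closed m
  have h2 := Sm_closed (m + 1)
  set D := ∏ j ∈ range m, (36 * ((j : ℚ) + 1) ^ 2 - 1) with hD
  have hD0 : D ≠ 0 := prod_ne_zero_iff.2 fun j _ => quad_pos j
  rw [prod_range_succ, ← hD, show 2 * (m + 1) + 1 = 2 * m + 1 + 1 + 1 by ring, Nat.factorial_succ,
    Nat.factorial_succ] at h2
  have f3 : ((2 * m + 1).factorial : ℚ) ≠ 0 := by exact_mod_cast (2 * m + 1).factorial_ne_zero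
  have e9 : (9 : ℚ) ^ (m + 1) ≠ 0 := by positivity
  have hne : (9 : ℚ) ^ (m + 1) * (2 * m + 1).factorial * D ≠ 0 :=
    mul_ne_zero (mul_ne_zero e9 f3) hD0
  refine mul_right_cancel₀ hne ?_
  push_cast at h2
  rw [pow_succ (9 : ℚ) (m + 1), pow_succ (-1 : ℚ) m] at h2
  have e2 : (2 : ℚ) ^ (2 * m + 1 + 1 + 1) = 4 * 2 ^ (2 * m + 1) := by ring
  rw [e2] at h2
  linear_combination h2 + 4 * h1

/-- right-hand side of the formula in a convenient form -/
def FF (m : ℕ) : ℚ := 2 ^ m / 2 * (3 * m + 2).factorial / (2 * m + 1).factorial *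
  ∏ i ∈ range m, (((6 * i + 4).factorial : ℚ) / (2 * m + 2 * i + 3).factorial)

theorem H_step (m : ℕ) : (∏ i ∈ range (m + 1), ((2 * (m + 1) + 2 * i + 3).factorial : ℚ)) *
    (2 * m + 3).factorial = (∏ i ∈ range m, ((2 * m + 2 * i + 3).factorial : ℚ)) *
      ((4 * m + 3).factorial * (4 * m + 5).factorial) := by
  have h1 : ∏ i ∈ range (m + 2), ((2 * m + 2 * i + 3).factorial : ℚ)
      = (∏ i ∈ range (m + 1), ((2 * (m + 1) + 2 * i + 3).factorial : ℚ)) * (2 * m + 3).factorial := by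
    rw [prod_range_succ']
    congr 1
    refine prod_congr rfl fun i _ => ?_
    rw [show 2 * (m + 1) + 2 * i + 3 = 2 * m + 2 * (i + 1) + 3 by ring]
  rw [← h1, prod_range_succ, prod_range_succ, show 2 * m + 2 * m + 3 = 4 * m + 3 by ring,
    show 2 * m + 2 * (m + 1) + 3 = 4 * m + 5 by ring]
  ring

theorem FF_step (m : ℕ) : FF (m + 1) * (16 * (4 * m + 3).factorial * (4 * m + 5).factorial)
    = FF m * (16 * (6 * m + 6) * (3 * m + 4) * (3 * m + 5) * (6 * m + 4).factorial *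
      (2 * m + 1).factorial) := by
  have h := H_step m
  rw [FF, FF, prod_div_distrib, prod_div_distrib, prod_range_succ (fun i => ((6 * i + 4).factorial : ℚ))]
  set A := ∏ i ∈ range m, ((6 * i + 4).factorial : ℚ)
  set B := ∏ i ∈ range (m + 1), ((2 * (m + 1) + 2 * i + 3).factorial : ℚ) with hB
  set B' := ∏ i ∈ range m, ((2 * m + 2 * i + 3).factorial : ℚ) with hB'
  have b1 : B ≠ 0 := prod_ne_zero_iff.2 fun i _ => by
    exact_mod_cast (2 * (m + 1) + 2 * i + 3).factorial_ne_zero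
  have b2 : B' ≠ 0 := prod_ne_zero_iff.2 fun i _ => by
    exact_mod_cast (2 * m + 2 * i + 3).factorial_ne_zero
  rw [show 3 * (m + 1) + 2 = 3 * m + 2 + 1 + 1 + 1 by ring,
    show 2 * (m + 1) + 1 = 2 * m + 1 + 1 + 1 by ring]
  rw [show 2 * m + 3 = 2 * m + 1 + 1 + 1 by ring] at h
  simp only [Nat.factorial_succ (3 * m + 2), Nat.factorial_succ (3 * m + 2 + 1),
    Nat.factorial_succ (3 * m + 2 + 1 + 1),
    Nat.factorial_succ (2 * m + 1), Nat.factorial_succ (2 * m + 1 + 1)] at h ⊢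
  have f1 : ((2 * m + 1).factorial : ℚ) ≠ 0 := by exact_mod_cast (2 * m + 1).factorial_ne_zero
  push_cast at h ⊢
  generalize ((2 * m + 1).factorial : ℚ) = f at *
  generalize ((3 * m + 2).factorial : ℚ) = g at *
  generalize ((4 * m + 3).factorial : ℚ) = p at *
  generalize ((4 * m + 5).factorial : ℚ) = q at *
  generalize ((6 * m + 4).factorial : ℚ) = r at *
  have hpq : p * q = B * ((2 * m + 1 + 1 + 1) * ((2 * m + 1 + 1) * f)) / B' := by
    field_simp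
    linear_combination -h
  have c1 : (2 * (m : ℚ) + 1 + 1 + 1) ≠ 0 := by positivity
  have c2 : (2 * (m : ℚ) + 1 + 1) ≠ 0 := by positivity
  have e : (16 * p * q : ℚ) = 16 * (B * ((2 * m + 1 + 1 + 1) * ((2 * m + 1 + 1) * f)) / B') := by
    rw [← hpq]; ring
  rw [e]
  field_simp
  ring

def Num (m : ℕ) : ℚ := (-12) ^ m * (1 / 3) ^ (m * (m + 1)) * (∏ s ∈ range (2 * m + 2), cQ m s) *
  VC (cQ m) (2 * m + 2) * Sm m

def Den (m : ℕ) : ℚ := (2 * m + 1).factorial * 4 ^ (2 * m + 1) * VC (fun i => (i : ℚ) + 1) (2 * m + 1)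

theorem Den_step (m : ℕ) : Den (m + 1) = Den m * (16 * (4 * m + 3).factorial * (4 * m + 5).factorial) := by
  have h1 := VK_step (2 * m + 1)
  have h2 := VK_step (2 * m + 2)
  rw [Den, Den, show 2 * (m + 1) + 1 = 2 * m + 1 + 1 + 1 by ring, VC_last, VC_last,
    Nat.factorial_succ, Nat.factorial_succ]
  rw [show 2 * (2 * m + 1) + 1 = 4 * m + 3 by ring] at h1
  rw [show 2 * (2 * m + 2) + 1 = 4 * m + 5 by ring] at h2
  rw [← h1, ← h2]
  push_cast
  ring

theorem Num_step (m : ℕ) : Num (m + 1) = Num m * (16 * (6 * m + 6) * (3 * m + 4) * (3 * m + 5) *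
    (6 * m + 4).factorial * (2 * m + 1).factorial) := by
  rw [Num, Num, PC_step, VC_step]
  have h1 := Sm_step m
  have hq := quad_pos m
  have c1 : (2 * (m : ℚ) + 2) ≠ 0 := by positivity
  have c2 : (2 * (m : ℚ) + 3) ≠ 0 := by positivity
  have h2 : Sm (m + 1) = -4 * Sm m / (9 * (2 * m + 2) * (2 * m + 3) * (36 * ((m : ℚ) + 1) ^ 2 - 1)) := by
    rw [eq_div_iff (by
      refine mul_ne_zero (mul_ne_zero (mul_ne_zero (by norm_num) c1) c2) hq)]
    exact h1
  rw [h2]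
  have e1 : (1 / 3 : ℚ) ^ ((m + 1) * (m + 1 + 1)) * 3 ^ (2 * m + 2) = (1 / 3) ^ (m * (m + 1)) := by
    rw [show (m + 1) * (m + 1 + 1) = m * (m + 1) + (2 * m + 2) by ring, pow_add, mul_assoc,
      ← mul_pow]
    norm_num
  have e2 : ((6 * m + 7).factorial : ℚ) = (6 * m + 7) * ((6 * m + 6) * ((6 * m + 5) * (6 * m + 4).factorial)) := by
    rw [show 6 * m + 7 = 6 * m + 4 + 1 + 1 + 1 by ring, Nat.factorial_succ, Nat.factorial_succ,
      Nat.factorial_succ]
    push_cast; ring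
  have e3 : ((2 * m + 2).factorial : ℚ) = (2 * m + 2) * (2 * m + 1).factorial := by
    rw [show 2 * m + 2 = 2 * m + 1 + 1 by ring, Nat.factorial_succ]
    push_cast; ring
  have e4 : (36 * ((m : ℚ) + 1) ^ 2 - 1) = (6 * m + 7) * (6 * m + 5) := by ring
  rw [e2, e3, e4, ← e1]
  have c3 : (6 * (m : ℚ) + 7) ≠ 0 := by positivity
  have c4 : (6 * (m : ℚ) + 5) ≠ 0 := by positivity
  rw [pow_succ (-12 : ℚ) m]
  field_simp
  ring

theorem Num_eq (m : ℕ) : Num m = FF m * Den m := by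
  induction m with
  | zero =>
    have h := Sm_closed 0
    simp only [Num, FF, Den, VC]
    norm_num [Finset.prod_range_succ, cQ, Nat.factorial] at h ⊢
    linarith
  | succ m ih =>
    rw [Num_step, Den_step, ih]
    linear_combination -(Den m) * FF_step m

end Pool.Agent.Y373.OS
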