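import Mathlib
import Pool.Agent.Y373.OS.Model

set_option autoImplicit false

namespace Pool.Agent.Y373.OS

open Polynomial

variable {K : Type*} [Field K]

abbrev TT (n : ℕ) : List Bool := List.replicate n true

theorem cu_ft (w y : K) (xs : List K) (F : List Bool → K) :
    cu w y xs F false (TT xs.length) = (xs.map fun x => be w (x * y)).prod * F (TT xs.length) := by
  induction xs generalizing F with
  | nil => simp [cu, TT]
  | cons x xs ih =>
    simp only [List.length_cons, TT, List.replicate_succ, cu, List.map_cons, List.prod_cons]
    rw [show List.replicate xs.length true = TT xs.length from rfl, ih]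
    ring

theorem al_w2 (w : K) (hw : w ^ 2 + w + 1 = 0) : al w (w ^ 2) = 0 := by
  have hw3 : w ^ 3 = 1 := by linear_combination (w - 1) * hw
  simp only [al]
  have : (1 - w) * w ^ 2 + (2 + w) = 0 := by linear_combination hw - hw3
  rw [this, zero_div]

theorem be_w (w : K) (hw : w ^ 2 + w + 1 = 0) : be w w = 0 := by
  simp only [be]
  have : (2 + w) * w + (1 - w) = 0 := by linear_combination hw
  rw [this, zero_div]

/-- specialisation at `x y = w ^ 2`, no nonzero diagonal entry -/
theorem Z0_alpha (w : K) (hw : w ^ 2 + w + 1 = 0) (x y : K) (hxy : x * y = w ^ 2) (xs : List K) :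
    Z0 w (y :: x :: xs) = (xs.map fun z => be w (z * y)).prod * (xs.map fun z => be w (z * x)).prod
      * Z0 w xs := by
  have h0 : al w (x * y) = 0 := by rw [hxy, al_w2 w hw]
  simp only [Z0, List.length_cons, List.replicate_succ, Psi0]
  rw [cu, h0, zero_mul, zero_add]
  have := cu_ft w y xs (fun L => Psi0 w (x :: xs) (false :: L))
  rw [TT] at this
  rw [this]
  simp only [Psi0]
  have := cu_ft w x xs (Psi0 w xs)
  rw [TT] at this
  rw [this]
  ring

theorem Z1_alpha (w : K) (hw : w ^ 2 + w + 1 = 0) (h3 : (3 : K) ≠ 0) (x y : K)
    (hxy : x * y = w ^ 2)
    (hx : 1 + w ^ 2 * x ≠ 0) (hy : 1 + w ^ 2 * y ≠ 0) (xs : List K) :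
    Z1 w (y :: x :: xs) = (xs.map fun z => be w (z * y)).prod * (xs.map fun z => be w (z * x)).prod
      * Z1 w xs := by
  have hw3 : w ^ 3 = 1 := by linear_combination (w - 1) * hw
  have h0 : al w (x * y) = 0 := by rw [hxy, al_w2 w hw]
  have hb : bw w x false + bw w y true * be w (x * y) = 0 := by
    rw [hxy]
    simp only [bw, be, Bool.false_eq_true, if_true, if_false]
    have hb2 : ((2 + w) * w ^ 2 + (1 - w)) = -3 * w := by
      linear_combination (w + 1) * hw
    rw [hb2]
    have e1 : (1 + w ^ 2 * x) * w ^ 2 = w * x * (1 + w ^ 2 * y) := by
      linear_combination (w * x - w ^ 2) * hw3 - w ^ 3 * hxy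
    field_simp
    linear_combination e1
  simp only [Z1, List.length_cons, List.replicate_succ, Psi1]
  rw [cu, h0, zero_mul, zero_add]
  have := cu_ft w y xs (fun L => Psi1 w (x :: xs) (false :: L))
  rw [TT] at this
  rw [this]
  have := cu_ft w y (x :: xs) (Psi0 w (x :: xs))
  rw [TT] at this
  simp only [List.length_cons, List.replicate_succ] at this
  simp only [Bool.not_true]
  rw [this]
  simp only [Psi1, Psi0, List.map_cons, List.prod_cons, Bool.not_false]
  have := cu_ft w x xs (Psi1 w xs)
  rw [TT] at this
  rw [this]
  linear_combination (xs.map fun z => be w (z * y)).prod *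
    cu w x xs (Psi0 w xs) true (List.replicate xs.length true) * hb

theorem cu_top (w z : K) (x : K) (xs : List K) (F : List Bool → K) (s : Bool) (S : List Bool)
    (h : S.length = xs.length) :
    cu w z (xs ++ [x]) F s (S ++ [false]) = al w (x * z) * cu w z xs (fun L => F (L ++ [false])) s S := by
  induction xs generalizing F s S with
  | nil =>
    have : S = [] := List.length_eq_zero_iff.1 (by simpa using h)
    subst this
    cases s <;> simp [cu]
  | cons q xs ih =>
    cases S with
    | nil => simp at h
    | cons a S =>
      have h' : S.length = xs.length := by simpa using h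
      cases s <;> cases a <;> simp only [List.cons_append, cu, ih _ _ _ h'] <;> ring

theorem Psi0_top (w : K) (x : K) (xs : List K) (S : List Bool) (h : S.length = xs.length) :
    Psi0 w (xs ++ [x]) (S ++ [false]) = (xs.map fun z => al w (z * x)).prod * Psi0 w xs S := by
  induction xs generalizing S with
  | nil =>
    have : S = [] := List.length_eq_zero_iff.1 (by simpa using h)
    subst this
    simp [Psi0, cu]
  | cons q xs ih =>
    cases S with
    | nil => simp at h
    | cons a S =>
      have h' : S.length = xs.length := by simpa using h
      simp only [List.cons_append, Psi0, List.map_cons, List.prod_cons]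
      rw [cu_top w q x xs _ a S h']
      have : ∀ (L : List Bool), L.length = xs.length →
          Psi0 w (xs ++ [x]) (L ++ [false]) = (xs.map fun z => al w (z * x)).prod * Psi0 w xs L := ih
      rw [cu_congr w q xs _ (fun L => (xs.map fun z => al w (z * x)).prod * Psi0 w xs L) ih a S,
        cu_smul, mul_comm x q]
      ring


theorem Psi1_top (w : K) (x : K) (xs : List K) (S : List Bool) (h : S.length = xs.length) :
    Psi1 w (xs ++ [x]) (S ++ [false]) = (xs.map fun z => al w (z * x)).prod * Psi1 w xs S := by
  induction xs generalizing S with
  | nil =>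
    have : S = [] := List.length_eq_zero_iff.1 (by simpa using h)
    subst this
    simp [Psi1, cu]
  | cons q xs ih =>
    cases S with
    | nil => simp at h
    | cons a S =>
      have h' : S.length = xs.length := by simpa using h
      simp only [List.cons_append, Psi1, List.map_cons, List.prod_cons]
      rw [cu_top w q x xs _ a S h', cu_top w q x xs _ (!a) S h',
        cu_congr w q xs _ (fun L => (xs.map fun z => al w (z * x)).prod * Psi1 w xs L) ih a S,
        cu_congr w q xs _ (fun L => (xs.map fun z => al w (z * x)).prod * Psi0 w xs L)
          (fun L hL => Psi0_top w x xs L hL) (!a) S,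
        cu_smul, cu_smul, mul_comm x q]
      ring

theorem cu_beta (w y x : K) (h : be w (x * y) = 0) (xs : List K) (F : List Bool → K) :
    cu w y (xs ++ [x]) F true (TT xs.length ++ [true]) =
      (xs.map fun z => al w (z * y)).prod * F (TT xs.length ++ [false]) := by
  induction xs generalizing F with
  | nil => simp [cu, TT]
  | cons q xs ih =>
    have e : TT (q :: xs).length ++ [true] = true :: (TT xs.length ++ [true]) := by
      simp [TT, List.replicate_succ]
    have e2 : TT xs.length ++ [true] = TT (xs ++ [x]).length := by
      simp only [TT, List.length_append, List.length_singleton, List.replicate_succ']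
    have e3 : TT (q :: xs).length ++ [false] = true :: (TT xs.length ++ [false]) := by
      simp [TT, List.replicate_succ]
    rw [e, List.cons_append, cu, ih, e2, cu_ft]
    simp only [List.map_append, List.prod_append, List.map_cons, List.prod_cons, List.map_nil,
      List.prod_nil, h, mul_zero, zero_mul, mul_one, add_zero, e3]
    ring

/-- specialisation at `x y = w`, where `x` is the parameter of the top line -/
theorem Z0_beta (w : K) (hw : w ^ 2 + w + 1 = 0) (x y : K) (hxy : x * y = w) (xs : List K) :
    Z0 w (y :: (xs ++ [x])) = (xs.map fun z => al w (z * y)).prod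
      * (xs.map fun z => al w (z * x)).prod * Z0 w xs := by
  have h0 : be w (x * y) = 0 := by rw [hxy, be_w w hw]
  have e : List.replicate (y :: (xs ++ [x])).length true = true :: (TT xs.length ++ [true]) := by
    simp only [List.length_cons, List.length_append, List.length_nil, List.replicate_succ',
      TT, zero_add]
    rw [← List.replicate_succ', ← List.replicate_succ', List.replicate_succ,
      List.replicate_succ']
  rw [Z0, e, Psi0, cu_beta w y x h0, Psi0_top w x xs _ (by simp), Z0]
  ring

theorem Z1_beta (w : K) (hw : w ^ 2 + w + 1 = 0) (x y : K) (hxy : x * y = w) (xs : List K) :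
    Z1 w (y :: (xs ++ [x])) = (xs.map fun z => al w (z * y)).prod
      * (xs.map fun z => al w (z * x)).prod * Z1 w xs := by
  have h0 : be w (x * y) = 0 := by rw [hxy, be_w w hw]
  have e : List.replicate (y :: (xs ++ [x])).length true = true :: (TT xs.length ++ [true]) := by
    simp only [List.length_cons, List.length_append, List.length_nil, List.replicate_succ',
      TT, zero_add]
    rw [← List.replicate_succ', ← List.replicate_succ', List.replicate_succ,
      List.replicate_succ']
  have e2 : TT xs.length ++ [true] = TT (xs ++ [x]).length := by
    simp only [TT, List.length_append, List.length_singleton, List.replicate_succ']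
  rw [Z1, e, Psi1, cu_beta w y x h0, Psi1_top w x xs _ (by simp), Z1, Bool.not_true, e2, cu_ft]
  simp only [List.map_append, List.prod_append, List.map_cons, List.prod_cons, List.map_nil,
      List.prod_nil, h0, mul_zero, zero_mul, mul_one, add_zero]
  ring

/-! polynomial form in the parameter of the last line -/

noncomputable def beP (w x : K) : K[X] := C ((2 + w) / 3 * x) * X + C ((1 - w) / 3)
noncomputable def alP (w x : K) : K[X] := C ((1 - w) / 3 * x) * X + C ((2 + w) / 3)

theorem eval_beP (w x y : K) : (beP w x).eval y = be w (x * y) := by
  simp only [beP, be, eval_add, eval_mul, eval_C, eval_X]; ring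

theorem eval_alP (w x y : K) : (alP w x).eval y = al w (x * y) := by
  simp only [alP, al, eval_add, eval_mul, eval_C, eval_X]; ring

noncomputable def prodBe (w : K) (xs : List K) : K[X] := (xs.map fun x => beP w x).prod

noncomputable def cuP (w : K) : List K → (List Bool → K) → K[X]
  | [], _ => 0
  | x :: xs, F => alP w x * cuP w xs (fun L => F (true :: L))
      + prodBe w xs * C (F (false :: TT xs.length))

theorem eval_prodBe (w : K) (xs : List K) (y : K) :
    (prodBe w xs).eval y = (xs.map fun x => be w (x * y)).prod := by
  induction xs with
  | nil => simp [prodBe]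
  | cons x xs ih =>
    simp only [prodBe, List.map_cons, List.prod_cons, eval_mul] at ih ⊢
    rw [ih, eval_beP]

theorem eval_cuP (w : K) (xs : List K) (F : List Bool → K) (y : K) :
    (cuP w xs F).eval y = cu w y xs F true (TT xs.length) := by
  induction xs generalizing F with
  | nil => simp [cuP, cu, TT]
  | cons x xs ih =>
    simp only [cuP, eval_add, eval_mul, eval_C, ih, eval_alP, eval_prodBe, List.length_cons, TT,
      List.replicate_succ, cu]
    have := cu_ft w y xs (fun L => F (false :: L))
    rw [TT] at this
    rw [this]

theorem degree_beP (w x : K) : (beP w x).degree ≤ 1 := by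
  rw [beP]; exact degree_linear_le

theorem degree_alP (w x : K) : (alP w x).degree ≤ 1 := by
  rw [alP]; exact degree_linear_le

theorem degree_prodBe (w : K) (xs : List K) : (prodBe w xs).degree ≤ xs.length := by
  induction xs with
  | nil => simp [prodBe]
  | cons x xs ih =>
    have : prodBe w (x :: xs) = beP w x * prodBe w xs := by simp [prodBe]
    rw [this]
    refine (degree_mul_le _ _).trans ?_
    refine (add_le_add (degree_beP w x) ih).trans ?_
    rw [List.length_cons]; push_cast; rw [add_comm]

theorem degree_cuP (w : K) (xs : List K) (F : List Bool → K) :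
    (cuP w xs F).degree < xs.length := by
  induction xs generalizing F with
  | nil => simp [cuP]
  | cons x xs ih =>
    simp only [cuP, List.length_cons]
    refine lt_of_le_of_lt (degree_add_le _ _) (max_lt ?_ ?_)
    · refine lt_of_le_of_lt (degree_mul_le _ _) ?_
      have h1 := degree_alP w x
      have h2 := ih (fun L => F (true :: L))
      push_cast
      rw [add_comm]
      calc _ ≤ (cuP w xs fun L => F (true :: L)).degree + 1 := by gcongr
        _ < _ := by
          refine WithBot.add_lt_add_right (by simp) h2
    · refine lt_of_le_of_lt (degree_mul_le _ _) ?_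
      have h1 := degree_prodBe w xs
      have h2 : (C (F (false :: TT xs.length))).degree ≤ 0 := degree_C_le
      calc _ ≤ (xs.length : WithBot ℕ) + 0 := add_le_add h1 h2
        _ < _ := by
          rw [add_zero]; exact_mod_cast Nat.lt_succ_self _

end Pool.Agent.Y373.OS
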