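import Mathlib
import Pool.Agent.Y373.OS.Spec

set_option autoImplicit false

namespace Pool.Agent.Y373.OS

open Polynomial Matrix

/-- `x ^ k - x ^ (-k)` -/
noncomputable def ph (k : ℤ) (x : ℂ) : ℂ := x ^ k - x ^ (-k)

noncomputable def vv (x : ℂ) : ℂ := x + x⁻¹

noncomputable def Y3 (x : ℂ) : ℂ := x ^ (3 : ℤ) + x ^ (-3 : ℤ)

/-- matrix of the numerator determinant -/
noncomputable def PM (n : ℕ) (a : ℤ) (x : Fin n → ℂ) : Matrix (Fin n) (Fin n) ℂ :=
  Matrix.of fun i s => ph (3 * (s : ℕ) + a) (x i)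

theorem ph_three (k : ℤ) (x : ℂ) (hx : x ≠ 0) :
    ph (k + 3) x + ph (k - 3) x = Y3 x * ph k x := by
  simp only [ph, Y3]
  rw [show -(k + 3) = -k + (-3) by ring, show -(k - 3) = -k + 3 by ring,
    show k - 3 = k + (-3) by ring, zpow_add₀ hx, zpow_add₀ hx, zpow_add₀ hx, zpow_add₀ hx]
  ring

/-- column reduction -/
theorem PM_red (n : ℕ) (a : ℤ) (x : Fin (n + 2) → ℂ) (hx : ∀ i, x i ≠ 0)
    (h01 : (x 0 * x 1) ^ 3 = 1) :
    (PM (n + 2) (a - 3) x).det =
      (ph (a - 3) (x 0) * ph a (x 1) - ph a (x 0) * ph (a - 3) (x 1)) *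
      (∏ k : Fin n, (Y3 (x k.succ.succ) - Y3 (x 0))) *
      (PM n a (fun k => x k.succ.succ)).det := by
  set r : ℂ := x 0 ^ (3 : ℤ) with hr
  have hr0 : r ≠ 0 := zpow_ne_zero _ (hx 0)
  have hr1 : x 1 ^ (3 : ℤ) = r⁻¹ := by
    have h : x 0 ^ (3 : ℤ) * x 1 ^ (3 : ℤ) = 1 := by
      rw [← mul_zpow]
      exact_mod_cast h01
    exact eq_inv_of_mul_eq_one_right h
  have hY0 : Y3 (x 0) = r + r⁻¹ := by
    rw [Y3, hr, _root_.zpow_neg]
  have hY1 : Y3 (x 1) = r + r⁻¹ := by
    rw [Y3, _root_.zpow_neg, hr1, inv_inv, add_comm]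
  set H : Matrix (Fin (n + 2)) (Fin (n + 2)) ℂ := Matrix.of fun i s =>
    ph (3 * (s : ℕ) + (a - 3)) (x i)
      - (if (s : ℕ) = 0 then 0 else r * ph (3 * (s : ℕ) + (a - 6)) (x i)) with hH
  set G : Matrix (Fin (n + 2)) (Fin (n + 2)) ℂ := Matrix.of fun i s =>
    if (s : ℕ) = 0 then ph (a - 3) (x i) else if (s : ℕ) = 1 then
      ph a (x i) - r * ph (a - 3) (x i) else
        (Y3 (x i) - (r + r⁻¹)) * ph (3 * (s : ℕ) + (a - 6)) (x i) with hG
  have e1 : (PM (n + 2) (a - 3) x).det = H.det := by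
    refine Matrix.det_eq_of_forall_col_eq_smul_add_pred (fun _ => r) ?_ ?_
    · intro i
      simp [PM, hH]
    · intro i j
      simp only [PM, hH, Matrix.of_apply, Fin.val_succ, Nat.succ_ne_zero, if_false,
        Fin.val_castSucc]
      rw [show (3 * ((j : ℕ) + 1 : ℕ) + (a - 6) : ℤ) = 3 * ((j : ℕ) : ℤ) + (a - 3) by
        push_cast; ring]
      ring
  have e2 : H.det = G.det := by
    refine Matrix.det_eq_of_forall_col_eq_smul_add_pred
      (fun j => if (j : ℕ) = 0 then 0 else r⁻¹) ?_ ?_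
    · intro i
      simp [hG, hH]
    · intro i j
      cases j using Fin.cases with
      | zero =>
        simp only [hG, hH, Matrix.of_apply, Fin.val_succ]
        simp
        left
        rw [show 3 + (a - 6) = a - 3 by ring]
      | succ j =>
        simp only [hG, hH, Matrix.of_apply, Fin.val_succ, Fin.val_castSucc]
        have h1 : ((j : ℕ) + 1 + 1 = 0) = False := by simp
        have h2 : ((j : ℕ) + 1 + 1 = 1) = False := by simp
        have h3 : ((j : ℕ) + 1 = 0) = False := by simp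
        simp only [h1, h2, h3, if_false]
        have := ph_three (3 * ((j : ℕ) + 1 : ℕ) + (a - 3)) (x i) (hx i)
        rw [show (3 * ((j : ℕ) + 1 : ℕ) + (a - 3) + 3 : ℤ)
            = 3 * ((j : ℕ) + 1 + 1 : ℕ) + (a - 3) by push_cast; ring,
          show (3 * ((j : ℕ) + 1 : ℕ) + (a - 3) - 3 : ℤ)
            = 3 * ((j : ℕ) + 1 : ℕ) + (a - 6) by push_cast; ring] at this
        rw [show (3 * ((j : ℕ) + 1 + 1 : ℕ) + (a - 6) : ℤ)
            = 3 * ((j : ℕ) + 1 : ℕ) + (a - 3) by push_cast; ring]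
        have hrr : r⁻¹ * r = 1 := inv_mul_cancel₀ hr0
        linear_combination this + ph (3 * ((j : ℕ) + 1 : ℕ) + (a - 6)) (x i) * hrr
  rw [e1, e2]
  have z0 : ∀ s : Fin n, G 0 s.succ.succ = 0 := by
    intro s
    simp [hG, hY0]
  have z1 : ∀ s : Fin n, G 1 s.succ.succ = 0 := by
    intro s
    simp [hG, hY1]
  have e3 : G.det = (G 0 0 * G 1 1 - G 0 1 * G 1 0) *
      (G.submatrix (fun i : Fin n => i.succ.succ) (fun i : Fin n => i.succ.succ)).det := by
    rw [det_succ_row_zero, Fin.sum_univ_succ, Fin.sum_univ_succ]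
    rw [Finset.sum_eq_zero (fun s _ => by rw [z0]; ring)]
    rw [det_succ_row_zero, Fin.sum_univ_succ, det_succ_row_zero, Fin.sum_univ_succ]
    rw [Finset.sum_eq_zero (s := Finset.univ), Finset.sum_eq_zero (s := Finset.univ)]
    · simp only [submatrix_apply, submatrix_submatrix]
      have a1 : (Fin.succAbove (0 : Fin (n + 2)) (0 : Fin (n+1))) = 1 := by simp
      have a2 : (Fin.succAbove (Fin.succ (0 : Fin (n + 1))) (0 : Fin (n+1))) = 0 := by
        rfl
      have a3 : (Fin.succ (0 : Fin (n + 1))) = 1 := rfl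
      have a4 : (Fin.succAbove (0 : Fin (n + 2))) ∘ (Fin.succAbove (0 : Fin (n + 1)))
        = fun i : Fin n => i.succ.succ := by
        funext i; simp
      have a5 : (Fin.succAbove (Fin.succ (0 : Fin (n + 1)))) ∘ (Fin.succAbove (0 : Fin (n + 1)))
        = fun i : Fin n => i.succ.succ := by
        funext i; simp
      have a6 : (Fin.succ ∘ Fin.succ : Fin n → Fin (n + 2)) = fun i => i.succ.succ := rfl
      rw [a4, a5, a6, a1, a2, a3]
      simp only [Fin.val_zero, pow_zero, Fin.val_one, pow_one]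
      ring
    · intro s _
      simp only [submatrix_apply]
      have : (Fin.succAbove (Fin.succ (0 : Fin (n + 1))) s.succ) = s.succ.succ := by simp
      rw [this, show (Fin.succ (0 : Fin (n + 1))) = 1 from rfl, z1]
      ring
    · intro s _
      simp only [submatrix_apply]
      have : (Fin.succAbove (0 : Fin (n + 2)) s.succ) = s.succ.succ := by simp
      rw [this, show (Fin.succ (0 : Fin (n + 1))) = 1 from rfl, z1]
      ring
  rw [e3]
  have e4 : (G.submatrix (fun i : Fin n => i.succ.succ) (fun i : Fin n => i.succ.succ))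
      = Matrix.of fun (i : Fin n) (s : Fin n) => (Y3 (x i.succ.succ) - Y3 (x 0)) *
        (PM n a (fun k => x k.succ.succ)) i s := by
    ext i s
    simp only [hG, submatrix_apply, of_apply, Fin.val_succ, PM, hY0]
    have h1 : ((s : ℕ) + 1 + 1 = 0) = False := by simp
    have h2 : ((s : ℕ) + 1 + 1 = 1) = False := by simp
    simp only [h1, h2, if_false]
    rw [show (3 * ((s : ℕ) + 1 + 1 : ℕ) + (a - 6) : ℤ)
            = 3 * ((s : ℕ) : ℕ) + a by push_cast; ring]
  rw [e4, Matrix.det_mul_column]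
  have g00 : G 0 0 = ph (a - 3) (x 0) := by simp [hG]
  have g10 : G 1 0 = ph (a - 3) (x 1) := by simp [hG]
  have g01 : G 0 1 = ph a (x 0) - r * ph (a - 3) (x 0) := by simp [hG]
  have g11 : G 1 1 = ph a (x 1) - r * ph (a - 3) (x 1) := by simp [hG]
  rw [g00, g10, g01, g11]
  ring

end Pool.Agent.Y373.OS
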