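import Mathlib
import Pool.Agent.Y373.OS.Det

set_option autoImplicit false

namespace Pool.Agent.Y373.OS

open Polynomial

noncomputable def Cm (m : ℕ) : ℂ := (3⁻¹ : ℂ) ^ (m * (m + 1))

noncomputable def vd {n : ℕ} (z : Fin n → ℂ) : ℂ := (Matrix.vandermonde fun i => vv (z i)).det

def NFp (w : ℂ) (m : ℕ) {n : ℕ} (z : Fin n → ℂ) : Prop :=
  Z0 w (List.ofFn z) * (∏ i, ph 1 (z i)) * vd z
    = Cm m * (∏ i, z i ^ m) * (PM n (-3 * m - 2) z).det

theorem vd_cons {n : ℕ} (y : ℂ) (x : Fin n → ℂ) :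
    vd (Fin.cons y x : Fin (n + 1) → ℂ) = (∏ i, (vv (x i) - vv y)) * vd x := by
  simp only [vd, Matrix.det_vandermonde, Fin.prod_univ_succ, Fin.cons_zero, Fin.cons_succ]
  congr 1
  · rw [Fin.Ioi_zero_eq_map, Finset.prod_map]
    simp
  · refine Finset.prod_congr rfl fun i _ => ?_
    rw [Fin.Ioi_succ, Finset.prod_map]
    simp

theorem vv_sub (x y : ℂ) (hx : x ≠ 0) (hy : y ≠ 0) :
    (vv x - vv y) * (x * y) = (x - y) * (x * y - 1) := by
  simp only [vv]; field_simp; ring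

theorem be_key (w : ℂ) (hw : w ^ 2 + w + 1 = 0) (x0 x1 z : ℂ) (hx0 : x0 ≠ 0) (hx1 : x1 ≠ 0)
    (hz : z ≠ 0) (h : x0 * x1 = w ^ 2) :
    be w (z * x0) * be w (z * x1) * ((vv z - vv x0) * (vv z - vv x1))
      = -(w / 3) * z * (Y3 z - Y3 x0) := by
  have hw3 : w ^ 3 = 1 := by linear_combination (w - 1) * hw
  have hw0 : w ≠ 0 := by rintro rfl; simp at hw
  have hx1' : x1 = (-w-1) / x0 := by field_simp; linear_combination h + hw
  have hi : x1⁻¹ = w * x0 := by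
    rw [hx1']; field_simp
    have : -w - 1 ≠ 0 := by
      intro h0
      have : w = -1 := by linear_combination -h0
      rw [this] at hw; norm_num at hw
    field_simp
    linear_combination hw
  simp only [be, vv, Y3, _root_.zpow_neg, hi]
  rw [hx1']
  have e3 : ∀ u : ℂ, u ^ (3 : ℤ) = u ^ 3 := fun u => by norm_cast
  rw [e3, e3]
  have hw2 : w ^ 2 = -w - 1 := by linear_combination hw
  have hw4 : w ^ 4 = w := by linear_combination (w ^ 2 - w) * hw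
  have hw5 : w ^ 5 = -w - 1 := by linear_combination (w ^ 3 - w ^ 2 + 1) * hw
  have hw6 : w ^ 6 = 1 := by linear_combination (w ^ 3 + 1) * (w - 1) * hw
  field_simp
  ring_nf
  simp only [hw2, hw3, hw4, hw5, hw6]
  ring

theorem ph_key (w : ℂ) (hw : w ^ 2 + w + 1 = 0) (m : ℕ) (x0 x1 : ℂ) (hx0 : x0 ≠ 0) (hx1 : x1 ≠ 0)
    (h : x0 * x1 = w ^ 2) :
    ph (-3 * m - 2 - 3) x0 * ph (-3 * m - 2) x1 - ph (-3 * m - 2) x0 * ph (-3 * m - 2 - 3) x1
      = ph 1 x0 * ph 1 x1 * (vv x1 - vv x0) := by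
  have hw3 : w ^ 3 = 1 := by linear_combination (w - 1) * hw
  have hw0 : w ≠ 0 := by rintro rfl; simp at hw
  have hw2 : w ^ 2 = -w - 1 := by linear_combination hw
  have hw4 : w ^ 4 = w := by linear_combination (w ^ 2 - w) * hw
  have hw5 : w ^ 5 = -w - 1 := by linear_combination (w ^ 3 - w ^ 2 + 1) * hw
  have hw6 : w ^ 6 = 1 := by linear_combination (w ^ 3 + 1) * (w - 1) * hw
  set a : ℤ := -3 * m - 2 with ha
  have h3 : x1 ^ (3 : ℤ) = x0 ^ (-3 : ℤ) := by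
    rw [_root_.zpow_neg]
    apply eq_inv_of_mul_eq_one_right
    rw [← mul_zpow, h]
    have : (w ^ 2) ^ (3 : ℤ) = w ^ 6 := by norm_cast; ring
    rw [this, hw6]
  have hA : x1 ^ a = w ^ 2 * x0 ^ (-a) := by
    have : x0 ^ a * x1 ^ a = w ^ 2 := by
      rw [← mul_zpow, h, ha]
      have : (w ^ 2) ^ ((-3 * m - 2 : ℤ)) = ((w ^ 2) ^ (3 : ℤ)) ^ (-(m : ℤ)) * (w ^ 2) ^ (-2 : ℤ) := by
        rw [← zpow_mul, ← zpow_add₀ (pow_ne_zero 2 hw0)]
        congr 1; ring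
      rw [this]
      have e1 : (w ^ 2) ^ (3 : ℤ) = 1 := by norm_cast; rw [← hw6]; ring
      rw [e1, one_zpow, one_mul, _root_.zpow_neg]
      apply inv_eq_of_mul_eq_one_right
      have : (w ^ 2) ^ (2 : ℤ) = w ^ 4 := by norm_cast; ring
      rw [this, ← hw6]; ring
    rw [_root_.zpow_neg, ← this]
    have : x0 ^ a ≠ 0 := zpow_ne_zero _ hx0
    field_simp
  have hA' : x1 ^ (-a) = w * x0 ^ a := by
    rw [_root_.zpow_neg, hA, _root_.zpow_neg]
    have : x0 ^ a ≠ 0 := zpow_ne_zero _ hx0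
    field_simp
    rw [← hw3]
  have hv : x1⁻¹ = w * x0 := by
    apply inv_eq_of_mul_eq_one_right
    calc x1 * (w * x0) = w * (x0 * x1) := by ring
      _ = w ^ 3 := by rw [h]; ring
      _ = 1 := hw3
  have hx1' : x1 = w ^ 2 * x0⁻¹ := by field_simp; linear_combination h
  have hA0 : x0 ^ a ≠ 0 := zpow_ne_zero _ hx0
  simp only [ph, vv, zpow_one]
  rw [show -(a - 3) = -a + 3 by ring, show a - 3 = a + (-3) by ring,
    zpow_add₀ hx0, zpow_add₀ hx0, zpow_add₀ hx1, zpow_add₀ hx1, hA, hA',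
    _root_.zpow_neg x1 3, h3, _root_.zpow_neg x0 3, inv_inv, _root_.zpow_neg x1 1,
    _root_.zpow_neg x0 1, _root_.zpow_neg x0 a]
  simp only [zpow_one, hv]
  rw [hx1']
  have e3 : x0 ^ (3 : ℤ) = x0 ^ 3 := by norm_cast
  rw [e3]
  generalize x0 ^ a = A at hA0
  field_simp
  ring_nf
  simp only [hw2, hw3, hw4, hw5, hw6]
  ring


theorem prod_map_ofFn {n : ℕ} (f : ℂ → ℂ) (z : Fin n → ℂ) :
    ((List.ofFn z).map f).prod = ∏ i, f (z i) := by
  rw [List.map_ofFn, List.prod_ofFn]; rfl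

theorem Cm_succ (m : ℕ) : Cm (m + 1) = Cm m * (9⁻¹ : ℂ) ^ (m + 1) := by
  simp only [Cm]
  rw [show (9⁻¹ : ℂ) = (3⁻¹) ^ 2 by norm_num, ← pow_mul, ← pow_add]
  congr 1; ring

theorem NF_step (w : ℂ) (hw : w ^ 2 + w + 1 = 0) (m n : ℕ) (hn : n = 2 * m + 2) (z : Fin n → ℂ)
    (hz : ∀ i, z i ≠ 0) (x0 x1 : ℂ) (hx0 : x0 ≠ 0) (hx1 : x1 ≠ 0) (h : x0 * x1 = w ^ 2)
    (H : NFp w m z) :
    NFp w (m + 1) (Fin.cons x0 (Fin.cons x1 z : Fin (n + 1) → ℂ) : Fin (n + 2) → ℂ) := by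
  have hw3 : w ^ 3 = 1 := by linear_combination (w - 1) * hw
  have hw6 : w ^ 6 = 1 := by linear_combination (w ^ 3 + 1) * (w - 1) * hw
  unfold NFp at H ⊢
  rw [List.ofFn_cons, List.ofFn_cons, Z0_alpha w hw x1 x0 (by rw [mul_comm]; exact h),
    prod_map_ofFn, prod_map_ofFn, vd_cons, vd_cons]
  have hP := PM_red n (-3 * m - 2) (Fin.cons x0 (Fin.cons x1 z : Fin (n + 1) → ℂ) : Fin (n + 2) → ℂ)
    (by intro i; refine Fin.cases ?_ (fun i => ?_) i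
        · simpa using hx0
        · refine Fin.cases ?_ (fun i => ?_) i
          · simpa using hx1
          · simpa using hz i)
    (by
      have : ((Fin.cons x0 (Fin.cons x1 z : Fin (n + 1) → ℂ) : Fin (n + 2) → ℂ) 1) = x1 := rfl
      rw [this, Fin.cons_zero, h, ← hw6]; ring)
  have e1 : ((Fin.cons x0 (Fin.cons x1 z : Fin (n + 1) → ℂ) : Fin (n + 2) → ℂ) 1) = x1 := rfl
  have e2 : ∀ k : Fin n, ((Fin.cons x0 (Fin.cons x1 z : Fin (n + 1) → ℂ) : Fin (n + 2) → ℂ)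
      k.succ.succ) = z k := fun k => rfl
  have e3 : (fun k : Fin n => ((Fin.cons x0 (Fin.cons x1 z : Fin (n + 1) → ℂ) : Fin (n + 2) → ℂ)
      k.succ.succ)) = z := rfl
  rw [e3, e1, Fin.cons_zero, ph_key w hw m x0 x1 hx0 hx1 h] at hP
  simp only [e2] at hP
  rw [show (-3 * ((m + 1 : ℕ) : ℤ) - 2 : ℤ) = -3 * (m : ℤ) - 2 - 3 by push_cast; ring, hP]
  simp only [Fin.prod_univ_succ, Fin.cons_zero, Fin.cons_succ]
  have hB : (∏ i, be w (z i * x0)) * (∏ i, be w (z i * x1)) * ((∏ i, (vv (z i) - vv x0)) *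
      (∏ i, (vv (z i) - vv x1))) = (-(w / 3)) ^ n * (∏ i, z i) * ∏ i, (Y3 (z i) - Y3 x0) := by
    rw [← Finset.prod_mul_distrib, ← Finset.prod_mul_distrib, ← Finset.prod_mul_distrib]
    rw [Finset.prod_congr rfl fun i _ => be_key w hw x0 x1 (z i) hx0 hx1 (hz i) h]
    rw [Finset.prod_mul_distrib, Finset.prod_mul_distrib, Finset.prod_const, Finset.card_univ,
      Fintype.card_fin]
  have hC : (-(w / 3)) ^ n = (9⁻¹ : ℂ) ^ (m + 1) * (x0 * x1) ^ (m + 1) := by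
    rw [hn, show 2 * m + 2 = 2 * (m + 1) by ring, pow_mul, ← mul_pow, h]
    congr 1; ring
  rw [Cm_succ]
  have hM : ∏ i, z i ^ (m + 1) = (∏ i, z i ^ m) * ∏ i, z i := by
    rw [← Finset.prod_mul_distrib]; simp only [pow_succ]
  rw [hM]
  rw [hC, mul_pow] at hB
  linear_combination (ph 1 x0 * ph 1 x1 * (vv x1 - vv x0)) *
    ((∏ i, be w (z i * x0)) * (∏ i, be w (z i * x1)) * ((∏ i, (vv (z i) - vv x0)) *
      (∏ i, (vv (z i) - vv x1)))) * H + (ph 1 x0 * ph 1 x1 * (vv x1 - vv x0)) *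
      (Cm m * (∏ i, z i ^ m) * (PM n (-3 * m - 2) z).det) * hB

end Pool.Agent.Y373.OS
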