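import Mathlib
import Pool.Agent.Y373.OS.Wave

set_option autoImplicit false

namespace Pool.Agent.Y373.OS

open Polynomial

noncomputable def mino (m : ℕ) {n : ℕ} (x : Fin n → ℂ) (s : Fin (n + 1)) : ℂ :=
  (Matrix.of fun (i j : Fin n) =>
    ph (3 * ((s.succAbove j : Fin (n + 1)) : ℕ) + (-3 * m - 2)) (x i)).det

theorem PM_cons (m n : ℕ) (y : ℂ) (x : Fin n → ℂ) :
    (PM (n + 1) (-3 * m - 2) (Fin.cons y x)).det
      = ∑ s : Fin (n + 1), (-1) ^ (s : ℕ) * ph (3 * (s : ℕ) + (-3 * m - 2)) y * mino m x s := by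
  rw [Matrix.det_succ_row_zero]
  refine Finset.sum_congr rfl fun s _ => ?_
  simp only [PM, Matrix.of_apply, Fin.cons_zero, mino]
  congr 2

noncomputable def kap {n : ℕ} (x : Fin n → ℂ) : ℂ := (∏ i, ph 1 (x i)) * vd x

noncomputable def LP (w : ℂ) {n : ℕ} (x : Fin n → ℂ) : ℂ[X] :=
  cuP w (List.ofFn x) (Psi0 w (List.ofFn x)) * (X ^ 2 - 1)
    * (∏ i, ((C (x i) - X) * (C (x i) * X - 1))) * C (kap x)

noncomputable def RP (m : ℕ) {n : ℕ} (x : Fin n → ℂ) : ℂ[X] :=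
  C (Cm m * ∏ i, x i ^ (m + 1)) * ∑ s : Fin (n + 1),
    C ((-1) ^ (s : ℕ) * mino m x s) * (X ^ (3 * (s : ℕ)) - X ^ (6 * m + 4 - 3 * (s : ℕ)))

theorem eval_LP (w : ℂ) {n : ℕ} (x : Fin n → ℂ) (y : ℂ) :
    (LP w x).eval y = Z0 w (y :: List.ofFn x) * (y ^ 2 - 1)
      * (∏ i, ((x i - y) * (x i * y - 1))) * kap x := by
  simp only [LP, eval_mul, eval_sub, eval_pow, eval_X, eval_one, eval_C, eval_prod, eval_cuP]
  simp only [Z0, List.length_cons, List.replicate_succ, Psi0]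

theorem eval_RP (m : ℕ) {n : ℕ} (hn : n = 2 * m + 1) (x : Fin n → ℂ) (y : ℂ) (hy : y ≠ 0) :
    (RP m x).eval y = Cm m * (∏ i, x i ^ (m + 1)) * y ^ (3 * m + 2)
      * (PM (n + 1) (-3 * m - 2) (Fin.cons y x)).det := by
  rw [PM_cons]
  simp only [RP, eval_mul, eval_sub, eval_pow, eval_X, eval_C, eval_finsetSum]
  rw [mul_assoc (Cm m * ∏ i, x i ^ (m + 1))]
  congr 1
  rw [Finset.mul_sum]
  refine Finset.sum_congr rfl fun s _ => ?_
  have hs : (s : ℕ) ≤ 2 * m + 1 := by have := s.2; omega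
  have e1 : y ^ (3 * (s : ℕ)) = y ^ (3 * m + 2) * y ^ (3 * ((s : ℕ) : ℤ) + (-3 * m - 2)) := by
    rw [← zpow_natCast, ← zpow_natCast, ← zpow_add₀ hy]
    congr 1; push_cast; ring
  have e2 : y ^ (6 * m + 4 - 3 * (s : ℕ))
      = y ^ (3 * m + 2) * y ^ (-(3 * ((s : ℕ) : ℤ) + (-3 * m - 2))) := by
    rw [← zpow_natCast, ← zpow_natCast, ← zpow_add₀ hy]
    congr 1
    rw [Nat.cast_sub (by omega)]
    push_cast; ring
  rw [e1, e2, ph]
  ring

theorem NF_iff (w : ℂ) (m : ℕ) {n : ℕ} (hn : n = 2 * m + 1) (x : Fin n → ℂ) (y : ℂ) (hy : y ≠ 0)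
    (hx : ∀ i, x i ≠ 0) :
    NFp w m (Fin.cons y x : Fin (n + 1) → ℂ) ↔ (LP w x).eval y = (RP m x).eval y := by
  rw [eval_LP, eval_RP m hn x y hy, NFp, List.ofFn_cons, vd_cons]
  simp only [Fin.prod_univ_succ, Fin.cons_zero, Fin.cons_succ, kap]
  have hF : y ^ (2 * m + 2) * ∏ i, x i ≠ 0 :=
    mul_ne_zero (pow_ne_zero _ hy) (Finset.prod_ne_zero_iff.2 fun i _ => hx i)
  rw [← mul_left_inj' hF]
  have h1 : ph 1 y * y = y ^ 2 - 1 := by
    simp only [ph, zpow_one, _root_.zpow_neg]; field_simp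
  have h2 : (∏ i, (vv (x i) - vv y)) * (y ^ n * ∏ i, x i) = ∏ i, ((x i - y) * (x i * y - 1)) := by
    have : y ^ n = ∏ _i : Fin n, y := by simp
    rw [this, ← Finset.prod_mul_distrib, ← Finset.prod_mul_distrib]
    refine Finset.prod_congr rfl fun i _ => ?_
    rw [← vv_sub (x i) y (hx i) hy]; ring
  have h3 : y ^ (2 * m + 2) = y * y ^ n := by rw [hn]; ring
  have h4 : ∏ i, x i ^ (m + 1) = (∏ i, x i ^ m) * ∏ i, x i := by
    rw [← Finset.prod_mul_distrib]; simp only [pow_succ]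
  rw [← h1, ← h2, h4]
  have l : Z0 w (y :: List.ofFn x) * (ph 1 y * ∏ i, ph 1 (x i)) * ((∏ i, (vv (x i) - vv y)) * vd x) *
      (y ^ (2 * m + 2) * ∏ i, x i) = Z0 w (y :: List.ofFn x) * (ph 1 y * y) *
      ((∏ i, (vv (x i) - vv y)) * (y ^ n * ∏ i, x i)) * ((∏ i, ph 1 (x i)) * vd x) := by
    rw [h3]; ring
  have l2 : Cm m * (y ^ m * ∏ i, x i ^ m) * (PM (n + 1) (-3 * m - 2) (Fin.cons y x)).det *
      (y ^ (2 * m + 2) * ∏ i, x i) = Cm m * ((∏ i, x i ^ m) * ∏ i, x i) * y ^ (3 * m + 2) *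
      (PM (n + 1) (-3 * m - 2) (Fin.cons y x)).det := by
    have : y ^ (3 * m + 2) = y ^ m * y ^ (2 * m + 2) := by ring
    rw [this]; ring
  rw [l, l2]

theorem natDegree_LP (w : ℂ) (m : ℕ) {n : ℕ} (hn : n = 2 * m + 1) (x : Fin n → ℂ) :
    (LP w x).natDegree ≤ 6 * m + 4 := by
  have h1 : (cuP w (List.ofFn x) (Psi0 w (List.ofFn x))).natDegree ≤ 2 * m := by
    by_cases h0 : cuP w (List.ofFn x) (Psi0 w (List.ofFn x)) = 0
    · rw [h0]; simp
    · have := degree_cuP w (List.ofFn x) (Psi0 w (List.ofFn x))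
      rw [← natDegree_lt_iff_degree_lt h0, List.length_ofFn] at this
      omega
  have h2 : (X ^ 2 - 1 : ℂ[X]).natDegree ≤ 2 := by compute_degree
  have h3 : (∏ i, ((C (x i) - X) * (C (x i) * X - 1))).natDegree ≤ 2 * n := by
    refine (natDegree_prod_le _ _).trans ?_
    calc ∑ i, ((C (x i) - X) * (C (x i) * X - 1) : ℂ[X]).natDegree ≤ ∑ _i : Fin n, 2 :=
          Finset.sum_le_sum fun i _ => by compute_degree
      _ = 2 * n := by simp [mul_comm]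
  unfold LP
  refine (natDegree_mul_le).trans ?_
  rw [natDegree_C, add_zero]
  refine (natDegree_mul_le).trans ?_
  have := (natDegree_mul_le (p := cuP w (List.ofFn x) (Psi0 w (List.ofFn x))) (q := X ^ 2 - 1))
  omega

theorem natDegree_RP (m : ℕ) {n : ℕ} (hn : n = 2 * m + 1) (x : Fin n → ℂ) :
    (RP m x).natDegree ≤ 6 * m + 4 := by
  unfold RP
  refine (natDegree_C_mul_le _ _).trans ?_
  refine natDegree_sum_le_of_forall_le _ _ fun s _ => ?_
  refine (natDegree_C_mul_le _ _).trans ?_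
  refine (natDegree_sub_le _ _).trans ?_
  rw [natDegree_X_pow, natDegree_X_pow]
  have hs : (s : ℕ) ≤ 2 * m + 1 := by have := s.2; omega
  refine max_le ?_ ?_ <;> omega

end Pool.Agent.Y373.OS
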