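import Mathlib
import Pool.Agent.Y373.OS.Interp

set_option autoImplicit false

namespace Pool.Agent.Y373.OS

open Polynomial

theorem w_ne_real (w : ℂ) (hw : w ^ 2 + w + 1 = 0) (a : ℝ) : w ≠ a := by
  rintro rfl
  have h : a ^ 2 + a + 1 = 0 := by exact_mod_cast hw
  nlinarith [sq_nonneg (a + 1 / 2)]

theorem w2 (w : ℂ) (hw : w ^ 2 + w + 1 = 0) : (w ^ 2) ^ 2 + w ^ 2 + 1 = 0 := by
  linear_combination (w ^ 2 - w + 1) * hw

theorem w_ne0 (w : ℂ) (hw : w ^ 2 + w + 1 = 0) : w ≠ 0 := by rintro rfl; simp at hw

/-- being the image of a nonzero real number -/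
def NR (z : ℂ) : Prop := ∃ a : ℝ, a ≠ 0 ∧ z = a

theorem NR_sub (w : ℂ) (hw : w ^ 2 + w + 1 = 0) (x y : ℂ) (hx : NR x) (hy : NR y) :
    x - w * y ≠ 0 := by
  obtain ⟨a, ha, rfl⟩ := hx
  obtain ⟨b, hb, rfl⟩ := hy
  intro h
  have hb' : (b : ℂ) ≠ 0 := by exact_mod_cast hb
  refine w_ne_real w hw (a / b) ?_
  push_cast
  field_simp
  linear_combination -h

theorem NR_add (w : ℂ) (hw : w ^ 2 + w + 1 = 0) (x : ℂ) (hx : NR x) :
    1 + w ^ 2 * x ≠ 0 := by
  obtain ⟨a, ha, rfl⟩ := hx
  intro h
  have ha' : (a : ℂ) ≠ 0 := by exact_mod_cast ha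
  refine w_ne_real (w ^ 2) (w2 w hw) (-1 / a) ?_
  push_cast
  field_simp
  linear_combination h

theorem ph_inv (k : ℤ) (x : ℂ) : ph k x⁻¹ = - ph k x := by
  simp only [ph, inv_zpow', neg_neg]; ring

theorem interp (w : ℂ) (hw : w ^ 2 + w + 1 = 0) (m : ℕ) {n : ℕ} (hn : n = 2 * m + 1)
    (r : Fin n → ℝ) (hr : ∀ i, 1 < r i) (hinj : Function.Injective r)
    (hk : ∀ j, (LP w (fun i => (r i : ℂ))).eval (w ^ 2 / r j)
      = (RP m (fun i => (r i : ℂ))).eval (w ^ 2 / r j)) :
    LP w (fun i => (r i : ℂ)) = RP m (fun i => (r i : ℂ)) := by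
  have hr0 : ∀ i, (r i : ℂ) ≠ 0 := fun i => by
    have := hr i; exact_mod_cast (by linarith : r i ≠ 0)
  have hr0' : ∀ i, r i ≠ 0 := fun i => by have := hr i; linarith
  set f : ℂ[X] := LP w (fun i => (r i : ℂ)) - RP m (fun i => (r i : ℂ)) with hf
  have hw0 := w_ne0 w hw
  set v : Bool ⊕ (Fin n ⊕ (Fin n ⊕ Fin n)) → ℂ :=
    Sum.elim (fun b => if b then 1 else -1) (Sum.elim (fun i => (r i : ℂ))
      (Sum.elim (fun i => (r i : ℂ)⁻¹) (fun i => w ^ 2 / r i))) with hv
  have hinj2 : Function.Injective v := by
    have hwr : ∀ (a : ℝ) (i : Fin n), (a : ℂ) ≠ w ^ 2 / r i := by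
      intro a i h
      refine w_ne_real (w ^ 2) (w2 w hw) (a * r i) ?_
      rw [eq_div_iff (hr0 i)] at h
      push_cast
      rw [h]
    refine Function.Injective.sumElim ?_ ?_ ?_
    · intro a b h
      cases a <;> cases b <;> simp at h ⊢
      · norm_num at h
      · norm_num at h
    · refine Function.Injective.sumElim ?_ ?_ ?_
      · intro a b h
        simp only at h
        exact hinj (by exact_mod_cast h)
      · refine Function.Injective.sumElim ?_ ?_ ?_
        · intro a b h
          exact hinj (by exact_mod_cast (inv_injective h))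
        · intro a b h
          simp only at h
          have : (r a : ℂ) = r b := by
            have h1 := hr0 a
            have h2 := hr0 b
            field_simp at h
            exact h.symm
          exact hinj (by exact_mod_cast this)
        · intro a b
          have := hwr (r a)⁻¹ b
          rwa [Complex.ofReal_inv] at this
      · intro a b
        rcases b with b | b
        · simp only [Sum.elim_inl]
          intro h
          have h' : r a = (r b)⁻¹ := by exact_mod_cast h
          have h1 := hr a
          have h2 := inv_lt_one_of_one_lt₀ (hr b)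
          linarith
        · simp only [Sum.elim_inr]
          exact hwr (r a) b
    · intro a b
      rcases b with b | b | b
      · simp only [Sum.elim_inl, Sum.elim_inr]
        intro h
        have h1 := hr b
        cases a
        · simp at h
          have : (-1 : ℝ) = r b := by exact_mod_cast h
          linarith
        · simp at h
          have : (1 : ℝ) = r b := by exact_mod_cast h
          linarith
      · simp only [Sum.elim_inl, Sum.elim_inr]
        intro h
        have h2 := inv_lt_one_of_one_lt₀ (hr b)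
        have h3 : 0 < (r b)⁻¹ := inv_pos.2 (by have := hr b; linarith)
        cases a
        · simp only [Bool.false_eq_true, if_false] at h
          have : (-1 : ℝ) = (r b)⁻¹ := by exact_mod_cast h
          linarith
        · simp only [if_true] at h
          have : (1 : ℝ) = (r b)⁻¹ := by exact_mod_cast h
          linarith
      · simp only [Sum.elim_inr]
        cases a
        · have := hwr (-1) b
          simpa using this
        · have := hwr 1 b
          simpa using this
  have hf0 : f = 0 := by
    refine Polynomial.eq_zero_of_degree_lt_of_eval_index_eq_zero (Finset.univ)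
      (hinj2.injOn) ?_ ?_
    · have h1 := natDegree_LP w m hn (fun i => (r i : ℂ))
      have h2 := natDegree_RP m hn (fun i => (r i : ℂ))
      have h3 : f.natDegree ≤ 6 * m + 4 := (natDegree_sub_le _ _).trans (max_le h1 h2)
      refine lt_of_le_of_lt (degree_le_of_natDegree_le h3) ?_
      simp only [Finset.card_univ, Fintype.card_sum, Fintype.card_bool, Fintype.card_fin]
      rw [hn]
      exact_mod_cast (by omega)
    · intro i _
      rw [hf, eval_sub, sub_eq_zero]
      have hD : ∀ j, (RP m (fun i => (r i : ℂ))).eval (r j : ℂ) = 0 ∧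
          ∑ s : Fin (n + 1), (-1 : ℂ) ^ (s : ℕ) * ph (3 * (s : ℕ) + (-3 * m - 2)) (r j)
            * mino m (fun i => (r i : ℂ)) s = 0 := by
        intro j
        have h0 : (PM (n + 1) (-3 * m - 2)
            (Fin.cons (r j : ℂ) (fun i => (r i : ℂ)) : Fin (n + 1) → ℂ)).det = 0 := by
          refine Matrix.det_zero_of_row_eq (i := 0) (j := j.succ) (Fin.succ_ne_zero j).symm ?_
          funext s
          simp [PM]
        constructor
        · rw [eval_RP m hn _ _ (hr0 j), h0, mul_zero]
        · rw [← PM_cons]; exact h0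
      rcases i with b | j | j | j
      · have e : (v (Sum.inl b)) ^ 2 = 1 := by cases b <;> simp [hv]
        rw [eval_LP, e, sub_self, mul_zero, zero_mul, zero_mul]
        symm
        rw [RP, eval_mul, eval_finsetSum, Finset.sum_eq_zero, mul_zero]
        intro s _
        have hs : (s : ℕ) ≤ 2 * m + 1 := by have := s.2; omega
        rw [eval_mul, eval_sub, eval_pow, eval_pow, eval_X]
        have : (v (Sum.inl b)) ^ (3 * (s : ℕ)) = (v (Sum.inl b)) ^ (6 * m + 4 - 3 * (s : ℕ)) := by
          have e2 : ∀ k, (v (Sum.inl b)) ^ (2 * k) = 1 := fun k => by rw [pow_mul, e, one_pow]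
          rcases Nat.even_or_odd' (s : ℕ) with ⟨k, hk | hk⟩
          · rw [hk, show 3 * (2 * k) = 2 * (3 * k) by ring,
              show 6 * m + 4 - 2 * (3 * k) = 2 * (3 * m + 2 - 3 * k) by omega, e2, e2]
          · rw [hk, show 3 * (2 * k + 1) = 2 * (3 * k + 1) + 1 by ring,
              show 6 * m + 4 - (2 * (3 * k + 1) + 1) = 2 * (3 * m - 3 * k) + 1 by omega, pow_succ,
              pow_succ, e2, e2]
        rw [this, sub_self, mul_zero]
      · simp only [hv, Sum.elim_inr, Sum.elim_inl]
        rw [(hD j).1, eval_LP, Finset.prod_eq_zero (Finset.mem_univ j), mul_zero, zero_mul]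
        rw [sub_self, zero_mul]
      · simp only [hv, Sum.elim_inr, Sum.elim_inl]
        rw [eval_RP m hn _ _ (inv_ne_zero (hr0 j)), eval_LP,
          Finset.prod_eq_zero (Finset.mem_univ j), mul_zero, zero_mul]
        · rw [PM_cons]
          have := (hD j).2
          have e : ∑ s : Fin (n + 1), (-1 : ℂ) ^ (s : ℕ) * ph (3 * (s : ℕ) + (-3 * m - 2)) (r j : ℂ)⁻¹
            * mino m (fun i => (r i : ℂ)) s = -∑ s : Fin (n + 1), (-1 : ℂ) ^ (s : ℕ) * ph (3 * (s : ℕ) + (-3 * m - 2)) (r j)
            * mino m (fun i => (r i : ℂ)) s := by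
            rw [← Finset.sum_neg_distrib]
            refine Finset.sum_congr rfl fun s _ => ?_
            rw [ph_inv]; ring
          rw [e, this, neg_zero, mul_zero]
        · rw [mul_inv_cancel₀ (hr0 j), sub_self, mul_zero]
      · simp only [hv, Sum.elim_inr]
        exact hk j
  rw [hf, sub_eq_zero] at hf0
  exact hf0

end Pool.Agent.Y373.OS
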