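import Mathlib
import Pool.Agent.Y373.OS.Main0

set_option autoImplicit false

namespace Pool.Agent.Y373.OS

open Polynomial

theorem mino_perm (m : ℕ) {n : ℕ} (x : Fin n → ℂ) (σ : Equiv.Perm (Fin n)) (s : Fin (n + 1)) :
    mino m (x ∘ σ) s = (Equiv.Perm.sign σ : ℤ) * mino m x s := by
  rw [mino, mino, ← Matrix.det_permute]
  rfl

theorem kap_perm {n : ℕ} (x : Fin n → ℂ) (σ : Equiv.Perm (Fin n)) :
    kap (x ∘ σ) = (Equiv.Perm.sign σ : ℤ) * kap x := by
  have h : vd (x ∘ σ) = (Equiv.Perm.sign σ : ℤ) * vd x := by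
    rw [vd, vd, ← Matrix.det_permute]
    rfl
  rw [kap, kap, h]
  have : ∏ i, ph 1 ((x ∘ σ) i) = ∏ i, ph 1 (x i) := Equiv.prod_comp σ (fun i => ph 1 (x i))
  rw [this]; ring

theorem Z0_perm_ofFn (w : ℂ) (hw : w ^ 2 + w + 1 = 0) {n : ℕ} (x : Fin n → ℂ)
    (hx : ∀ i, NR (x i)) (σ : Equiv.Perm (Fin n)) (A : List ℂ) :
    Z0 w (A ++ List.ofFn (x ∘ σ)) = Z0 w (A ++ List.ofFn x) := by
  refine Z0_perm w hw (by norm_num) NR (NR_sub w hw) (Equiv.Perm.ofFn_comp_perm σ x) ?_ A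
  intro z hz
  rw [List.mem_ofFn'] at hz
  obtain ⟨i, rfl⟩ := hz
  exact hx _

theorem LP_perm (w : ℂ) (hw : w ^ 2 + w + 1 = 0) {n : ℕ} (x : Fin n → ℂ)
    (hx : ∀ i, NR (x i)) (σ : Equiv.Perm (Fin n)) (y : ℂ) :
    (LP w (x ∘ σ)).eval y = (Equiv.Perm.sign σ : ℤ) * (LP w x).eval y := by
  rw [eval_LP, eval_LP, kap_perm]
  have h := Z0_perm_ofFn w hw x hx σ [y]
  simp only [List.singleton_append] at h
  rw [h]
  have : ∏ i, (((x ∘ σ) i - y) * ((x ∘ σ) i * y - 1)) = ∏ i, ((x i - y) * (x i * y - 1)) :=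
    Equiv.prod_comp σ (fun i => (x i - y) * (x i * y - 1))
  rw [this]; ring

theorem RP_perm (m : ℕ) {n : ℕ} (x : Fin n → ℂ) (σ : Equiv.Perm (Fin n)) (y : ℂ) :
    (RP m (x ∘ σ)).eval y = (Equiv.Perm.sign σ : ℤ) * (RP m x).eval y := by
  rw [RP, RP, eval_mul, eval_mul, eval_finsetSum, eval_finsetSum, Finset.mul_sum, Finset.mul_sum,
    Finset.mul_sum]
  refine Finset.sum_congr rfl fun s _ => ?_
  have : ∏ i, (x ∘ σ) i ^ (m + 1) = ∏ i, x i ^ (m + 1) :=
    Equiv.prod_comp σ (fun i => x i ^ (m + 1))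
  rw [this, mino_perm]
  simp only [eval_mul, eval_C]
  ring

theorem base_key (x y : ℂ) (hx : x ≠ 0) (hy : y ≠ 0) :
    (ph 1 y * ph 1 x) * (vv x - vv y)
      = ph (-2) y * ph 1 x - ph 1 y * ph (-2) x := by
  simp only [ph, vv, _root_.zpow_neg, zpow_one, inv_inv, neg_neg]
  have e : ∀ u : ℂ, u ^ (2 : ℤ) = u ^ 2 := fun u => by norm_cast
  rw [e, e]
  field_simp
  ring

theorem NF_base (w : ℂ) (x y : ℂ) (hx : x ≠ 0) (hy : y ≠ 0) :
    NFp w 0 (Fin.cons y (fun _ : Fin 1 => x) : Fin 2 → ℂ) := by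
  unfold NFp
  rw [List.ofFn_cons, List.ofFn_succ, List.ofFn_zero]
  have h : Z0 w [y, x] = 1 := by simp [Z0, Psi0, cu]
  rw [h, vd_cons]
  have h2 : (vd fun _ : Fin 1 => x) = 1 := by simp [vd, Matrix.vandermonde]
  have hd : (PM 2 (-3 * ((0 : ℕ) : ℤ) - 2) (Fin.cons y (fun _ : Fin 1 => x) : Fin 2 → ℂ)).det
      = ph (-2) y * ph 1 x - ph 1 y * ph (-2) x := by
    rw [Matrix.det_fin_two]
    simp only [PM, Matrix.of_apply]
    have h3 : ((Fin.cons y (fun _ : Fin 1 => x) : Fin 2 → ℂ) 1) = x := rfl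
    rw [h3]
    simp
  rw [h2, Fin.prod_univ_two, hd]
  simp only [Fin.cons_zero, Finset.univ_unique, Finset.prod_const, Finset.card_singleton, pow_one,
    Cm, pow_zero]
  have h3 : ((Fin.cons y (fun _ : Fin 1 => x) : Fin 2 → ℂ) 1) = x := rfl
  rw [h3]
  have := base_key x y hx hy
  simp
  linear_combination this

theorem PP (w : ℂ) (hw : w ^ 2 + w + 1 = 0) (m : ℕ) : ∀ (n : ℕ), n = 2 * m + 1 →
    ∀ (r : Fin n → ℝ), (∀ i, 1 < r i) → Function.Injective r →
    LP w (fun i => (r i : ℂ)) = RP m (fun i => (r i : ℂ)) := by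
  have hw0 := w_ne0 w hw
  induction m with
  | zero =>
    intro n hn r hr hinj
    refine interp w hw 0 hn r hr hinj fun j => ?_
    have hn' : n = 1 := by omega
    subst hn'
    have hr0 : ∀ i, (r i : ℂ) ≠ 0 := fun i => by
      have := hr i; exact_mod_cast (by linarith : r i ≠ 0)
    rw [← NF_iff w 0 (by norm_num) _ _ (div_ne_zero (pow_ne_zero _ hw0) (hr0 j)) hr0]
    have : (fun i : Fin 1 => (r i : ℂ)) = fun _ => (r 0 : ℂ) := by
      funext i; rw [Subsingleton.elim i 0]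
    rw [this]
    exact NF_base w _ _ (hr0 0) (div_ne_zero (pow_ne_zero _ hw0) (hr0 j))
  | succ m ih =>
    intro n hn r hr hinj
    obtain ⟨n', rfl⟩ : ∃ n', n = n' + 2 := ⟨2 * m + 1, by omega⟩
    have hn' : n' = 2 * m + 1 := by omega
    -- special index
    have key : ∀ (r : Fin (n' + 2) → ℝ), (∀ i, 1 < r i) → Function.Injective r →
        (LP w (fun i => (r i : ℂ))).eval (w ^ 2 / r 0)
          = (RP (m + 1) (fun i => (r i : ℂ))).eval (w ^ 2 / r 0) := by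
      intro r hr hinj
      have hr0 : ∀ i, (r i : ℂ) ≠ 0 := fun i => by
        have := hr i; exact_mod_cast (by linarith : r i ≠ 0)
      have hy : w ^ 2 / (r 0 : ℂ) ≠ 0 := div_ne_zero (pow_ne_zero _ hw0) (hr0 0)
      rw [← NF_iff w (m + 1) hn _ _ hy hr0]
      have hi := ih n' hn' (fun i => r i.succ.succ) (fun i => hr _)
        (fun a b h => by simpa using hinj h)
      have h1 : NFp w m (Fin.cons (r 1 : ℂ) (fun i : Fin n' => (r i.succ.succ : ℂ))
          : Fin (n' + 1) → ℂ) := by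
        rw [NF_iff w m hn' _ _ (hr0 1) (fun i => hr0 _), hi]
      have e1 : (fun i : Fin (n' + 1) => (r i.succ : ℂ))
          = (Fin.cons (r 1 : ℂ) (fun i : Fin n' => (r i.succ.succ : ℂ)) : Fin (n' + 1) → ℂ) := by
        funext i
        refine Fin.cases ?_ (fun i => ?_) i
        · simp
        · simp
      have e0 : (fun i : Fin (n' + 2) => (r i : ℂ))
          = (Fin.cons (r 0 : ℂ) (fun i : Fin (n' + 1) => (r i.succ : ℂ)) : Fin (n' + 2) → ℂ) := by
        funext i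
        refine Fin.cases ?_ (fun i => ?_) i
        · simp
        · simp
      rw [← e1] at h1
      have := NF_step w hw m (n' + 1) (by omega) (fun i : Fin (n' + 1) => (r i.succ : ℂ))
        (fun i => hr0 _) (w ^ 2 / (r 0 : ℂ)) (r 0) hy (hr0 0)
        (by have := hr0 0; field_simp) h1
      rw [e0]
      exact this
    refine interp w hw (m + 1) hn r hr hinj fun j => ?_
    have k := key (r ∘ Equiv.swap 0 j) (fun i => hr _) (hinj.comp (Equiv.injective _))
    have ec : (fun i => (((r ∘ Equiv.swap 0 j) i : ℝ) : ℂ))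
        = (fun i => (r i : ℂ)) ∘ (Equiv.swap 0 j) := rfl
    rw [ec, LP_perm w hw _ (fun i => ⟨r i, by have := hr i; linarith, rfl⟩), RP_perm] at k
    simp only [Function.comp_apply, Equiv.swap_apply_left] at k
    have hs : (((Equiv.Perm.sign (Equiv.swap 0 j) : ℤˣ) : ℤ) : ℂ) ≠ 0 := by
      have := (Equiv.Perm.sign (Equiv.swap 0 j) : ℤˣ).ne_zero
      exact_mod_cast this
    exact mul_left_cancel₀ hs k

end Pool.Agent.Y373.OS
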