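import Mathlib
import Pool.Agent.Y373.OS.Main1

set_option autoImplicit false

namespace Pool.Agent.Y373.OS

open Polynomial

/-- image of a real number larger than one -/
def P1 (z : ℂ) : Prop := ∃ a : ℝ, 1 < a ∧ z = a

theorem P1.NR {z : ℂ} (h : P1 z) : NR z := by
  obtain ⟨a, ha, rfl⟩ := h
  exact ⟨a, by linarith, rfl⟩

theorem P1.ne0 {z : ℂ} (h : P1 z) : z ≠ 0 := by
  obtain ⟨a, ha, rfl⟩ := h
  exact_mod_cast (by linarith : a ≠ 0)

theorem P1.ph_ne {z : ℂ} (h : P1 z) : ph 1 z ≠ 0 := by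
  obtain ⟨a, ha, rfl⟩ := h
  simp only [ph, zpow_one, _root_.zpow_neg]
  have h1 : a⁻¹ < 1 := inv_lt_one_of_one_lt₀ ha
  have : a - a⁻¹ ≠ 0 := by linarith
  exact_mod_cast this

theorem P1.vv_inj {x y : ℂ} (hx : P1 x) (hy : P1 y) (h : vv x = vv y) : x = y := by
  have h1 := vv_sub x y hx.ne0 hy.ne0
  obtain ⟨a, ha, rfl⟩ := hx
  obtain ⟨b, hb, rfl⟩ := hy
  rw [h, sub_self, zero_mul] at h1
  have h2 : (a - b) * (a * b - 1) = 0 := by exact_mod_cast h1.symm
  rcases mul_eq_zero.1 h2 with h3 | h3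
  · have : a = b := by linarith
    rw [this]
  · nlinarith

theorem vd_ne {n : ℕ} (x : Fin n → ℂ) (hx : ∀ i, P1 (x i)) (hinj : Function.Injective x) :
    vd x ≠ 0 := by
  rw [vd, Matrix.det_vandermonde_ne_zero_iff]
  intro i j h
  exact hinj (P1.vv_inj (hx i) (hx j) h)

theorem kap_ne {n : ℕ} (x : Fin n → ℂ) (hx : ∀ i, P1 (x i)) (hinj : Function.Injective x) :
    kap x ≠ 0 :=
  mul_ne_zero (Finset.prod_ne_zero_iff.2 fun i _ => (hx i).ph_ne) (vd_ne x hx hinj)

theorem PP' (w : ℂ) (hw : w ^ 2 + w + 1 = 0) (m : ℕ) (n : ℕ) (hn : n = 2 * m + 1)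
    (x : Fin n → ℂ) (hx : ∀ i, P1 (x i)) (hinj : Function.Injective x) :
    LP w x = RP m x := by
  choose r hr hxr using hx
  have : x = fun i => (r i : ℂ) := funext hxr
  subst this
  refine PP w hw m n hn r hr ?_
  intro i j h
  exact hinj (by simp [h])

theorem Z0_sq (w : ℂ) (hw : w ^ 2 + w + 1 = 0) (m : ℕ) (xs : List ℂ) (hl : xs.length = 2 * m)
    (h1 : ∀ x ∈ xs, P1 x) (hn : xs.Nodup) : Z0 (w ^ 2) xs = Z0 w xs := by
  cases m with
  | zero =>
    have : xs = [] := List.length_eq_zero_iff.1 (by simpa using hl)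
    subst this
    simp [Z0, Psi0]
  | succ m =>
    cases xs with
    | nil => simp at hl
    | cons y xs =>
      have hl' : xs.length = 2 * m + 1 := by simp at hl; omega
      have hx : ∀ i, P1 (xs.get i) := fun i => h1 _ (by simp)
      have hinj : Function.Injective xs.get := List.nodup_iff_injective_get.1 (List.nodup_cons.1 hn).2
      have e1 := PP' w hw m _ hl' xs.get hx hinj
      have e2 := PP' (w ^ 2) (w2 w hw) m _ hl' xs.get hx hinj
      have e3 := congrArg (fun p => p.eval y) (e2.trans e1.symm)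
      simp only [eval_LP, List.ofFn_get] at e3
      have hy : P1 y := h1 y (by simp)
      have hne : (y ^ 2 - 1) * (∏ i, ((xs.get i - y) * (xs.get i * y - 1))) * kap xs.get ≠ 0 := by
        refine mul_ne_zero (mul_ne_zero ?_ ?_) (kap_ne _ hx hinj)
        · have := hy.ph_ne
          have h2 : ph 1 y * y = y ^ 2 - 1 := by
            have := hy.ne0
            simp only [ph, zpow_one, _root_.zpow_neg]; field_simp
          rw [← h2]
          exact mul_ne_zero this hy.ne0
        · rw [Finset.prod_ne_zero_iff]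
          intro i _
          have hi := hx i
          have hne : xs.get i ≠ y := by
            intro h
            exact (List.nodup_cons.1 hn).1 (h ▸ List.get_mem xs i)
          rw [← vv_sub _ _ hi.ne0 hy.ne0]
          refine mul_ne_zero (sub_ne_zero.2 fun h => hne (P1.vv_inj hi hy h))
            (mul_ne_zero hi.ne0 hy.ne0)
      refine mul_right_cancel₀ hne ?_
      linear_combination e3

end Pool.Agent.Y373.OS
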