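import Mathlib
import Pool.Agent.Y373.OS.Rel

set_option autoImplicit false

namespace Pool.Agent.Y373.OS

open Polynomial

noncomputable def gg (x : ℂ) : ℂ := (1 + x) / (1 - x + x ^ 2)

theorem al_sq (w p : ℂ) (hw : w ^ 2 + w + 1 = 0) : al (w ^ 2) p = be w p := by
  simp only [al, be]; linear_combination (-p / 3 + 1 / 3) * hw

theorem be_sq (w p : ℂ) (hw : w ^ 2 + w + 1 = 0) : be (w ^ 2) p = al w p := by
  simp only [al, be]; linear_combination (p / 3 - 1 / 3) * hw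

theorem P1.quad_ne {z : ℂ} (h : P1 z) : 1 - z + z ^ 2 ≠ 0 := by
  obtain ⟨a, ha, rfl⟩ := h
  have : 1 - a + a ^ 2 ≠ 0 := by nlinarith
  exact_mod_cast this

theorem quad_eq (w z : ℂ) (hw : w ^ 2 + w + 1 = 0) :
    1 - z + z ^ 2 = (1 + w * z) * (1 + w ^ 2 * z) := by
  have hw3 : w ^ 3 = 1 := by linear_combination (w - 1) * hw
  linear_combination -z * hw - z ^ 2 * hw3

theorem prod_map_const_mul (c : ℂ) (f g : ℂ → ℂ) (xs : List ℂ) (h : ∀ x ∈ xs, f x = c * g x) :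
    (xs.map f).prod = c ^ xs.length * (xs.map g).prod := by
  induction xs with
  | nil => simp
  | cons x xs ih =>
    simp only [List.map_cons, List.prod_cons, List.length_cons]
    rw [ih (fun y hy => h y (List.mem_cons_of_mem _ hy)), h x (by simp)]
    ring

theorem Z1_cons (w : ℂ) (y : ℂ) (xs : List ℂ) :
    Z1 w (y :: xs) = (cuP w xs (Psi1 w xs)).eval y
      + bw w y true * ((xs.map fun x => be w (x * y)).prod * Z0 w xs) := by
  rw [eval_cuP, Z1, List.length_cons, List.replicate_succ, Psi1, Bool.not_true]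
  have := cu_ft w y xs (Psi0 w xs)
  rw [TT] at this ⊢
  rw [this, Z0]

theorem Z0_cons (w : ℂ) (y : ℂ) (xs : List ℂ) :
    Z0 w (y :: xs) = (cuP w xs (Psi0 w xs)).eval y := by
  rw [eval_cuP, Z0, List.length_cons, List.replicate_succ, Psi0]

noncomputable def SP (w : ℂ) (xs : List ℂ) : ℂ[X] :=
  (cuP w xs (Psi1 w xs) + cuP (w ^ 2) xs (Psi1 (w ^ 2) xs)) * ((1 + C (w ^ 2) * X) * (1 + C w * X))
   + (C (-w * Z0 w xs) * (1 + C w * X)) * prodBe w xs
   + (C (-w ^ 2 * Z0 (w ^ 2) xs) * (1 + C (w ^ 2) * X)) * prodBe (w ^ 2) xs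

noncomputable def TP (w : ℂ) (m : ℕ) (xs : List ℂ) : ℂ[X] :=
  (C ((-3) ^ m * (xs.map gg).prod) * (1 + X)) * cuP w ((-1) :: xs) (Psi0 w ((-1) :: xs))

theorem eval_TP (w : ℂ) (m : ℕ) (xs : List ℂ) (y : ℂ) :
    (TP w m xs).eval y = (-3) ^ m * (xs.map gg).prod * (1 + y) * Z0 w (y :: (-1) :: xs) := by
  rw [Z0_cons, TP]
  simp only [eval_mul, eval_add, eval_C, eval_one, eval_X]

theorem eval_SP (w : ℂ) (hw : w ^ 2 + w + 1 = 0) (xs : List ℂ) (y : ℂ) (h1 : 1 + w ^ 2 * y ≠ 0)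
    (h2 : 1 + w * y ≠ 0) :
    (SP w xs).eval y = (1 + w ^ 2 * y) * (1 + w * y) * (Z1 w (y :: xs) + Z1 (w ^ 2) (y :: xs)) := by
  have hw4 : (w ^ 2) ^ 2 = w := by linear_combination (w ^ 2 - w) * hw
  rw [Z1_cons, Z1_cons, SP]
  simp only [eval_mul, eval_add, eval_C, eval_one, eval_X, eval_prodBe, bw, if_true, hw4]
  field_simp
  ring

theorem degree_SP (w : ℂ) (xs : List ℂ) : (SP w xs).degree < ((xs.length + 2 : ℕ) : WithBot ℕ) := by
  have hq : ((1 + C (w ^ 2) * X) * (1 + C w * X) : ℂ[X]).degree ≤ 2 := by compute_degree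
  have h1 : (cuP w xs (Psi1 w xs) + cuP (w ^ 2) xs (Psi1 (w ^ 2) xs)).degree < (xs.length : WithBot ℕ) :=
    lt_of_le_of_lt (degree_add_le _ _) (max_lt (degree_cuP _ _ _) (degree_cuP _ _ _))
  unfold SP
  refine lt_of_le_of_lt (degree_add_le _ _) (max_lt ?_ ?_)
  · refine lt_of_le_of_lt (degree_add_le _ _) (max_lt ?_ ?_)
    · refine lt_of_le_of_lt (degree_mul_le _ _) ?_
      calc _ ≤ (cuP w xs (Psi1 w xs) + cuP (w ^ 2) xs (Psi1 (w ^ 2) xs)).degree + 2 := by gcongr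
        _ < _ := by
          push_cast
          exact WithBot.add_lt_add_right (by decide) h1
    · refine lt_of_le_of_lt (degree_mul_le _ _) ?_
      have a1 : (C (-w * Z0 w xs) * (1 + C w * X) : ℂ[X]).degree ≤ 1 := by compute_degree
      calc _ ≤ (1 : WithBot ℕ) + (xs.length : WithBot ℕ) := add_le_add a1 (degree_prodBe w xs)
        _ < _ := by exact_mod_cast (by omega : 1 + xs.length < xs.length + 2)
  · refine lt_of_le_of_lt (degree_mul_le _ _) ?_
    have a1 : (C (-w ^ 2 * Z0 (w ^ 2) xs) * (1 + C (w ^ 2) * X) : ℂ[X]).degree ≤ 1 := by compute_degree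
    calc _ ≤ (1 : WithBot ℕ) + (xs.length : WithBot ℕ) := add_le_add a1 (degree_prodBe (w ^ 2) xs)
      _ < _ := by exact_mod_cast (by omega : 1 + xs.length < xs.length + 2)

theorem degree_TP (w : ℂ) (m : ℕ) (xs : List ℂ) :
    (TP w m xs).degree < ((xs.length + 2 : ℕ) : WithBot ℕ) := by
  unfold TP
  have a1 : (C ((-3) ^ m * (xs.map gg).prod) * (1 + X) : ℂ[X]).degree ≤ 1 := by compute_degree
  have h1 := degree_cuP w ((-1) :: xs) (Psi0 w ((-1) :: xs))
  refine lt_of_le_of_lt (degree_mul_le _ _) ?_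
  calc _ ≤ (1 : WithBot ℕ) + (cuP w ((-1) :: xs) (Psi0 w ((-1) :: xs))).degree := by gcongr
    _ < _ := by
      rw [add_comm]
      have : ((xs.length + 2 : ℕ) : WithBot ℕ) = (((-1 : ℂ) :: xs).length : WithBot ℕ) + 1 := by
        simp only [List.length_cons]; push_cast; rw [add_assoc]; norm_num
      rw [this]
      exact WithBot.add_lt_add_right (by decide) h1

end Pool.Agent.Y373.OS
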