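import Mathlib
import Pool.Agent.Y373.OS.Star

set_option autoImplicit false

namespace Pool.Agent.Y373.OS

open Polynomial

theorem NR_neg_one : NR (-1) := ⟨-1, by norm_num, by norm_num⟩

/-- moving an element of the list to the end / permuting behind a first element -/
theorem Z0_perm1 (w : ℂ) (hw : w ^ 2 + w + 1 = 0) (y : ℂ) {l l' : List ℂ} (h : l.Perm l')
    (hl : ∀ x ∈ l, NR x) : Z0 w (y :: l) = Z0 w (y :: l') := by
  have := Z0_perm w hw (by norm_num) NR (NR_sub w hw) h hl [y]
  simpa using this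

theorem Z1_perm1 (w : ℂ) (hw : w ^ 2 + w + 1 = 0) (y : ℂ) {l l' : List ℂ} (h : l.Perm l')
    (hl : ∀ x ∈ l, NR x) : Z1 w (y :: l) = Z1 w (y :: l') := by
  have := Z1_perm w hw (by norm_num) NR (NR_sub w hw) (NR_add w hw) h hl [y]
  simpa using this

theorem star_a (w : ℂ) (hw : w ^ 2 + w + 1 = 0) (m : ℕ) (xs : List ℂ) (hl : xs.length = 2 * m)
    (h1 : ∀ x ∈ xs, P1 x) : (SP w xs).eval (-w) = (TP w m xs).eval (-w) := by
  have hw2 : w ^ 2 = -w - 1 := by linear_combination hw
  have hw3 : w ^ 3 = 1 := by linear_combination (w - 1) * hw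
  rw [eval_TP]
  have e1 : Z0 w (-w :: (-1) :: xs) = Z0 w (-w :: (xs ++ [-1])) := by
    refine Z0_perm1 w hw _ ?_ ?_
    · exact (List.perm_append_singleton (-1) xs).symm
    · intro x hx
      rcases List.mem_cons.1 hx with rfl | hx
      · exact NR_neg_one
      · exact (h1 x hx).NR
  rw [e1, Z0_beta w hw (-1) (-w) (by ring)]
  have e2 : (SP w xs).eval (-w) = (-w * Z0 w xs) * (1 - w ^ 2) *
      (xs.map fun x => be w (x * (-w))).prod := by
    rw [SP]
    simp only [eval_mul, eval_add, eval_C, eval_one, eval_X, eval_prodBe]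
    have z : 1 + w ^ 2 * (-w) = 0 := by linear_combination -hw3
    rw [z]
    ring
  rw [e2]
  have p1 : (xs.map fun x => be w (x * (-w))).prod = ((1 - w) / 3) ^ xs.length *
      (xs.map fun x => 1 + x).prod := by
    refine prod_map_const_mul _ _ _ _ fun x _ => ?_
    simp only [be]
    linear_combination (-x / 3) * hw
  have p2 : (xs.map gg).prod * ((xs.map fun z => al w (z * (-w))).prod
      * (xs.map fun z => al w (z * (-1))).prod) = (-w ^ 2 / 3) ^ xs.length *
      (xs.map fun x => 1 + x).prod := by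
    rw [← List.prod_map_mul, ← List.prod_map_mul]
    refine prod_map_const_mul _ _ _ _ fun x hx => ?_
    have hq := (h1 x hx).quad_ne
    have hAB : al w (x * (-w)) * al w (x * (-1)) = (-w ^ 2 / 3) * (1 - x + x ^ 2) := by
      simp only [al]; linear_combination (w * x ^ 2 + (w - 2) * x + 4) / 9 * hw
    rw [hAB, gg]
    field_simp
  have h4 : (-w) * (1 - w ^ 2) * ((1 - w) / 3) ^ xs.length
      = (-3) ^ m * (1 - w) * (-w ^ 2 / 3) ^ xs.length := by
    rw [hl, pow_mul, pow_mul]
    have a1 : ((1 - w) / 3) ^ 2 = (-3) * (-w ^ 2 / 3) ^ 2 := by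
      linear_combination (1 + 3 * w * (w - 1)) / 9 * hw
    rw [a1, mul_pow]
    have a2 : (-w) * (1 - w ^ 2) = 1 - w := by linear_combination hw3
    rw [a2]; ring
  rw [p1]
  linear_combination ((xs.map fun x => 1 + x).prod * Z0 w xs) * h4 -
    ((-3) ^ m * (1 - w) * Z0 w xs) * p2

theorem star_b (w : ℂ) (hw : w ^ 2 + w + 1 = 0) (m : ℕ) (xs : List ℂ) (hl : xs.length = 2 * m)
    (h1 : ∀ x ∈ xs, P1 x) (hn : xs.Nodup) :
    (SP w xs).eval (-w ^ 2) = (TP w m xs).eval (-w ^ 2) := by
  have hw3 : w ^ 3 = 1 := by linear_combination (w - 1) * hw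
  rw [eval_TP, Z0_alpha w hw (-1) (-w ^ 2) (by ring)]
  have e2 : (SP w xs).eval (-w ^ 2) = (-w ^ 2 * Z0 w xs) * (1 - w) *
      (xs.map fun x => be (w ^ 2) (x * (-w ^ 2))).prod := by
    rw [SP]
    simp only [eval_mul, eval_add, eval_C, eval_one, eval_X, eval_prodBe]
    have z : 1 + w * (-w ^ 2) = 0 := by linear_combination -hw3
    have z' : 1 + w ^ 2 * (-w ^ 2) = 1 - w := by linear_combination -w * hw3
    rw [z, z', Z0_sq w hw m xs hl h1 hn]
    ring
  rw [e2]
  have p1 : (xs.map fun x => be (w ^ 2) (x * (-w ^ 2))).prod = (-w ^ 2 * (1 - w) / 3) ^ xs.length *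
      (xs.map fun x => 1 + x).prod := by
    refine prod_map_const_mul _ _ _ _ fun x _ => ?_
    rw [be_sq w _ hw]
    simp only [al]
    linear_combination (-w + 2) / 3 * hw
  have p2 : (xs.map gg).prod * ((xs.map fun z => be w (z * (-w ^ 2))).prod
      * (xs.map fun z => be w (z * (-1))).prod) = (-w / 3) ^ xs.length *
      (xs.map fun x => 1 + x).prod := by
    rw [← List.prod_map_mul, ← List.prod_map_mul]
    refine prod_map_const_mul _ _ _ _ fun x hx => ?_
    have hq := (h1 x hx).quad_ne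
    have hAB : be w (x * (-w ^ 2)) * be w (x * (-1)) = (-w / 3) * (1 - x + x ^ 2) := by
      simp only [be]
      linear_combination ((w ^ 2 + 3 * w) * x ^ 2 + (w ^ 2 - 2) * x + 1) / 9 * hw
    rw [hAB, gg]
    field_simp
  have h4 : (-w ^ 2) * (1 - w) * (-w ^ 2 * (1 - w) / 3) ^ xs.length
      = (-3) ^ m * (1 - w ^ 2) * (-w / 3) ^ xs.length := by
    rw [hl, pow_mul, pow_mul]
    have a1 : (-w ^ 2 * (1 - w) / 3) ^ 2 = (-3) * (-w / 3) ^ 2 := by
      linear_combination (w ^ 4 - 3 * w ^ 2 * (w - 1)) / 9 * hw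
    rw [a1, mul_pow]
    have a2 : (-w ^ 2) * (1 - w) = 1 - w ^ 2 := by linear_combination hw3
    rw [a2]; ring
  rw [p1]
  linear_combination ((xs.map fun x => 1 + x).prod * Z0 w xs) * h4 -
    ((-3) ^ m * (1 - w ^ 2) * Z0 w xs) * p2

/-- the value at `y = w ^ 2 / x`, induction step -/
theorem star_c (w : ℂ) (hw : w ^ 2 + w + 1 = 0) (m : ℕ)
    (ih : ∀ xs : List ℂ, xs.length = 2 * m → (∀ x ∈ xs, P1 x) → xs.Nodup → SP w xs = TP w m xs)
    (x x1 : ℂ) (xs : List ℂ) (hl : xs.length = 2 * m) (hx : P1 x) (hx1 : P1 x1)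
    (h1 : ∀ x ∈ xs, P1 x) (hn : xs.Nodup) (y : ℂ) (hy : x * y = w ^ 2) :
    (SP w (x :: x1 :: xs)).eval y = (TP w (m + 1) (x :: x1 :: xs)).eval y := by
  have hw3 : w ^ 3 = 1 := by linear_combination (w - 1) * hw
  have hw4 : (w ^ 2) ^ 2 = w := by linear_combination (w ^ 2 - w) * hw
  have hw0 := w_ne0 w hw
  have hx0 := hx.ne0
  have hy' : y = w ^ 2 / x := by field_simp; linear_combination hy
  -- nonvanishing
  have n1 : 1 + w * y ≠ 0 := by
    intro h
    obtain ⟨a, ha, rfl⟩ := hx
    have : (a : ℂ) = -1 := by linear_combination a * h - w * hy - hw3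
    have h2 : a = -1 := by exact_mod_cast this
    linarith
  have n2 : 1 + w ^ 2 * y ≠ 0 := by
    intro h
    obtain ⟨a, ha, rfl⟩ := hx
    refine w_ne_real w hw (-a) ?_
    push_cast
    linear_combination a * h - w ^ 2 * hy - w * hw3
  have m1 : 1 + w * x ≠ 0 := by
    have := NR_add (w ^ 2) (w2 w hw) x hx.NR
    rwa [hw4] at this
  have m2 : 1 + w ^ 2 * x ≠ 0 := NR_add w hw x hx.NR
  have k1 : 1 + w * x1 ≠ 0 := by
    have := NR_add (w ^ 2) (w2 w hw) x1 hx1.NR
    rwa [hw4] at this
  have k2 : 1 + w ^ 2 * x1 ≠ 0 := NR_add w hw x1 hx1.NR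
  rw [eval_SP w hw _ y n2 n1, eval_TP]
  set B := ((x1 :: xs).map fun z => be w (z * y)).prod * ((x1 :: xs).map fun z => be w (z * x)).prod
    with hB
  have e1 : Z1 w (y :: x :: x1 :: xs) = B * Z1 w (x1 :: xs) :=
    Z1_alpha w hw (by norm_num) x y hy m2 n2 (x1 :: xs)
  have hNR : ∀ z ∈ x :: x1 :: xs, NR z := by
    intro z hz
    rcases List.mem_cons.1 hz with rfl | hz
    · exact hx.NR
    rcases List.mem_cons.1 hz with rfl | hz
    · exact hx1.NR
    exact (h1 z hz).NR
  have e2 : Z1 (w ^ 2) (y :: x :: x1 :: xs) = B * Z1 (w ^ 2) (x1 :: xs) := by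
    rw [Z1_perm1 (w ^ 2) (w2 w hw) y (l' := (x1 :: xs) ++ [x])
      (List.perm_append_singleton x (x1 :: xs)).symm hNR,
      Z1_beta (w ^ 2) (w2 w hw) x y hy (x1 :: xs), hB]
    simp only [al_sq w _ hw]
  have e3 : Z0 w (y :: (-1) :: x :: x1 :: xs) = (be w ((-1) * y) * be w ((-1) * x)) * B *
      Z0 w ((-1) :: x1 :: xs) := by
    rw [Z0_perm1 w hw y (l' := x :: (-1) :: x1 :: xs) (List.Perm.swap _ _ _),
      Z0_alpha w hw x y hy, hB]
    · simp only [List.map_cons, List.prod_cons]
      ring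
    · intro z hz
      rcases List.mem_cons.1 hz with rfl | hz
      · exact NR_neg_one
      · exact hNR z hz
  have e4 : Z0 w ((-1) :: x1 :: xs) = Z0 w (x1 :: (-1) :: xs) := by
    have := Z0_swap w hw (by norm_num) x1 (-1) (NR_sub w hw _ _ hx1.NR NR_neg_one) [] xs
    simpa using this
  have e5 := congrArg (fun p => p.eval x1) (ih xs hl h1 hn)
  simp only [eval_SP w hw _ x1 k2 k1, eval_TP] at e5
  rw [e1, e2, e3, e4]
  simp only [List.map_cons, List.prod_cons]
  have q1 := hx.quad_ne
  have q2 := hx1.quad_ne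
  have g1 : gg x1 = (1 + x1) / ((1 + w * x1) * (1 + w ^ 2 * x1)) := by rw [gg, quad_eq w x1 hw]
  have g2 : gg x = (1 + x) / ((1 + w * x) * (1 + w ^ 2 * x)) := by rw [gg, quad_eq w x hw]
  have key : (1 + w ^ 2 * y) * (1 + w * y)
      = (-3) * gg x * (1 + y) * (be w ((-1) * y) * be w ((-1) * x)) := by
    rw [g2]
    have b1 : be w ((-1) * y) = (1 - w) / 3 * (1 + w ^ 2 * y) := by
      simp only [be]; linear_combination (y / 3 * (w - 2)) * hw
    have b2 : be w ((-1) * x) = (1 - w) / 3 * (1 + w ^ 2 * x) := by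
      simp only [be]; linear_combination (x / 3 * (w - 2)) * hw
    have key0 : (1 + w * y) * (1 + w * x) = w * ((1 + x) * (1 + y)) := by
      linear_combination (w ^ 2 - w) * hy - (1 - w) * hw3
    have key1 : (-3) * ((1 - w) / 3) ^ 2 = w := by linear_combination (-1 / 3) * hw
    have aux : ∀ t u v c a b : ℂ, t ≠ 0 → u ≠ 0 →
        (-3) * (a / (t * u)) * b * (c / 3 * v * (c / 3 * u)) = ((-3) * (c / 3) ^ 2) * (a * b) * v / t := by
      intro t u v c a b ht hu
      field_simp
    rw [b1, b2]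
    symm
    calc (-3) * ((1 + x) / ((1 + w * x) * (1 + w ^ 2 * x))) * (1 + y) *
          ((1 - w) / 3 * (1 + w ^ 2 * y) * ((1 - w) / 3 * (1 + w ^ 2 * x)))
        = ((-3) * ((1 - w) / 3) ^ 2) * ((1 + x) * (1 + y)) * (1 + w ^ 2 * y) / (1 + w * x) :=
          aux _ _ _ _ _ _ m1 m2
      _ = w * ((1 + x) * (1 + y)) * (1 + w ^ 2 * y) / (1 + w * x) := by rw [key1]
      _ = (1 + w * y) * (1 + w * x) * (1 + w ^ 2 * y) / (1 + w * x) := by rw [key0]
      _ = _ := by field_simp
  rw [key, pow_succ (-3 : ℂ) m, g1]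
  clear_value B
  have e6 : Z1 w (x1 :: xs) + Z1 (w ^ 2) (x1 :: xs) = (-3) ^ m * (xs.map gg).prod * (1 + x1) *
      Z0 w (x1 :: (-1) :: xs) / ((1 + w * x1) * (1 + w ^ 2 * x1)) := by
    field_simp
    linear_combination e5
  linear_combination ((-3) * gg x * (1 + y) * (be w ((-1) * y) * be w ((-1) * x)) * B) * e6

theorem perm_inv (w : ℂ) (hw : w ^ 2 + w + 1 = 0) (m : ℕ) (l l' : List ℂ) (h : l.Perm l')
    (hl : ∀ x ∈ l, P1 x) (y : ℂ) (n2 : 1 + w ^ 2 * y ≠ 0) (n1 : 1 + w * y ≠ 0)
    (e : (SP w l).eval y = (TP w m l).eval y) : (SP w l').eval y = (TP w m l').eval y := by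
  have hw4 : (w ^ 2) ^ 2 = w := by linear_combination (w ^ 2 - w) * hw
  rw [eval_SP w hw _ y n2 n1, eval_TP] at e ⊢
  have hl2 : ∀ x ∈ l, NR x := fun x hx => (hl x hx).NR
  rw [Z1_perm1 w hw y h hl2, Z1_perm1 (w ^ 2) (w2 w hw) y h hl2] at e
  rw [e]
  rw [(h.map gg).prod_eq, Z0_perm1 w hw y (h.cons (-1))]
  intro x hx
  rcases List.mem_cons.1 hx with rfl | hx
  · exact NR_neg_one
  · exact hl2 x hx

theorem star (w : ℂ) (hw : w ^ 2 + w + 1 = 0) (m : ℕ) :
    ∀ xs : List ℂ, xs.length = 2 * m → (∀ x ∈ xs, P1 x) → xs.Nodup → SP w xs = TP w m xs := by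
  have hw3 : w ^ 3 = 1 := by linear_combination (w - 1) * hw
  have hw0 := w_ne0 w hw
  have hww : w ≠ 1 := by
    have := w_ne_real w hw 1
    simpa using this
  induction m with
  | zero =>
    intro xs hl h1 hn
    have : xs = [] := List.length_eq_zero_iff.1 (by simpa using hl)
    subst this
    rw [SP, TP]
    have a1 : Z0 w ([] : List ℂ) = 1 := rfl
    have a2 : Z0 (w ^ 2) ([] : List ℂ) = 1 := rfl
    simp only [cuP, prodBe, Psi0, cu, TT, a1, a2, List.map_nil, List.prod_nil]
    simp only [List.length_nil, List.replicate_zero, mul_zero, pow_zero, mul_one, C_1, one_mul,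
      zero_add, zero_mul, Psi0, cu]
    have b1 : (C (-w) + C (-w ^ 2) : ℂ[X]) = 1 := by
      rw [← C_add, ← C_1]; congr 1; linear_combination -hw
    have b2 : (C (-w) * C w + C (-w ^ 2) * C (w ^ 2) : ℂ[X]) = 1 := by
      rw [← C_mul, ← C_mul, ← C_add, ← C_1]; congr 1; linear_combination -(w ^ 2 - w + 1) * hw
    linear_combination b1 + X * b2
  | succ m ih =>
    intro xs hl h1 hn
    rw [← sub_eq_zero]
    set s : Finset ℂ := insert (-w) (insert (-w ^ 2) (xs.toFinset.image fun x => w ^ 2 / x)) with hs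
    refine Polynomial.eq_zero_of_degree_lt_of_eval_finset_eq_zero s ?_ ?_
    · have c1 : (xs.toFinset.image fun x => w ^ 2 / x).card = xs.length := by
        rw [Finset.card_image_of_injOn, List.toFinset_card_of_nodup hn]
        intro a ha b hb h
        have ha' := (h1 a (by simpa using ha)).ne0
        have hb' := (h1 b (by simpa using hb)).ne0
        simp only at h
        field_simp at h
        exact h.symm
      have c2 : (-w ^ 2) ∉ (xs.toFinset.image fun x => w ^ 2 / x) := by
        intro h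
        obtain ⟨x, hx, hx2⟩ := Finset.mem_image.1 h
        have hx' := h1 x (by simpa using hx)
        have hx0 := hx'.ne0
        obtain ⟨a, ha, rfl⟩ := hx'
        field_simp at hx2
        have : (a : ℂ) = -1 := by linear_combination hx2
        have : a = -1 := by exact_mod_cast this
        linarith
      have c3 : (-w) ∉ insert (-w ^ 2) (xs.toFinset.image fun x => w ^ 2 / x) := by
        intro h
        rcases Finset.mem_insert.1 h with h | h
        · apply hww
          have : w * w = w * 1 := by linear_combination h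
          exact mul_left_cancel₀ hw0 this
        · obtain ⟨x, hx, hx2⟩ := Finset.mem_image.1 h
          have hx' := h1 x (by simpa using hx)
          have hx0 := hx'.ne0
          obtain ⟨a, ha, rfl⟩ := hx'
          refine w_ne_real w hw (-a) ?_
          field_simp at hx2
          push_cast
          linear_combination hx2
      have c4 : s.card = xs.length + 2 := by
        rw [hs, Finset.card_insert_of_notMem c3, Finset.card_insert_of_notMem c2, c1]
      rw [c4]
      exact lt_of_le_of_lt (degree_sub_le _ _) (max_lt (degree_SP w xs) (degree_TP w (m + 1) xs))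
    · intro y hy
      rw [eval_sub, sub_eq_zero]
      rcases Finset.mem_insert.1 hy with rfl | hy
      · exact star_a w hw (m + 1) xs hl h1
      rcases Finset.mem_insert.1 hy with rfl | hy
      · exact star_b w hw (m + 1) xs hl h1 hn
      obtain ⟨x, hx, rfl⟩ := Finset.mem_image.1 hy
      have hx : x ∈ xs := by simpa using hx
      have hxP := h1 x hx
      have hx0 := hxP.ne0
      have n1 : 1 + w * (w ^ 2 / x) ≠ 0 := by
        intro h
        obtain ⟨a, ha, rfl⟩ := hxP
        field_simp at h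
        have : (a : ℂ) = -1 := by linear_combination h - hw3
        have h2 : a = -1 := by exact_mod_cast this
        linarith
      have n2 : 1 + w ^ 2 * (w ^ 2 / x) ≠ 0 := by
        intro h
        obtain ⟨a, ha, rfl⟩ := hxP
        refine w_ne_real w hw (-a) ?_
        field_simp at h
        push_cast
        linear_combination h - w * hw3
      have hp : xs.Perm (x :: xs.erase x) := List.perm_cons_erase hx
      have hn' : (x :: xs.erase x).Nodup := hp.nodup_iff.1 hn
      have hl' : (xs.erase x).length = 2 * m + 1 := by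
        have := hp.length_eq
        simp only [List.length_cons] at this
        omega
      have h1' : ∀ z ∈ x :: xs.erase x, P1 z := fun z hz => h1 z (hp.mem_iff.2 hz)
      generalize hE : xs.erase x = E at *
      cases E with
      | nil => simp at hl'
      | cons x1 E =>
        refine perm_inv w hw (m + 1) (x :: x1 :: E) xs hp.symm h1' _ n2 n1 ?_
        refine star_c w hw m ih x x1 E ?_ hxP ?_ ?_ ?_ _ ?_
        · simpa using hl'
        · exact h1' x1 (by simp)
        · intro z hz; exact h1' z (by simp [hz])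
        · exact (List.nodup_cons.1 (List.nodup_cons.1 hn').2).2
        · field_simp

end Pool.Agent.Y373.OS
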