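import Mathlib
import Pool.Agent.Y373.OS.Star2

set_option autoImplicit false

namespace Pool.Agent.Y373.OS

open Polynomial

noncomputable def SS : ℕ → ℂ[X]
  | 0 => 1
  | 1 => X
  | (k + 2) => X * SS (k + 1) - SS k

theorem SS_prop (k : ℕ) : ((SS k).natDegree = k ∧ (SS k).Monic) ∧
    ((SS (k + 1)).natDegree = k + 1 ∧ (SS (k + 1)).Monic) := by
  induction k with
  | zero => simp [SS, monic_X]
  | succ k ih =>
    refine ⟨ih.2, ?_⟩
    obtain ⟨⟨h1, h2⟩, h3, h4⟩ := ih
    have h5 : (X * SS (k + 1)).Monic := monic_X.mul h4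
    have h6 : (X * SS (k + 1)).natDegree = k + 2 := by
      rw [natDegree_X_mul h4.ne_zero, h3]
    have h7 : (SS k).natDegree < (X * SS (k + 1)).natDegree := by rw [h1, h6]; omega
    constructor
    · rw [SS, natDegree_sub_eq_left_of_natDegree_lt h7, h6]
    · rw [SS]
      exact h5.sub_of_left (degree_lt_degree h7)

theorem ph_rec (z : ℂ) (hz : z ≠ 0) (k : ℤ) :
    ph (k + 1) z = vv z * ph k z - ph (k - 1) z := by
  simp only [ph, vv]
  rw [show -(k + 1) = -k + (-1) by ring, show -(k - 1) = -k + 1 by ring,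
    show k - 1 = k + (-1) by ring, zpow_add₀ hz, zpow_add₀ hz, zpow_add₀ hz, zpow_add₀ hz,
    zpow_one, zpow_neg_one]
  ring

theorem eval_SS (z : ℂ) (hz : z ≠ 0) (k : ℕ) :
    ph 1 z * (SS k).eval (vv z) = ph (k + 1) z ∧
    ph 1 z * (SS (k + 1)).eval (vv z) = ph (k + 2) z := by
  induction k with
  | zero =>
    constructor
    · simp [SS]
    · simp only [SS, eval_X, ph, vv, zpow_one, _root_.zpow_neg, Nat.cast_zero, zero_add]
      have e : ∀ u : ℂ, u ^ (2 : ℤ) = u ^ 2 := fun u => by norm_cast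
      rw [e]
      field_simp
      ring
  | succ k ih =>
    obtain ⟨h1, h2⟩ := ih
    refine ⟨by push_cast; rw [add_assoc]; exact_mod_cast h2, ?_⟩
    rw [SS, eval_sub, eval_mul, eval_X, mul_sub]
    have h3 : ph ((k + 1 : ℕ) + 2) z = vv z * ph (k + 2) z - ph (k + 1) z := by
      have := ph_rec z hz ((k : ℤ) + 2)
      rw [show ((k : ℤ) + 2 - 1) = k + 1 by ring, show ((k : ℤ) + 2 + 1) = (k + 1 : ℕ) + 2 by
        push_cast; ring] at this
      exact this
    rw [h3, ← h2, ← h1]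
    ring

theorem det_ph {n : ℕ} (z : Fin n → ℂ) (hz : ∀ i, z i ≠ 0) :
    (Matrix.of fun (i j : Fin n) => ph ((j : ℕ) + 1) (z i)).det = (∏ i, ph 1 (z i)) * vd z := by
  have h := Matrix.det_eval_matrixOfPolynomials_eq_det_vandermonde (fun i => vv (z i))
    (fun j : Fin n => SS j) (fun j => (SS_prop j).1.1) (fun j => (SS_prop j).1.2)
  rw [vd, h, ← Matrix.det_mul_column]
  congr 1
  ext i j
  simp only [Matrix.of_apply]
  rw [(eval_SS (z i) (hz i) j).1]

end Pool.Agent.Y373.OS
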