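import Mathlib
import Pool.Agent.Y373.OS.Cheb

set_option autoImplicit false

namespace Pool.Agent.Y373.OS

/-! continuity of the partition functions -/

theorem cont_cu (w : ℂ) (t : ℝ) (y : ℝ → ℂ) (hy : ContinuousAt y t) (L : List (ℝ → ℂ)) :
    (∀ f ∈ L, ContinuousAt f t) → ∀ (F : List Bool → ℝ → ℂ) (_ : ∀ S, ContinuousAt (F S) t)
      (b : Bool) (S : List Bool),
      ContinuousAt (fun u => cu w (y u) (L.map fun f => f u) (fun S => F S u) b S) t := by
  induction L with
  | nil =>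
    intro _ F hF b S
    cases b <;> cases S <;> simp only [List.map_nil, cu]
    · exact hF _
    all_goals exact continuousAt_const
  | cons f L ih =>
    intro hL F hF b S
    have hf : ContinuousAt f t := hL f (by simp)
    have ih' := ih (fun g hg => hL g (List.mem_cons_of_mem _ hg))
    have ha : ContinuousAt (fun u => al w (f u * y u)) t := by
      simp only [al]; fun_prop
    have hb : ContinuousAt (fun u => be w (f u * y u)) t := by
      simp only [be]; fun_prop
    have hxy : ContinuousAt (fun u => f u * y u) t := hf.mul hy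
    cases S with
    | nil => cases b <;> simp only [List.map_cons, cu] <;> exact continuousAt_const
    | cons s S =>
      have i0 := fun b => ih' (fun L => F (false :: L)) (fun _ => hF _) b S
      have i1 := fun b => ih' (fun L => F (true :: L)) (fun _ => hF _) b S
      cases b <;> cases s <;> simp only [List.map_cons, cu]
      · exact (ha.mul (i0 _)).add (hxy.mul (i1 _))
      · exact hb.mul (i1 _)
      · exact hb.mul (i0 _)
      · exact (ha.mul (i1 _)).add (i0 _)

theorem cont_Psi0 (w : ℂ) (t : ℝ) (L : List (ℝ → ℂ)) : (∀ f ∈ L, ContinuousAt f t) →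
    ∀ S : List Bool, ContinuousAt (fun u => Psi0 w (L.map fun f => f u) S) t := by
  induction L with
  | nil =>
    intro _ S
    cases S <;> simp only [List.map_nil, Psi0] <;> exact continuousAt_const
  | cons f L ih =>
    intro hL S
    cases S with
    | nil => simp only [List.map_cons, Psi0]; exact continuousAt_const
    | cons s S =>
      simp only [List.map_cons, Psi0]
      have hL' : ∀ g ∈ L, ContinuousAt g t := fun g hg => hL g (List.mem_cons_of_mem _ hg)
      exact cont_cu w t f (hL f (by simp)) L hL'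
        (fun S u => Psi0 w (L.map fun f => f u) S) (fun S => ih hL' S) s S

theorem cont_Psi1 (w : ℂ) (t : ℝ) (L : List (ℝ → ℂ)) : (∀ f ∈ L, ContinuousAt f t) →
    (∀ f ∈ L, 1 + w ^ 2 * f t ≠ 0) →
    ∀ S : List Bool, ContinuousAt (fun u => Psi1 w (L.map fun f => f u) S) t := by
  induction L with
  | nil =>
    intro _ _ S
    cases S <;> simp only [List.map_nil, Psi1] <;> exact continuousAt_const
  | cons f L ih =>
    intro hL hn S
    cases S with
    | nil => simp only [List.map_cons, Psi1]; exact continuousAt_const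
    | cons s S =>
      simp only [List.map_cons, Psi1]
      have hf : ContinuousAt f t := hL f (by simp)
      have hL' : ∀ g ∈ L, ContinuousAt g t := fun g hg => hL g (List.mem_cons_of_mem _ hg)
      have hn' : ∀ g ∈ L, 1 + w ^ 2 * g t ≠ 0 := fun g hg => hn g (List.mem_cons_of_mem _ hg)
      have h1 := cont_cu w t f hf L hL'
        (fun S u => Psi1 w (L.map fun f => f u) S) (fun S => ih hL' hn' S) s S
      have h2 := cont_cu w t f hf L hL'
        (fun S u => Psi0 w (L.map fun f => f u) S) (fun S => cont_Psi0 w t L hL' S) (!s) S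
      have h3 : ContinuousAt (fun u => bw w (f u) s) t := by
        have hd : ContinuousAt (fun u => 1 + w ^ 2 * f u) t := by fun_prop
        have hd0 := hn f (by simp)
        cases s <;> simp only [bw, Bool.false_eq_true, if_true, if_false]
        · exact ContinuousAt.div (by fun_prop) hd hd0
        · exact ContinuousAt.div (by fun_prop) hd hd0
      exact h1.add (h3.mul h2)

/-! divided differences -/

noncomputable def hh (k : ℤ) (u : ℂ) : ℂ := dslope (ph k) 1 u

theorem ph_one (k : ℤ) : ph k 1 = 0 := by simp [ph]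

theorem ph_eq_hh (k : ℤ) (u : ℂ) : ph k u = (u - 1) * hh k u := by
  have := sub_smul_dslope (ph k) 1 u
  rw [ph_one, sub_zero, smul_eq_mul] at this
  exact this.symm

theorem ph_deriv (k : ℤ) : HasDerivAt (ph k) (2 * k) 1 := by
  have h1 := hasDerivAt_zpow k (1 : ℂ) (Or.inl one_ne_zero)
  have h2 := hasDerivAt_zpow (-k) (1 : ℂ) (Or.inl one_ne_zero)
  have e : (2 * (k : ℂ)) = k * 1 ^ (k - 1) - ((-k : ℤ) : ℂ) * 1 ^ (-k - 1) := by
    simp only [one_zpow, mul_one]; push_cast; ring
  rw [e]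
  exact h1.sub h2

theorem hh_one (k : ℤ) : hh k 1 = 2 * k := by
  rw [hh, dslope_same, (ph_deriv k).deriv]

theorem cont_hh (k : ℤ) : ContinuousAt (hh k) 1 :=
  continuousAt_dslope_same.2 (ph_deriv k).differentiableAt

theorem cont_hh' (k : ℤ) : ContinuousAt (fun u : ℝ => hh k (u : ℂ)) 1 := by
  have h1 : ContinuousAt (fun u : ℝ => (u : ℂ)) 1 := by fun_prop
  have h2 : ContinuousAt (hh k) ((1 : ℝ) : ℂ) := by simpa using cont_hh k
  exact ContinuousAt.comp (f := fun u : ℝ => (u : ℂ)) h2 h1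

noncomputable def EE (n : ℕ) (u : ℂ) : ℂ :=
  (∏ _j : Fin n, (u - 1)) * ∏ i : Fin n, ∏ _j ∈ Finset.Ioi i, (u - 1) ^ 2

noncomputable def WW {n : ℕ} (c : Fin n → ℤ) (u : ℂ) : ℂ :=
  (∏ j, hh (2 * c j) u) * ∏ i : Fin n, ∏ j ∈ Finset.Ioi i, (hh (c i + c j) u * hh (c j - c i) u)

theorem EE_ne (n : ℕ) (u : ℂ) (hu : u ≠ 1) : EE n u ≠ 0 := by
  have h : u - 1 ≠ 0 := sub_ne_zero.2 hu
  refine mul_ne_zero (Finset.prod_ne_zero_iff.2 fun _ _ => h) (Finset.prod_ne_zero_iff.2 fun _ _ =>
    Finset.prod_ne_zero_iff.2 fun _ _ => pow_ne_zero _ h)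

theorem cont_WW {n : ℕ} (c : Fin n → ℤ) : ContinuousAt (fun u : ℝ => WW c (u : ℂ)) 1 := by
  unfold WW
  refine ContinuousAt.mul ?_ ?_
  · exact tendsto_finsetProd _ fun i _ => cont_hh' _
  · exact tendsto_finsetProd _ fun i _ => tendsto_finsetProd _ fun j _ =>
      (cont_hh' _).mul (cont_hh' _)

theorem ph_zpow (a b : ℤ) (u : ℂ) : ph a (u ^ b) = ph (b * a) u := by
  simp only [ph]
  rw [← zpow_mul, ← zpow_mul, mul_neg]

theorem vv_diff (a b : ℤ) (u : ℂ) (hu : u ≠ 0) :
    vv (u ^ (2 * b)) - vv (u ^ (2 * a)) = ph (a + b) u * ph (b - a) u := by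
  simp only [vv, ph, ← zpow_neg]
  rw [show -(a + b) = -a + -b by ring, show -(b - a) = a + -b by ring,
    show b - a = -a + b by ring, zpow_add₀ hu, zpow_add₀ hu, zpow_add₀ hu, zpow_add₀ hu,
    show 2 * b = b + b by ring, show 2 * a = a + a by ring, neg_add, neg_add,
    zpow_add₀ hu, zpow_add₀ hu, zpow_add₀ hu, zpow_add₀ hu]
  have h1 : u ^ a * u ^ (-a) = 1 := by rw [← zpow_add₀ hu]; simp
  have h2 : u ^ b * u ^ (-b) = 1 := by rw [← zpow_add₀ hu]; simp
  linear_combination (-(u ^ b * u ^ b) - u ^ (-b) * u ^ (-b)) * h1 + (u ^ a * u ^ a + u ^ (-a) * u ^ (-a)) * h2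

theorem fac {n : ℕ} (c : Fin n → ℤ) (u : ℂ) (hu : u ≠ 0) :
    (∏ j, ph 1 (u ^ (2 * c j))) * vd (fun j => u ^ (2 * c j)) = EE n u * WW c u := by
  rw [vd, Matrix.det_vandermonde, EE, WW]
  have h1 : ∏ j, ph 1 (u ^ (2 * c j)) = (∏ _j : Fin n, (u - 1)) * ∏ j, hh (2 * c j) u := by
    rw [← Finset.prod_mul_distrib]
    refine Finset.prod_congr rfl fun j _ => ?_
    rw [ph_zpow, mul_one, ph_eq_hh]
  have h2 : ∏ i : Fin n, ∏ j ∈ Finset.Ioi i, (vv (u ^ (2 * c j)) - vv (u ^ (2 * c i)))
      = (∏ i : Fin n, ∏ _j ∈ Finset.Ioi i, (u - 1) ^ 2) *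
        ∏ i : Fin n, ∏ j ∈ Finset.Ioi i, (hh (c i + c j) u * hh (c j - c i) u) := by
    rw [← Finset.prod_mul_distrib]
    refine Finset.prod_congr rfl fun i _ => ?_
    rw [← Finset.prod_mul_distrib]
    refine Finset.prod_congr rfl fun j _ => ?_
    rw [vv_diff _ _ u hu, ph_eq_hh, ph_eq_hh]
    ring
  rw [h1, h2]
  ring

noncomputable def xx (n : ℕ) (u : ℂ) (i : Fin n) : ℂ := u ^ (2 * (((i : ℕ) : ℤ) + 1))

theorem kap_xx (n : ℕ) (u : ℂ) (hu : u ≠ 0) :
    kap (xx n u) = EE n u * WW (fun i : Fin n => ((i : ℕ) : ℤ) + 1) u := by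
  rw [← fac _ u hu]; rfl

theorem mino_xx (m n : ℕ) (u : ℂ) (hu : u ≠ 0) (s : Fin (n + 1)) :
    mino m (xx n u) s = EE n u *
      WW (fun j : Fin n => 3 * (((s.succAbove j : Fin (n + 1)) : ℕ) : ℤ) + (-3 * m - 2)) u := by
  rw [← fac _ u hu, ← det_ph _ (fun i => zpow_ne_zero _ hu), mino, ← Matrix.det_transpose]
  congr 1
  ext j i
  simp only [Matrix.transpose_apply, Matrix.of_apply, xx]
  rw [ph_zpow, ph_zpow]
  congr 1
  ring

end Pool.Agent.Y373.OS
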