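import Mathlib
import Pool.Agent.Y373.OS.Lim

set_option autoImplicit false

namespace Pool.Agent.Y373.OS

open Polynomial

theorem Z0_neg_one (w : ℂ) (hw : w ^ 2 + w + 1 = 0) (m n : ℕ) (hn : n = 2 * m + 1)
    (x : Fin n → ℂ) (hx : ∀ i, P1 (x i)) (hinj : Function.Injective x) :
    Z0 w ((-1) :: List.ofFn x) * (∏ i, (1 + x i) ^ 2) * kap x
      = -(Cm m * (∏ i, x i ^ (m + 1)) *
          ∑ s : Fin (n + 1), (3 * ((s : ℕ) : ℂ) - 3 * m - 2) * mino m x s) := by
  have h : (derivative (LP w x)).eval (-1) = (derivative (RP m x)).eval (-1) := by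
    rw [PP' w hw m n hn x hx hinj]
  have hL : (derivative (LP w x)).eval (-1) = (-2) * (Z0 w ((-1) :: List.ofFn x) *
      (∏ i, ((x i - (-1)) * (x i * (-1) - 1))) * kap x) := by
    have e : LP w x = (X ^ 2 - 1) * (cuP w (List.ofFn x) (Psi0 w (List.ofFn x)) *
      (∏ i, ((C (x i) - X) * (C (x i) * X - 1))) * C (kap x)) := by
      rw [LP]; ring
    rw [e, derivative_mul]
    simp only [eval_mul, eval_add, eval_sub, derivative_sub, derivative_X_pow, derivative_one,
      eval_pow, eval_X, eval_one, eval_C, eval_prod, eval_cuP, eval_zero]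
    rw [Z0_cons, eval_cuP]
    push_cast
    ring
  have hR : (derivative (RP m x)).eval (-1) = Cm m * (∏ i, x i ^ (m + 1)) *
      ∑ s : Fin (n + 1), ((-2) * ((3 * ((s : ℕ) : ℂ) - 3 * m - 2) * mino m x s)) := by
    rw [RP, derivative_C_mul, derivative_sum, eval_mul, eval_C, eval_finsetSum]
    congr 1
    refine Finset.sum_congr rfl fun s _ => ?_
    have hs : (s : ℕ) ≤ 2 * m + 1 := by have := s.2; omega
    rw [derivative_C_mul, eval_mul, eval_C, derivative_sub, derivative_X_pow, derivative_X_pow,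
      eval_sub, eval_mul, eval_mul, eval_pow, eval_pow, eval_X, eval_C, eval_C]
    have e1 : (((3 * (s : ℕ) : ℕ) : ℂ)) * (-1) ^ (3 * (s : ℕ) - 1) = -(3 * (s : ℕ)) * (-1) ^ (s : ℕ) := by
      rcases Nat.eq_zero_or_pos (s : ℕ) with h0 | h0
      · rw [h0]; simp
      · obtain ⟨k, hk⟩ : ∃ k, (s : ℕ) = k + 1 := ⟨(s : ℕ) - 1, by omega⟩
        rw [hk, show 3 * (k + 1) - 1 = 2 * (k + 1) + k by omega, pow_add, pow_mul]
        push_cast
        simp [pow_succ]
    have e2 : (-1 : ℂ) ^ (6 * m + 4 - 3 * (s : ℕ) - 1) = -(-1) ^ (s : ℕ) := by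
      rcases Nat.even_or_odd' (s : ℕ) with ⟨k, hk | hk⟩
      · rw [hk, show 6 * m + 4 - 3 * (2 * k) - 1 = 2 * (3 * m + 1 - 3 * k) + 1 by omega, pow_succ,
          pow_mul, pow_mul]
        simp
      · rw [hk, show 6 * m + 4 - 3 * (2 * k + 1) - 1 = 2 * (3 * m - 3 * k) by omega, pow_succ,
          pow_mul, pow_mul]
        simp
    have e3 : (-1 : ℂ) ^ (s : ℕ) * (-1) ^ (s : ℕ) = 1 := by
      rw [← mul_pow]; simp
    rw [e1, e2, Nat.cast_sub (by omega)]
    push_cast
    linear_combination (mino m x s * (6 * m + 4 - 6 * (s : ℕ))) * e3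
  rw [hL, hR, ← Finset.mul_sum] at h
  have hP : (∏ i, ((x i - (-1)) * (x i * (-1) - 1))) = -∏ i, (1 + x i) ^ 2 := by
    have : ∀ i, ((x i - (-1)) * (x i * (-1) - 1)) = (-1) * (1 + x i) ^ 2 := fun i => by ring
    have e : (-1 : ℂ) ^ n = -1 := by rw [hn, pow_succ, pow_mul]; simp
    rw [Finset.prod_congr rfl fun i _ => this i, Finset.prod_mul_distrib, Finset.prod_const,
      Finset.card_univ, Fintype.card_fin, e]
    ring
  rw [hP] at h
  linear_combination (1 / 2 : ℂ) * h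

end Pool.Agent.Y373.OS
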