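import Mathlib
import Pool.Agent.Y373.OS.Lim2

set_option autoImplicit false

namespace Pool.Agent.Y373.OS

open Polynomial Filter Topology

theorem xx_real (n : ℕ) (u : ℝ) (i : Fin n) :
    xx n (u : ℂ) i = ((u ^ (2 * (((i : ℕ) : ℤ) + 1)) : ℝ) : ℂ) := by
  rw [xx, Complex.ofReal_zpow]

theorem xx_P1 (n : ℕ) (u : ℝ) (hu : 1 < u) (i : Fin n) : P1 (xx n (u : ℂ) i) :=
  ⟨_, one_lt_zpow₀ hu (by positivity), xx_real n u i⟩

theorem xx_inj (n : ℕ) (u : ℝ) (hu : 1 < u) : Function.Injective (xx n (u : ℂ)) := by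
  intro i j h
  rw [xx_real, xx_real] at h
  have h1 : u ^ (2 * (((i : ℕ) : ℤ) + 1)) = u ^ (2 * (((j : ℕ) : ℤ) + 1)) := by exact_mod_cast h
  have h2 := zpow_right_injective₀ (by linarith) (by linarith [hu] : u ≠ 1) h1
  apply Fin.ext
  omega

/-- the exponents -/
def cs (m : ℕ) {n : ℕ} (s : Fin (n + 1)) (j : Fin n) : ℤ :=
  3 * (((s.succAbove j : Fin (n + 1)) : ℕ) : ℤ) + (-3 * m - 2)

theorem ident_u (w : ℂ) (hw : w ^ 2 + w + 1 = 0) (m n : ℕ) (hn : n = 2 * m) (u : ℝ) (hu : 1 < u) :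
    (1 - xx (n + 1) (u : ℂ) 0 + xx (n + 1) (u : ℂ) 0 ^ 2) * (Z1 w (List.ofFn (xx (n + 1) (u : ℂ)))
      + Z1 (w ^ 2) (List.ofFn (xx (n + 1) (u : ℂ)))) * (∏ i, (1 + xx (n + 1) (u : ℂ) i) ^ 2) *
      WW (fun i : Fin (n + 1) => ((i : ℕ) : ℤ) + 1) u
    = -((-3) ^ m * (∏ i : Fin n, gg (xx (n + 1) (u : ℂ) i.succ)) * (1 + xx (n + 1) (u : ℂ) 0) *
        (Cm m * ∏ i, xx (n + 1) (u : ℂ) i ^ (m + 1))) *
      ∑ s : Fin (n + 1 + 1), (3 * ((s : ℕ) : ℂ) - 3 * m - 2) * WW (cs m s) u := by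
  set X := xx (n + 1) (u : ℂ) with hX
  have hP : ∀ i, P1 (X i) := xx_P1 (n + 1) u hu
  have hinj : Function.Injective X := xx_inj (n + 1) u hu
  have hu0 : (u : ℂ) ≠ 0 := by exact_mod_cast (by linarith : u ≠ 0)
  have hu1 : (u : ℂ) ≠ 1 := by exact_mod_cast (by linarith : u ≠ 1)
  have hw4 : (w ^ 2) ^ 2 = w := by linear_combination (w ^ 2 - w) * hw
  set xs : List ℂ := List.ofFn (fun i : Fin n => X i.succ) with hxs
  have hofFn : List.ofFn X = X 0 :: xs := by rw [List.ofFn_succ]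
  have h1 : ∀ x ∈ xs, P1 x := by
    intro x hx
    rw [hxs, List.mem_ofFn'] at hx
    obtain ⟨i, rfl⟩ := hx
    exact hP _
  have hnd : xs.Nodup := by
    rw [hxs, List.nodup_ofFn]
    intro i j h
    simpa using hinj h
  have hlen : xs.length = 2 * m := by rw [hxs, List.length_ofFn, hn]
  have hs := star w hw m xs hlen h1 hnd
  have k1 : 1 + w * X 0 ≠ 0 := by
    have := NR_add (w ^ 2) (w2 w hw) (X 0) (hP 0).NR
    rwa [hw4] at this
  have k2 : 1 + w ^ 2 * X 0 ≠ 0 := NR_add w hw (X 0) (hP 0).NR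
  have e1 : (SP w xs).eval (X 0) = (TP w m xs).eval (X 0) := by rw [hs]
  rw [eval_SP w hw _ _ k2 k1, eval_TP] at e1
  have e2 : Z0 w (X 0 :: (-1) :: xs) = Z0 w ((-1) :: List.ofFn X) := by
    rw [hofFn]
    have := Z0_swap w hw (by norm_num) (-1) (X 0) (NR_sub w hw _ _ NR_neg_one (hP 0).NR) [] xs
    simpa using this
  have e3 := Z0_neg_one w hw m (n + 1) (by rw [hn]) X hP hinj
  rw [e2] at e1
  have e4 : (xs.map gg).prod = ∏ i : Fin n, gg (X i.succ) := by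
    rw [hxs, prod_map_ofFn]
  rw [e4] at e1
  rw [hX, kap_xx _ _ hu0] at e3
  simp only [mino_xx m (n + 1) (u : ℂ) hu0] at e3
  rw [← hX] at e3
  rw [← hofFn] at e1
  have hE := EE_ne (n + 1) (u : ℂ) hu1
  have e5 : ∑ s : Fin (n + 1 + 1), (3 * ((s : ℕ) : ℂ) - 3 * m - 2) *
      (EE (n + 1) (u : ℂ) * WW (fun j : Fin (n + 1) => 3 * (((s.succAbove j : Fin (n + 1 + 1)) : ℕ) : ℤ)
        + (-3 * m - 2)) (u : ℂ)) = EE (n + 1) (u : ℂ) * ∑ s : Fin (n + 1 + 1),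
      (3 * ((s : ℕ) : ℂ) - 3 * m - 2) * WW (cs m s) u := by
    rw [Finset.mul_sum]
    refine Finset.sum_congr rfl fun s _ => ?_
    have : (fun j : Fin (n + 1) => 3 * (((s.succAbove j : Fin (n + 1 + 1)) : ℕ) : ℤ)
        + (-3 * m - 2)) = cs m s := rfl
    rw [this]; ring
  rw [e5] at e3
  refine mul_left_cancel₀ hE ?_
  rw [quad_eq w (X 0) hw]
  linear_combination ((∏ i, (1 + X i) ^ 2) * (EE (n + 1) (u : ℂ) *
    WW (fun i : Fin (n + 1) => ((i : ℕ) : ℤ) + 1) (u : ℂ))) * e1 +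
    ((-3) ^ m * (∏ i : Fin n, gg (X i.succ)) * (1 + X 0)) * e3

theorem cont_xx (n : ℕ) (i : Fin n) : ContinuousAt (fun u : ℝ => xx n (u : ℂ) i) 1 := by
  unfold xx
  have h1 : ContinuousAt (fun u : ℝ => (u : ℂ)) 1 := by fun_prop
  exact h1.zpow₀ _ (Or.inl (by simp))

theorem xx_one (n : ℕ) (i : Fin n) : xx n (((1 : ℝ) : ℂ)) i = 1 := by simp [xx]

theorem cont_Z1 (w : ℂ) (hw : w ^ 2 + w + 1 = 0) (n : ℕ) :
    ContinuousAt (fun u : ℝ => Z1 w (List.ofFn (xx n (u : ℂ)))) 1 := by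
  have h := cont_Psi1 w 1 (List.ofFn fun i : Fin n => fun u : ℝ => xx n (u : ℂ) i)
    (by
      intro f hf
      rw [List.mem_ofFn'] at hf
      obtain ⟨i, rfl⟩ := hf
      exact cont_xx n i)
    (by
      intro f hf
      rw [List.mem_ofFn'] at hf
      obtain ⟨i, rfl⟩ := hf
      simp only [xx_one]
      exact NR_add w hw 1 ⟨1, by norm_num, by norm_num⟩)
    (List.replicate n true)
  have e : (fun u : ℝ => Z1 w (List.ofFn (xx n (u : ℂ)))) = fun u : ℝ =>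
      Psi1 w ((List.ofFn fun i : Fin n => fun u : ℝ => xx n (u : ℂ) i).map fun f => f u)
        (List.replicate n true) := by
    funext u
    rw [Z1, List.length_ofFn, List.map_ofFn]
    rfl
  rw [e]
  exact h

theorem lim_id (w : ℂ) (hw : w ^ 2 + w + 1 = 0) (m n : ℕ) (hn : n = 2 * m) :
    (Z1 w (List.replicate (n + 1) 1) + Z1 (w ^ 2) (List.replicate (n + 1) 1)) * 4 ^ (n + 1) *
      WW (fun i : Fin (n + 1) => ((i : ℕ) : ℤ) + 1) 1
    = -((-3) ^ m * 2 ^ n * 2 * Cm m) *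
      ∑ s : Fin (n + 1 + 1), (3 * ((s : ℕ) : ℂ) - 3 * m - 2) * WW (cs m s) 1 := by
  have c1 : ContinuousAt (fun u : ℝ => (1 - xx (n + 1) (u : ℂ) 0 + xx (n + 1) (u : ℂ) 0 ^ 2) *
      (Z1 w (List.ofFn (xx (n + 1) (u : ℂ)))
      + Z1 (w ^ 2) (List.ofFn (xx (n + 1) (u : ℂ)))) * (∏ i, (1 + xx (n + 1) (u : ℂ) i) ^ 2) *
      WW (fun i : Fin (n + 1) => ((i : ℕ) : ℤ) + 1) (u : ℂ)) 1 := by
    have a0 := cont_xx (n + 1) 0
    have a1 := cont_Z1 w hw (n + 1)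
    have a2 := cont_Z1 (w ^ 2) (w2 w hw) (n + 1)
    have a3 := cont_WW (fun i : Fin (n + 1) => ((i : ℕ) : ℤ) + 1)
    have a4 : ContinuousAt (fun u : ℝ => ∏ i, (1 + xx (n + 1) (u : ℂ) i) ^ 2) 1 :=
      tendsto_finsetProd _ fun i _ => ((continuousAt_const.add (cont_xx (n + 1) i)).pow 2)
    exact ((((continuousAt_const.sub a0).add (a0.pow 2)).mul (a1.add a2)).mul a4).mul a3
  have c2 : ContinuousAt (fun u : ℝ => -((-3) ^ m * (∏ i : Fin n, gg (xx (n + 1) (u : ℂ) i.succ)) *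
      (1 + xx (n + 1) (u : ℂ) 0) * (Cm m * ∏ i, xx (n + 1) (u : ℂ) i ^ (m + 1))) *
      ∑ s : Fin (n + 1 + 1), (3 * ((s : ℕ) : ℂ) - 3 * m - 2) * WW (cs m s) (u : ℂ)) 1 := by
    have a0 := cont_xx (n + 1) 0
    have a1 : ContinuousAt (fun u : ℝ => ∏ i : Fin n, gg (xx (n + 1) (u : ℂ) i.succ)) 1 := by
      refine tendsto_finsetProd _ fun i _ => ?_
      have b := cont_xx (n + 1) i.succ
      unfold gg
      refine ContinuousAt.div (continuousAt_const.add b)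
        ((continuousAt_const.sub b).add (b.pow 2)) ?_
      rw [xx_one]; norm_num
    have a2 : ContinuousAt (fun u : ℝ => ∏ i, xx (n + 1) (u : ℂ) i ^ (m + 1)) 1 :=
      tendsto_finsetProd _ fun i _ => (cont_xx (n + 1) i).pow _
    have a3 : ContinuousAt (fun u : ℝ => ∑ s : Fin (n + 1 + 1), (3 * ((s : ℕ) : ℂ) - 3 * m - 2) *
        WW (cs m s) (u : ℂ)) 1 :=
      tendsto_finsetSum _ fun s _ => continuousAt_const.mul (cont_WW _)
    exact (((continuousAt_const.mul a1).mul (continuousAt_const.add a0)).mul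
      (continuousAt_const.mul a2)).neg.mul a3
  have t1 := c1.tendsto.mono_left (nhdsWithin_le_nhds (s := Set.Ioi (1 : ℝ)))
  have t2 := c2.tendsto.mono_left (nhdsWithin_le_nhds (s := Set.Ioi (1 : ℝ)))
  have t3 := t1.congr' (f₂ := fun u : ℝ => -((-3) ^ m * (∏ i : Fin n, gg (xx (n + 1) (u : ℂ) i.succ)) *
      (1 + xx (n + 1) (u : ℂ) 0) * (Cm m * ∏ i, xx (n + 1) (u : ℂ) i ^ (m + 1))) *
      ∑ s : Fin (n + 1 + 1), (3 * ((s : ℕ) : ℂ) - 3 * m - 2) * WW (cs m s) (u : ℂ))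
    (by
      filter_upwards [self_mem_nhdsWithin] with u hu
      exact ident_u w hw m n hn u hu)
  have h := tendsto_nhds_unique t3 t2
  have x1 : xx (n + 1) (1 : ℂ) = fun _ => 1 := funext fun i => by simp [xx]
  simp only [Complex.ofReal_one] at h
  simp only [x1] at h
  rw [List.ofFn_const] at h
  have g1 : gg 1 = 2 := by simp only [gg]; norm_num
  simp only [g1, Finset.prod_const, Finset.card_univ, Fintype.card_fin, one_pow] at h
  have e1 : ((1 : ℂ) - 1 + 1) = 1 := by norm_num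
  have e2 : ((1 : ℂ) + 1) = 2 := by norm_num
  have e3 : ((2 : ℂ) ^ 2) = 4 := by norm_num
  rw [e1, e2, e3, one_mul, mul_one] at h
  exact h

end Pool.Agent.Y373.OS
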