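import Mathlib
import Pool.Agent.Y373.OS.Eval3
import Pool.Agent.Y373.OS.Lim3

set_option autoImplicit false

namespace Pool.Agent.Y373.OS

open Finset

theorem vand_cons {n : ℕ} (y : ℚ) (x : Fin n → ℚ) :
    (Matrix.vandermonde (Fin.cons y x : Fin (n + 1) → ℚ)).det
      = (∏ i, (x i - y)) * (Matrix.vandermonde x).det := by
  simp only [Matrix.det_vandermonde, Fin.prod_univ_succ, Fin.cons_zero, Fin.cons_succ]
  congr 1
  · rw [Fin.Ioi_zero_eq_map, Finset.prod_map]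
    simp
  · refine Finset.prod_congr rfl fun i _ => ?_
    rw [Fin.Ioi_succ, Finset.prod_map]
    simp

theorem det_minor {n : ℕ} (a : Fin (n + 1) → ℚ) (s : Fin (n + 1)) :
    (∏ j, (a (s.succAbove j) - a s)) * (Matrix.vandermonde fun j => a (s.succAbove j)).det
      = (-1) ^ (s : ℕ) * (Matrix.vandermonde a).det := by
  rw [← vand_cons]
  have h : (Fin.cons (a s) (fun j => a (s.succAbove j)) : Fin (n + 1) → ℚ) = a ∘ s.cycleRange.symm := by
    funext i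
    refine Fin.cases ?_ (fun i => ?_) i
    · simp
    · simp
  rw [h]
  have h2 : Matrix.vandermonde (a ∘ s.cycleRange.symm) = (Matrix.vandermonde a).submatrix s.cycleRange.symm id := rfl
  rw [h2, Matrix.det_permute, Equiv.Perm.sign_symm, Fin.sign_cycleRange]
  simp

theorem vand_VC (k : ℕ) : ∀ f : ℕ → ℚ,
    (Matrix.vandermonde fun i : Fin k => f i ^ 2).det = VC f k := by
  induction k with
  | zero => intro f; simp [VC]
  | succ k ih =>
    intro f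
    have h : (fun i : Fin (k + 1) => f i ^ 2) = (Fin.cons (f 0 ^ 2) (fun i : Fin k => f (i + 1) ^ 2) :
        Fin (k + 1) → ℚ) := by
      funext i
      refine Fin.cases ?_ (fun i => ?_) i
      · simp
      · simp
    rw [h, vand_cons, VC_first, ih (fun i => f (i + 1)), mul_comm]
    congr 1
    exact Fin.prod_univ_eq_prod_range (fun i => f (i + 1) ^ 2 - f 0 ^ 2) k

theorem prod_succAbove {k : ℕ} (g : ℕ → ℚ) (s : Fin (k + 1)) :
    ∏ j : Fin k, g ((s.succAbove j : Fin (k + 1)) : ℕ) = ∏ t ∈ (range (k + 1)).erase s, g t := by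
  classical
  set g' : ℕ → ℚ := Function.update g s 1 with hg
  have h1 : ∏ i : Fin (k + 1), g' i = ∏ j : Fin k, g ((s.succAbove j : Fin (k + 1)) : ℕ) := by
    rw [Fin.prod_univ_succAbove _ s]
    have : g' s = 1 := by rw [hg, Function.update_self]
    rw [this, one_mul]
    refine prod_congr rfl fun j _ => ?_
    rw [hg, Function.update_of_ne]
    intro h
    exact Fin.succAbove_ne s j (Fin.ext h)
  have h2 : ∏ i ∈ range (k + 1), g' i = ∏ t ∈ (range (k + 1)).erase s, g t := by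
    rw [← mul_prod_erase (range (k + 1)) g' (a := (s : ℕ)) (mem_range.2 s.2)]
    have : g' s = 1 := by rw [hg, Function.update_self]
    rw [this, one_mul]
    refine prod_congr rfl fun j hj => ?_
    rw [hg, Function.update_of_ne (ne_of_mem_erase hj)]
  rw [← h1, ← h2, Fin.prod_univ_eq_prod_range]

/-- rational version of `WW c 1` -/
def WQ {n : ℕ} (c : Fin n → ℚ) : ℚ :=
  (∏ j, (4 * c j)) * ∏ i : Fin n, ∏ j ∈ Ioi i, (4 * (c j ^ 2 - c i ^ 2))

theorem WW_one {n : ℕ} (c : Fin n → ℤ) : WW c 1 = ((WQ (fun j => (c j : ℚ)) : ℚ) : ℂ) := by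
  rw [WW, WQ]
  push_cast
  congr 1
  · refine prod_congr rfl fun j _ => ?_
    rw [hh_one]; push_cast; ring
  · refine prod_congr rfl fun i _ => prod_congr rfl fun j _ => ?_
    rw [hh_one, hh_one]; push_cast; ring

def KK (n : ℕ) : ℚ := (∏ _j : Fin n, 4) * ∏ i : Fin n, ∏ _j ∈ Ioi i, 4

theorem KK_ne (n : ℕ) : KK n ≠ 0 :=
  mul_ne_zero (prod_ne_zero_iff.2 fun _ _ => by norm_num)
    (prod_ne_zero_iff.2 fun _ _ => prod_ne_zero_iff.2 fun _ _ => by norm_num)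

theorem WQ_eq {n : ℕ} (c : Fin n → ℚ) :
    WQ c = KK n * ((∏ j, c j) * (Matrix.vandermonde fun i => c i ^ 2).det) := by
  rw [WQ, KK, Matrix.det_vandermonde]
  simp only [prod_mul_distrib]
  ring

theorem count_rat (w : ℂ) (hw : w ^ 2 + w + 1 = 0) (m : ℕ) (N : ℕ)
    (h1 : Z1 w (List.replicate (2 * m + 1) 1) = N)
    (h2 : Z1 (w ^ 2) (List.replicate (2 * m + 1) 1) = N) : (N : ℚ) * Den m = Num m := by
  have h := lim_id w hw m (2 * m) rfl
  rw [h1, h2] at h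
  simp only [WW_one] at h
  have hQ : ((N : ℚ) + N) * 4 ^ (2 * m + 1) * WQ (fun j : Fin (2 * m + 1) => (((((j : ℕ) : ℤ) + 1 : ℤ)) : ℚ))
      = -((-3) ^ m * 2 ^ (2 * m) * 2 * (3⁻¹ : ℚ) ^ (m * (m + 1))) *
        ∑ s : Fin (2 * m + 1 + 1), (3 * ((s : ℕ) : ℚ) - 3 * m - 2) * WQ (fun j => ((cs m s j : ℤ) : ℚ)) := by
    have : ((((N : ℚ) + N) * 4 ^ (2 * m + 1) * WQ (fun j : Fin (2 * m + 1) => (((((j : ℕ) : ℤ) + 1 : ℤ)) : ℚ)) : ℚ) : ℂ)
      = ((-((-3) ^ m * 2 ^ (2 * m) * 2 * (3⁻¹ : ℚ) ^ (m * (m + 1))) *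
        ∑ s : Fin (2 * m + 1 + 1), (3 * ((s : ℕ) : ℚ) - 3 * m - 2) * WQ (fun j => ((cs m s j : ℤ) : ℚ)) : ℚ) : ℂ) := by
      push_cast
      rw [Cm] at h
      push_cast at h
      exact h
    exact_mod_cast this
  simp only [WQ_eq] at hQ
  have hK := KK_ne (2 * m + 1)
  have e1 : ∏ j : Fin (2 * m + 1), (((((j : ℕ) : ℤ) + 1 : ℤ)) : ℚ) = (2 * m + 1).factorial := by
    rw [Fin.prod_univ_eq_prod_range (fun j => ((((j : ℤ) + 1 : ℤ)) : ℚ)) (2 * m + 1),
      ← prod_range_add_one_eq_factorial]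
    push_cast; rfl
  have e2 : (Matrix.vandermonde fun j : Fin (2 * m + 1) => (((((j : ℕ) : ℤ) + 1 : ℤ)) : ℚ) ^ 2).det
      = VC (fun i => (i : ℚ) + 1) (2 * m + 1) := by
    rw [← vand_VC]
    push_cast; rfl
  have e3 : ∀ s : Fin (2 * m + 1 + 1), ∀ j, ((cs m s j : ℤ) : ℚ) = cQ m ((s.succAbove j : Fin _) : ℕ) := by
    intro s j
    simp only [cs, cQ]; push_cast; ring
  have e4 : ∀ s : Fin (2 * m + 1 + 1), (3 * ((s : ℕ) : ℚ) - 3 * m - 2) * ∏ j, ((cs m s j : ℤ) : ℚ)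
      = ∏ s ∈ range (2 * m + 2), cQ m s := by
    intro s
    simp only [e3]
    rw [← Fin.prod_univ_eq_prod_range (fun s => cQ m s) (2 * m + 2),
      Fin.prod_univ_succAbove _ s]
    rfl
  have e5 : ∀ s : Fin (2 * m + 1 + 1), (Matrix.vandermonde fun j => ((cs m s j : ℤ) : ℚ) ^ 2).det
      = -(VC (cQ m) (2 * m + 2)) * ((-1) ^ (s : ℕ) /
        ∏ t ∈ (range (2 * m + 2)).erase s, (cQ m s ^ 2 - cQ m t ^ 2)) := by
    intro s
    simp only [e3]
    have hm := det_minor (fun i : Fin (2 * m + 1 + 1) => cQ m i ^ 2) s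
    rw [vand_VC (2 * m + 1 + 1) (cQ m)] at hm
    have h6 : ∏ j, (cQ m ((s.succAbove j : Fin (2 * m + 1 + 1)) : ℕ) ^ 2 - cQ m s ^ 2)
        = -∏ t ∈ (range (2 * m + 2)).erase s, (cQ m s ^ 2 - cQ m t ^ 2) := by
      rw [prod_succAbove (fun t => cQ m t ^ 2 - cQ m s ^ 2) s]
      have : ∀ t ∈ (range (2 * m + 1 + 1)).erase s, (cQ m t ^ 2 - cQ m s ^ 2) =
          (-1) * (cQ m s ^ 2 - cQ m t ^ 2) := fun t _ => by ring
      rw [prod_congr rfl this, prod_mul_distrib, prod_const, card_erase_of_mem (mem_range.2 s.2),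
        card_range, Nat.add_sub_cancel, pow_succ, pow_mul]
      simp
    have h7 : ∏ t ∈ (range (2 * m + 2)).erase s, (cQ m s ^ 2 - cQ m t ^ 2) ≠ 0 := by
      rw [prod_ne_zero_iff]
      intro t ht
      have hts := ne_of_mem_erase ht
      have : cQ m s ^ 2 - cQ m t ^ 2 = 9 * (((s : ℤ) - (t : ℤ) : ℤ) : ℚ) * (((((s : ℤ) + t - 2 * m - 1 : ℤ)) : ℚ) - 1 / 3) := by
        simp only [cQ]; push_cast; ring
      rw [this]
      refine mul_ne_zero (mul_ne_zero (by norm_num) ?_) (third_ne _)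
      have : ((s : ℕ) : ℤ) - (t : ℤ) ≠ 0 := by omega
      exact_mod_cast this
    rw [h6] at hm
    field_simp
    linear_combination -hm
  simp only [e1, e2, e5] at hQ
  have e6 : ∑ s : Fin (2 * m + 1 + 1), (3 * ((s : ℕ) : ℚ) - 3 * m - 2) * (KK (2 * m + 1) *
      ((∏ j, ((cs m s j : ℤ) : ℚ)) * (-(VC (cQ m) (2 * m + 2)) * ((-1) ^ (s : ℕ) /
        ∏ t ∈ (range (2 * m + 2)).erase s, (cQ m s ^ 2 - cQ m t ^ 2)))))
      = -(KK (2 * m + 1)) * (∏ s ∈ range (2 * m + 2), cQ m s) * VC (cQ m) (2 * m + 2) * Sm m := by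
    rw [Sm, ← Fin.sum_univ_eq_sum_range (fun s => (-1 : ℚ) ^ s /
      ∏ t ∈ (range (2 * m + 2)).erase s, (cQ m s ^ 2 - cQ m t ^ 2)), mul_sum]
    refine sum_congr rfl fun s _ => ?_
    rw [← e4 s]; ring
  rw [e6] at hQ
  rw [Den, Num]
  have h8 : (2 : ℚ) ^ (2 * m) * (-3) ^ m = (-12) ^ m := by
    rw [pow_mul, ← mul_pow]; norm_num
  have h9 : (3⁻¹ : ℚ) = 1 / 3 := by norm_num
  rw [h9] at hQ
  rw [← h8]
  refine mul_left_cancel₀ (mul_ne_zero (two_ne_zero) hK) ?_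
  linear_combination hQ

end Pool.Agent.Y373.OS
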