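import Mathlib
import Pool.Agent.Y373.OS.Count4
import Pool.Agent.Y373.OS.Eval4

set_option autoImplicit false

namespace Pool.Agent.Y373.OS

open Finset

theorem exists_w : ∃ w : ℂ, w ^ 2 + w + 1 = 0 := by
  refine ⟨⟨-1 / 2, Real.sqrt 3 / 2⟩, ?_⟩
  have h3 : Real.sqrt 3 ^ 2 = 3 := Real.sq_sqrt (by norm_num)
  apply Complex.ext
  · simp only [pow_two, Complex.add_re, Complex.mul_re, Complex.one_re, Complex.zero_re]
    nlinarith
  · simp only [pow_two, Complex.add_im, Complex.mul_im, Complex.one_im, Complex.zero_im]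
    ring

theorem Den_ne (m : ℕ) : Den m ≠ 0 := by
  rw [Den]
  refine mul_ne_zero (mul_ne_zero (by exact_mod_cast (2 * m + 1).factorial_ne_zero)
    (by positivity)) ?_
  rw [VC, prod_ne_zero_iff]
  intro j _
  rw [prod_ne_zero_iff]
  intro i hi
  rw [mem_range] at hi
  have h : ((j : ℚ) + 1) ^ 2 - ((i : ℚ) + 1) ^ 2 = ((j : ℚ) - i) * (j + i + 2) := by ring
  rw [h]
  have h1 : (j : ℚ) - i ≠ 0 := by
    rw [sub_ne_zero]
    exact_mod_cast (by omega : j ≠ i)
  exact mul_ne_zero h1 (by positivity)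

theorem FF_eq (n : ℕ) (hn : 1 ≤ n) : FF n = (2 : ℚ) ^ (n - 1) * ((Nat.factorial (3 * n + 2) : ℕ) : ℚ)
            / ((Nat.factorial (2 * n + 1) : ℕ) : ℚ)
          * ∏ i ∈ Finset.Icc 1 n,
              (((Nat.factorial (6 * i - 2) : ℕ) : ℚ)
                / ((Nat.factorial (2 * n + 2 * i + 1) : ℕ) : ℚ)) := by
  rw [FF]
  congr 1
  · congr 2
    obtain ⟨k, rfl⟩ : ∃ k, n = k + 1 := ⟨n - 1, by omega⟩
    rw [Nat.add_sub_cancel, pow_succ]; ring
  · have : Finset.Icc 1 n = (range n).image (fun i => i + 1) := by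
      ext i; simp only [mem_Icc, mem_image, mem_range]
      constructor
      · rintro ⟨h1, h2⟩; exact ⟨i - 1, by omega, by omega⟩
      · rintro ⟨j, h1, rfl⟩; omega
    rw [this, prod_image (by intro a _ b _ h; simpa using h)]
    refine prod_congr rfl fun i _ => ?_
    rw [show 6 * (i + 1) - 2 = 6 * i + 4 by omega, show 2 * n + 2 * (i + 1) + 1 = 2 * n + 2 * i + 3 by ring]

theorem main (n : ℕ) (hn : 1 ≤ n) :
    ((Nat.card {A : Matrix (Fin (2 * n + 1)) (Fin (2 * n + 1)) ℤ // Fz (2 * n + 1) A} : ℕ) : ℚ)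
      = (2 : ℚ) ^ (n - 1) * ((Nat.factorial (3 * n + 2) : ℕ) : ℚ)
            / ((Nat.factorial (2 * n + 1) : ℕ) : ℚ)
          * ∏ i ∈ Finset.Icc 1 n,
              (((Nat.factorial (6 * i - 2) : ℕ) : ℚ)
                / ((Nat.factorial (2 * n + 2 * i + 1) : ℕ) : ℚ)) := by
  obtain ⟨w, hw⟩ := exists_w
  have hN : ¬ Even (2 * n + 1) := by
    rw [Nat.not_even_iff_odd]; exact ⟨n, rfl⟩
  have h1 := count_eq w hw (2 * n + 1) hN
  have h2 := count_eq (w ^ 2) (w2 w hw) (2 * n + 1) hN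
  have h3 := count_rat w hw n _ h1 h2
  rw [Num_eq] at h3
  rw [← FF_eq n hn]
  exact mul_right_cancel₀ (Den_ne n) h3

end Pool.Agent.Y373.OS
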